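import Mathlib

set_option autoImplicit false
set_option maxHeartbeats 4000000

open Topology Uniformity Filter

namespace Pool.Agent.MP_b3a7e3_al.BU

universe u

variable {Y : Type u}

/-- augmented chains with coefficients in `ZMod 2` -/
abbrev Ch (Y : Type u) := List Y →₀ ZMod 2

/-- extend a map on lists linearly -/
noncomputable def ext (f : List Y → Ch Y) : Ch Y →ₗ[ZMod 2] Ch Y := Finsupp.linearCombination (ZMod 2) f

noncomputable def evl (f : List Y → ZMod 2) : Ch Y →ₗ[ZMod 2] ZMod 2 :=
  Finsupp.linearCombination (ZMod 2) f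

noncomputable abbrev sg (l : List Y) : Ch Y := Finsupp.single l 1

theorem ext_sg (f : List Y → Ch Y) (l : List Y) : ext f (sg l) = f l := by
  simp [ext]

theorem evl_sg (f : List Y → ZMod 2) (l : List Y) : evl f (sg l) = f l := by
  simp [evl]

theorem add_self (c : Ch Y) : c + c = 0 := by
  ext l
  simp [CharTwo.add_self_eq_zero]

theorem hom_ext {M : Type*} [AddCommGroup M] [Module (ZMod 2) M] {f g : Ch Y →ₗ[ZMod 2] M}
    (h : ∀ l, f (sg l) = g (sg l)) : f = g := by
  apply Finsupp.lhom_ext
  intro l a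
  have : Finsupp.single l a = a • sg l := by simp
  rw [this, map_smul, map_smul, h]

/-- prefix a vertex -/
noncomputable def cons (x : Y) : Ch Y →ₗ[ZMod 2] Ch Y := ext fun l => sg (x :: l)

theorem cons_sg (x : Y) (l : List Y) : cons x (sg l) = sg (x :: l) := ext_sg _ _

/-- push forward -/
noncomputable def push (f : Y → Y) : Ch Y →ₗ[ZMod 2] Ch Y := ext fun l => sg (l.map f)

theorem push_sg (f : Y → Y) (l : List Y) : push f (sg l) = sg (l.map f) := ext_sg _ _

theorem push_cons (f : Y → Y) (x : Y) (c : Ch Y) : push f (cons x c) = cons (f x) (push f c) := by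
  have : (push f) ∘ₗ (cons x) = (cons (f x)) ∘ₗ (push f) := hom_ext fun l => by
    simp only [LinearMap.comp_apply, cons_sg, push_sg, List.map_cons]
  exact congrArg (fun g => g c) this

theorem push_push (f g : Y → Y) (c : Ch Y) : push f (push g c) = push (f ∘ g) c := by
  have : (push f) ∘ₗ (push g) = push (f ∘ g) := hom_ext fun l => by
    simp only [LinearMap.comp_apply, push_sg, List.map_map]
  exact congrArg (fun g => g c) this

/-- boundary of a list -/
noncomputable def bdl : List Y → Ch Y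
  | [] => 0
  | x :: l => sg l + cons x (bdl l)

noncomputable def bd : Ch Y →ₗ[ZMod 2] Ch Y := ext bdl

theorem bd_sg (l : List Y) : bd (sg l) = bdl l := ext_sg _ _

theorem bd_cons (x : Y) (c : Ch Y) : bd (cons x c) = c + cons x (bd c) := by
  have : bd ∘ₗ (cons x) = LinearMap.id + (cons x) ∘ₗ bd := hom_ext fun l => by
    simp only [LinearMap.comp_apply, cons_sg, bd_sg, LinearMap.add_apply, LinearMap.id_apply]
    rfl
  exact congrArg (fun g => g c) this

theorem bd_push (f : Y → Y) (c : Ch Y) : bd (push f c) = push f (bd c) := by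
  have : bd ∘ₗ (push f) = (push f) ∘ₗ bd := hom_ext fun l => by
    simp only [LinearMap.comp_apply, push_sg, bd_sg]
    induction l with
    | nil => simp [bdl]
    | cons x l ih =>
      rw [List.map_cons]
      simp only [bdl, map_add, push_sg, push_cons, ih]
  exact congrArg (fun g => g c) this

/-- prism operator -/
noncomputable def prl (g h : Y → Y) : List Y → Ch Y
  | [] => 0
  | x :: l => sg (g x :: h x :: l.map h) + cons (g x) (prl g h l)

noncomputable def pr (g h : Y → Y) : Ch Y →ₗ[ZMod 2] Ch Y := ext (prl g h)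

theorem pr_sg (g h : Y → Y) (l : List Y) : pr g h (sg l) = prl g h l := ext_sg _ _

theorem pr_cons (g h : Y → Y) (x : Y) (c : Ch Y) :
    pr g h (cons x c) = cons (g x) (cons (h x) (push h c)) + cons (g x) (pr g h c) := by
  have : (pr g h) ∘ₗ (cons x) = (cons (g x)) ∘ₗ (cons (h x)) ∘ₗ (push h) +
      (cons (g x)) ∘ₗ (pr g h) := hom_ext fun l => by
    simp only [LinearMap.comp_apply, cons_sg, pr_sg, LinearMap.add_apply, push_sg]
    rfl
  exact congrArg (fun g => g c) this

theorem bd_pr (g h : Y → Y) (c : Ch Y) : bd (pr g h c) = pr g h (bd c) + (push g c + push h c) := by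
  have : bd ∘ₗ (pr g h) = (pr g h) ∘ₗ bd + (push g + push h) := hom_ext fun l => by
    simp only [LinearMap.comp_apply, LinearMap.add_apply, pr_sg, bd_sg, push_sg]
    induction l with
    | nil => simp [prl, bdl, add_self]
    | cons x l ih =>
      have e1 : sg (g x :: h x :: l.map h) = cons (g x) (cons (h x) (sg (l.map h))) := by
        rw [cons_sg, cons_sg]
      simp only [prl, bdl, map_add, e1, bd_cons, pr_cons, pr_sg, ih, bd_sg, List.map_cons]
      have e2 : bdl (l.map h) = push h (bdl l) := by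
        rw [← bd_sg, ← bd_sg, ← push_sg, bd_push]
      have e3 : sg (g x :: l.map g) = cons (g x) (sg (l.map g)) := by rw [cons_sg]
      have e4 : sg (h x :: l.map h) = cons (h x) (sg (l.map h)) := by rw [cons_sg]
      rw [e2, e3, e4]
      have a1 := add_self (cons (g x) (sg (l.map h)))
      refine Eq.trans ?_ (add_zero _)
      rw [← a1]
      abel
  exact congrArg (fun g => g c) this

/-- the cochain `δr₁ ∪ ... ∪ δrᵢ` -/
def B : List (Y → ZMod 2) → List Y → ZMod 2
  | [], [_] => 1
  | r :: rs, x :: y :: l => (r x + r y) * B rs (y :: l)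
  | _, _ => 0

/-- the cochain `r ∪ δr₁ ∪ ... ∪ δrᵢ` -/
def A (r : Y → ZMod 2) (rs : List (Y → ZMod 2)) : List Y → ZMod 2
  | [] => 0
  | x :: l => r x * B rs (x :: l)

theorem B_nil_cons_cons (x y : Y) (l : List Y) : B [] (x :: y :: l) = 0 := rfl

theorem B_cons (r : Y → ZMod 2) (rs : List (Y → ZMod 2)) (x y : Y) (l : List Y) :
    B (r :: rs) (x :: y :: l) = (r x + r y) * B rs (y :: l) := rfl

theorem evl_cons_of (f : List Y → ZMod 2) (x : Y) (c : Ch Y) :
    evl f (cons x c) = evl (fun l => f (x :: l)) c := by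
  have : (evl f) ∘ₗ (cons x) = evl (fun l => f (x :: l)) := hom_ext fun l => by
    simp only [LinearMap.comp_apply, cons_sg, evl_sg]
  exact congrArg (fun g => g c) this

theorem evl_push (f : List Y → ZMod 2) (g : Y → Y) (c : Ch Y) :
    evl f (push g c) = evl (fun l => f (l.map g)) c := by
  have : (evl f) ∘ₗ (push g) = evl (fun l => f (l.map g)) := hom_ext fun l => by
    simp only [LinearMap.comp_apply, push_sg, evl_sg]
  exact congrArg (fun g => g c) this

theorem evl_mul (a : ZMod 2) (f : List Y → ZMod 2) (c : Ch Y) :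
    evl (fun l => a * f l) c = a * evl f c := by
  have : evl (fun l => a * f l) = a • evl f := hom_ext fun l => by
    simp only [evl_sg, LinearMap.smul_apply, smul_eq_mul]
  exact congrArg (fun g => g c) this

/-- `B` is a cocycle -/
theorem evl_B_bd : ∀ (rs : List (Y → ZMod 2)) (l : List Y), l.length = rs.length + 2 →
    evl (B rs) (bdl l) = 0
  | [], l, hl => by
    match l, hl with
    | [x, y], _ =>
      simp only [bdl, map_add, evl_sg, evl_cons_of, map_zero, add_zero]
      change (1 : ZMod 2) + 1 = 0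
      decide
  | r :: rs, l, hl => by
    match l, hl with
    | x :: y :: z :: l, hl =>
      have ih := evl_B_bd rs (y :: z :: l) (by simpa using hl)
      have e1 : evl (B (r :: rs)) (bdl (x :: y :: z :: l)) =
          (r y + r z) * B rs (z :: l) + ((r x + r z) * B rs (z :: l) +
            (r x + r y) * evl (fun l => B rs (y :: l)) (bdl (z :: l))) := by
        rw [show bdl (x :: y :: z :: l) = sg (y :: z :: l) + cons x (sg (z :: l) +
          cons y (bdl (z :: l))) from rfl]
        rw [map_add, evl_sg, map_add, map_add, cons_sg, evl_sg, evl_cons_of, evl_cons_of, B_cons,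
          B_cons]
        congr 2
        rw [← evl_mul]
        rfl
      have e2 : evl (B rs) (bdl (y :: z :: l)) =
          B rs (z :: l) + evl (fun l => B rs (y :: l)) (bdl (z :: l)) := by
        rw [show bdl (y :: z :: l) = sg (z :: l) + cons y (bdl (z :: l)) from rfl, map_add, evl_sg,
          evl_cons_of]
      rw [e2] at ih
      have e3 : evl (fun l => B rs (y :: l)) (bdl (z :: l)) = B rs (z :: l) := by
        have h2 : ∀ a b : ZMod 2, a + b = 0 → b = a := by decide
        exact h2 _ _ ih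
      rw [e1, e3]
      have h3 : ∀ a b c d : ZMod 2, (b + c) * d + ((a + c) * d + (a + b) * d) = 0 := by decide
      exact h3 _ _ _ _

theorem evl_A_bd (r : Y → ZMod 2) (rs : List (Y → ZMod 2)) (l : List Y)
    (hl : l.length = rs.length + 2) : evl (A r rs) (bdl l) = B (r :: rs) l := by
  match l, hl with
  | x :: y :: l, hl =>
    have h1 := evl_B_bd rs (x :: y :: l) hl
    have e1 : evl (A r rs) (bdl (x :: y :: l)) =
        r y * B rs (y :: l) + r x * evl (fun l => B rs (x :: l)) (bdl (y :: l)) := by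
      rw [show bdl (x :: y :: l) = sg (y :: l) + cons x (bdl (y :: l)) from rfl, map_add, evl_sg,
        evl_cons_of, ← evl_mul]
      rfl
    have e2 : evl (B rs) (bdl (x :: y :: l)) =
        B rs (y :: l) + evl (fun l => B rs (x :: l)) (bdl (y :: l)) := by
      rw [show bdl (x :: y :: l) = sg (y :: l) + cons x (bdl (y :: l)) from rfl, map_add, evl_sg,
        evl_cons_of]
    rw [e2] at h1
    have e3 : evl (fun l => B rs (x :: l)) (bdl (y :: l)) = B rs (y :: l) := by
      have h2 : ∀ a b : ZMod 2, a + b = 0 → b = a := by decide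
      exact h2 _ _ h1
    rw [e1, e3, B_cons]
    have h3 : ∀ a b c : ZMod 2, b * c + a * c = (a + b) * c := by decide
    exact h3 _ _ _

theorem B_map (ν : Y → Y) : ∀ (rs : List (Y → ZMod 2)), (∀ r ∈ rs, ∀ y, r (ν y) = r y + 1) →
    ∀ l : List Y, B rs (l.map ν) = B rs l
  | [], _, l => by
    match l with
    | [] => rfl
    | [x] => rfl
    | x :: y :: l => rfl
  | r :: rs, h, l => by
    match l with
    | [] => rfl
    | [x] => rfl
    | x :: y :: l =>
      have ih := B_map ν rs (fun r' hr' => h r' (List.mem_cons_of_mem _ hr')) (y :: l)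
      rw [List.map_cons] at ih
      rw [List.map_cons, List.map_cons, B_cons, B_cons, ih, h r List.mem_cons_self,
        h r List.mem_cons_self]
      have h3 : ∀ a b c : ZMod 2, (a + 1 + (b + 1)) * c = (a + b) * c := by decide
      exact h3 _ _ _

theorem A_map (ν : Y → Y) (r : Y → ZMod 2) (rs : List (Y → ZMod 2))
    (hr : ∀ y, r (ν y) = r y + 1) (h : ∀ r ∈ rs, ∀ y, r (ν y) = r y + 1) (l : List Y)
    (hl : l ≠ []) : A r rs l + A r rs (l.map ν) = B rs l := by
  match l, hl with
  | x :: l, _ =>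
    have e := B_map ν rs h (x :: l)
    rw [List.map_cons] at e
    rw [List.map_cons]
    change r x * B rs (x :: l) + r (ν x) * B rs (ν x :: l.map ν) = _
    rw [e, hr]
    have h3 : ∀ a c : ZMod 2, a * c + (a + 1) * c = c := by decide
    exact h3 _ _

/-! ### small chains -/

def SmS (V : Set (Y × Y)) (n : ℕ) : Set (List Y) := {l | l.length = n ∧ ∀ a ∈ l, ∀ b ∈ l, (a, b) ∈ V}

/-- chains made of `V`-small lists of length `n` -/
noncomputable def Sm (V : Set (Y × Y)) (n : ℕ) : Submodule (ZMod 2) (Ch Y) :=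
  Finsupp.supported (ZMod 2) (ZMod 2) (SmS V n)

theorem sg_mem {s : Set (List Y)} {l : List Y} (h : l ∈ s) :
    sg l ∈ Finsupp.supported (ZMod 2) (ZMod 2) s := Finsupp.single_mem_supported _ _ h

theorem ext_mem {s s' : Set (List Y)} {f : List Y → Ch Y}
    (hf : ∀ l ∈ s, f l ∈ Finsupp.supported (ZMod 2) (ZMod 2) s') {c : Ch Y}
    (hc : c ∈ Finsupp.supported (ZMod 2) (ZMod 2) s) :
    ext f c ∈ Finsupp.supported (ZMod 2) (ZMod 2) s' := by
  rw [ext, Finsupp.linearCombination_apply]
  refine Submodule.sum_mem _ fun l hl => Submodule.smul_mem _ _ (hf l ?_)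
  exact (Finsupp.mem_supported _ _).mp hc hl

theorem evl_congr {s : Set (List Y)} {f g : List Y → ZMod 2} (hfg : ∀ l ∈ s, f l = g l) {c : Ch Y}
    (hc : c ∈ Finsupp.supported (ZMod 2) (ZMod 2) s) : evl f c = evl g c := by
  rw [evl, evl, Finsupp.linearCombination_apply, Finsupp.linearCombination_apply]
  refine Finset.sum_congr rfl fun l hl => ?_
  simp only
  rw [hfg l ((Finsupp.mem_supported _ _).mp hc hl)]

theorem push_mem {V V' : Set (Y × Y)} {f : Y → Y} (hf : ∀ a b, (a, b) ∈ V → (f a, f b) ∈ V')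
    {n : ℕ} {c : Ch Y} (hc : c ∈ Sm V n) : push f c ∈ Sm V' n := by
  refine ext_mem (fun l hl => sg_mem ?_) hc
  refine ⟨by rw [List.length_map]; exact hl.1, ?_⟩
  intro a ha b hb
  obtain ⟨a', ha', rfl⟩ := List.mem_map.mp ha
  obtain ⟨b', hb', rfl⟩ := List.mem_map.mp hb
  exact hf _ _ (hl.2 a' ha' b' hb')

theorem Sm_mono {V V' : Set (Y × Y)} (h : V ⊆ V') {n : ℕ} : Sm V n ≤ Sm V' n := by
  refine Finsupp.supported_mono fun l hl => ⟨hl.1, fun a ha b hb => h (hl.2 a ha b hb)⟩

theorem prl_mem (g h : Y → Y) : ∀ l : List Y, prl g h l ∈ Finsupp.supported (ZMod 2) (ZMod 2)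
    {l' : List Y | l'.length = l.length + 1 ∧ ∀ b ∈ l', ∃ a ∈ l, b = g a ∨ b = h a}
  | [] => Submodule.zero_mem _
  | x :: l => by
    refine Submodule.add_mem _ (sg_mem ⟨by simp, ?_⟩) ?_
    · intro b hb
      rcases List.mem_cons.mp hb with rfl | hb
      · exact ⟨x, List.mem_cons_self, Or.inl rfl⟩
      rcases List.mem_cons.mp hb with rfl | hb
      · exact ⟨x, List.mem_cons_self, Or.inr rfl⟩
      obtain ⟨a, ha, rfl⟩ := List.mem_map.mp hb
      exact ⟨a, List.mem_cons_of_mem _ ha, Or.inr rfl⟩
    · refine ext_mem (fun l' hl' => sg_mem ?_) (prl_mem g h l)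
      refine ⟨by rw [List.length_cons, List.length_cons, hl'.1], ?_⟩
      intro b hb
      rcases List.mem_cons.mp hb with rfl | hb
      · exact ⟨x, List.mem_cons_self, Or.inl rfl⟩
      · obtain ⟨a, ha, hab⟩ := hl'.2 b hb
        exact ⟨a, List.mem_cons_of_mem _ ha, hab⟩

theorem pr_mem {V V' : Set (Y × Y)} {g h : Y → Y} (hgh : ∀ a b, (a, b) ∈ V →
    (g a, g b) ∈ V' ∧ (g a, h b) ∈ V' ∧ (h a, g b) ∈ V' ∧ (h a, h b) ∈ V')
    {n : ℕ} {c : Ch Y} (hc : c ∈ Sm V n) : pr g h c ∈ Sm V' (n + 1) := by
  refine ext_mem (fun l hl => ?_) hc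
  refine Finsupp.supported_mono ?_ (prl_mem g h l)
  rintro l' ⟨h1, h2⟩
  refine ⟨by rw [h1, hl.1], ?_⟩
  intro a ha b hb
  obtain ⟨a', ha', haa⟩ := h2 a ha
  obtain ⟨b', hb', hbb⟩ := h2 b hb
  have := hgh a' b' (hl.2 a' ha' b' hb')
  rcases haa with rfl | rfl <;> rcases hbb with rfl | rfl
  · exact this.1
  · exact this.2.1
  · exact this.2.2.1
  · exact this.2.2.2

/-- Discrete homotopy from `J₀` to `f`, arbitrarily fine. -/
def FineHomotopy [UniformSpace Y] (J₀ f : Y → Y) : Prop :=
  ∀ V ∈ 𝓤 Y, ∃ V' ∈ 𝓤 Y, ∃ (M : ℕ) (K : ℕ → Y → Y), K 0 = J₀ ∧ K M = f ∧ ∀ k < M, ∀ a b,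
    (a, b) ∈ V' → (K k a, K k b) ∈ V ∧ (K k a, K (k + 1) b) ∈ V ∧ (K (k + 1) a, K k b) ∈ V ∧
      (K (k + 1) a, K (k + 1) b) ∈ V

theorem exists_seq [UniformSpace Y] (y₀ : Y) {ν f J₀ : Y → Y} (hν : ∀ y, ν (ν y) = y)
    (hf : ∀ y, f (ν y) = ν (f y)) (hJ₀ : ∀ y, J₀ (ν y) = J₀ y) (hνu : UniformContinuous ν)
    (hfu : UniformContinuous f) (hJ : FineHomotopy J₀ f) :
    ∀ (i : ℕ), ∀ V ∈ 𝓤 Y, ∃ h : ℕ → Ch Y, (∃ y, h 0 = sg [y]) ∧ (∀ j ≤ i, h j ∈ Sm V (j + 1)) ∧
      ∀ j < i, bd (h (j + 1)) = h j + push ν (h j) := by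
  intro i
  induction i with
  | zero =>
    intro V hV
    refine ⟨fun _ => sg [y₀], ⟨y₀, rfl⟩, ?_, fun j hj => absurd hj (by omega)⟩
    intro j hj
    have : j = 0 := by omega
    subst this
    refine sg_mem ⟨rfl, ?_⟩
    intro a ha b hb
    rw [List.mem_singleton] at ha hb
    subst ha hb
    exact refl_mem_uniformity hV
  | succ i ih =>
    intro V hV
    obtain ⟨V₁, hV₁, M, K, hK0, hKM, hK⟩ := hJ V hV
    have hV₂ : {p : Y × Y | (ν p.1, ν p.2) ∈ V₁} ∈ 𝓤 Y := hνu hV₁
    have hV₃ : {p : Y × Y | (f p.1, f p.2) ∈ V} ∈ 𝓤 Y := hfu hV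
    obtain ⟨h, ⟨y, hy⟩, hsm, hbd⟩ := ih (V₁ ∩ ({p : Y × Y | (ν p.1, ν p.2) ∈ V₁} ∩
      {p : Y × Y | (f p.1, f p.2) ∈ V})) (Filter.inter_mem hV₁ (Filter.inter_mem hV₂ hV₃))
    set z : Ch Y := h i + push ν (h i) with hz
    have hnn : ∀ c : Ch Y, push ν (push ν c) = c := by
      intro c
      rw [push_push]
      have e : push (ν ∘ ν) = (LinearMap.id : Ch Y →ₗ[ZMod 2] Ch Y) := hom_ext fun l => by
        rw [push_sg, LinearMap.id_apply]
        have : ν ∘ ν = id := funext hν
        rw [this, List.map_id]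
      rw [e]; rfl
    have hbdz : bd z = 0 := by
      rw [hz, map_add, bd_push]
      rcases Nat.eq_zero_or_pos i with rfl | hi
      · rw [hy, bd_sg]
        have : bdl [y] = sg [] := by simp [bdl]
        rw [this, push_sg]
        exact add_self _
      · obtain ⟨j, rfl⟩ : ∃ j, i = j + 1 := ⟨i - 1, by omega⟩
        rw [hbd j (by omega), map_add, hnn, add_comm (push ν (h j)) (h j)]
        exact add_self _
    have hzs : z ∈ Sm V₁ (i + 1) := by
      refine Submodule.add_mem _ ?_ ?_
      · exact Sm_mono Set.inter_subset_left (hsm i le_rfl)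
      · refine push_mem (fun a b hab => ?_) (hsm i le_rfl)
        exact hab.2.1
    set w : Ch Y := ∑ k ∈ Finset.range M, pr (K k) (K (k + 1)) z with hw
    have hws : w ∈ Sm V (i + 1 + 1) := by
      refine Submodule.sum_mem _ fun k hk => pr_mem (hK k (Finset.mem_range.mp hk)) hzs
    have hbdw : bd w = push f (h i) + push ν (push f (h i)) := by
      have e1 : bd w = ∑ k ∈ Finset.range M, (push (K (k + 1)) z - push (K k) z) := by
        rw [hw, map_sum]
        refine Finset.sum_congr rfl fun k _ => ?_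
        rw [bd_pr, hbdz, map_zero, zero_add, add_comm]
        have : -push (K k) z = push (K k) z := neg_eq_of_add_eq_zero_left (add_self _)
        rw [sub_eq_add_neg, this]
      rw [e1, Finset.sum_range_sub (fun k => push (K k) z), hK0, hKM]
      have e2 : push J₀ z = 0 := by
        rw [hz, map_add, push_push]
        have : J₀ ∘ ν = J₀ := funext hJ₀
        rw [this]
        exact add_self _
      rw [e2, sub_zero, hz, map_add, push_push, push_push]
      have : f ∘ ν = ν ∘ f := funext hf
      rw [this]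
    refine ⟨fun j => if j ≤ i then push f (h j) else w, ⟨f y, ?_⟩, ?_, ?_⟩
    · simp only [Nat.zero_le, if_true]
      rw [hy, push_sg]
      rfl
    · intro j hj
      by_cases hji : j ≤ i
      · simp only [hji, if_true]
        exact push_mem (fun a b hab => hab.2.2) (hsm j hji)
      · have : j = i + 1 := by omega
        subst this
        simp only [hji, if_false]
        exact hws
    · intro j hj
      by_cases hji : j = i
      · subst hji
        have h1 : ¬ (j + 1 ≤ j) := by omega
        simp only [h1, if_false, le_refl, if_true]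
        exact hbdw
      · have h1 : j + 1 ≤ i := by omega
        have h2 : j ≤ i := by omega
        simp only [h1, h2, if_true]
        rw [bd_push, hbd j (by omega), map_add, push_push, push_push]
        have : f ∘ ν = ν ∘ f := funext hf
        rw [this]

theorem evl_seq {V : Set (Y × Y)} {ν : Y → Y} {h : ℕ → Ch Y} {y : Y} (hy : h 0 = sg [y]) {i : ℕ}
    (hsm : ∀ j ≤ i, h j ∈ Sm V (j + 1)) (hbd : ∀ j < i, bd (h (j + 1)) = h j + push ν (h j)) :
    ∀ (rs : List (Y → ZMod 2)), rs.length ≤ i → (∀ r ∈ rs, ∀ y, r (ν y) = r y + 1) →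
      evl (B rs) (h rs.length) = 1
  | [], _, _ => by
    rw [List.length_nil, hy, evl_sg]
    rfl
  | r :: rs, hl, hr => by
    have ih := evl_seq hy hsm hbd rs (by rw [List.length_cons] at hl; omega)
      (fun r' hr' => hr r' (List.mem_cons_of_mem _ hr'))
    rw [List.length_cons] at hl ⊢
    have h1 : evl (B (r :: rs)) (h (rs.length + 1)) = evl (A r rs) (bd (h (rs.length + 1))) := by
      have e : evl (fun l => evl (A r rs) (bdl l)) (h (rs.length + 1)) =
          evl (A r rs) (bd (h (rs.length + 1))) := by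
        have : evl (fun l => evl (A r rs) (bdl l)) = (evl (A r rs)) ∘ₗ bd := hom_ext fun l => by
          rw [evl_sg, LinearMap.comp_apply, bd_sg]
        rw [this]; rfl
      rw [← e]
      refine evl_congr (fun l hl' => ?_) (hsm _ hl)
      exact (evl_A_bd r rs l hl'.1).symm
    rw [h1, hbd _ (by omega), map_add, evl_push, ← ih]
    have h2 : evl (A r rs) (h rs.length) + evl (fun l => A r rs (l.map ν)) (h rs.length) =
        evl (fun l => A r rs l + A r rs (l.map ν)) (h rs.length) := by
      have : evl (A r rs) + evl (fun l => A r rs (l.map ν)) =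
          evl (fun l => A r rs l + A r rs (l.map ν)) := hom_ext fun l => by
        rw [LinearMap.add_apply, evl_sg, evl_sg, evl_sg]
      exact congrArg (fun g => g (h rs.length)) this
    rw [h2]
    refine evl_congr (fun l hl' => ?_) (hsm _ (by omega))
    refine A_map ν r rs (hr r List.mem_cons_self) (fun r' hr' => hr r' (List.mem_cons_of_mem _ hr'))
      l ?_
    intro h0
    have := hl'.1
    rw [h0] at this
    simp at this

end Pool.Agent.MP_b3a7e3_al.BU
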