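import Mathlib
import Pool.Agent.Lib.MP_b3a7e3_al.Chain

set_option autoImplicit false
set_option maxHeartbeats 4000000

open Topology Uniformity Filter

namespace Pool.Agent.MP_b3a7e3_al.BU

universe u

variable {Y : Type u}

open Classical in
/-- the sign of the first non-zero function of a list -/
noncomputable def sgn : List (Y → ℝ) → Y → ZMod 2
  | [], _ => 0
  | F :: Fs, x => if 0 < F x then 1 else if F x < 0 then 0 else sgn Fs x

theorem sgn_cons (F : Y → ℝ) (Fs : List (Y → ℝ)) (x : Y) :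
    sgn (F :: Fs) x = if 0 < F x then 1 else if F x < 0 then 0 else sgn Fs x := rfl

theorem sgn_odd {ν : Y → Y} {x : Y} : ∀ {Fs : List (Y → ℝ)}, (∀ F ∈ Fs, ∀ x, F (ν x) = -F x) →
    (∃ F ∈ Fs, F x ≠ 0) → sgn Fs (ν x) = sgn Fs x + 1
  | [], _, h => by obtain ⟨F, hF, -⟩ := h; cases hF
  | F :: Fs, h, h' => by
    have hF := h F List.mem_cons_self x
    rw [sgn_cons, sgn_cons, hF]
    rcases lt_trichotomy (F x) 0 with h1 | h1 | h1
    · have e1 : 0 < -F x := by linarith
      have e2 : ¬ (0 < F x) := by linarith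
      rw [if_pos e1, if_neg e2, if_pos h1]
      decide
    · have e1 : ¬ (0 < -F x) := by rw [h1]; simp
      have e2 : ¬ (-F x < 0) := by rw [h1]; simp
      have e3 : ¬ (0 < F x) := by rw [h1]; simp
      have e4 : ¬ (F x < 0) := by rw [h1]; simp
      rw [if_neg e1, if_neg e2, if_neg e3, if_neg e4]
      refine sgn_odd (fun F' hF' => h F' (List.mem_cons_of_mem _ hF')) ?_
      obtain ⟨G, hG, hG0⟩ := h'
      rcases List.mem_cons.mp hG with rfl | hG
      · exact absurd h1 hG0
      · exact ⟨G, hG, hG0⟩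
    · have e1 : ¬ (0 < -F x) := by linarith
      have e2 : -F x < 0 := by linarith
      rw [if_neg e1, if_pos e2, if_pos h1]
      decide

theorem B_eq_zero : ∀ (rs : List (Y → ZMod 2)) (r : Y → ZMod 2), r ∈ rs → ∀ l : List Y,
    (∀ a ∈ l, ∀ b ∈ l, r a = r b) → l.length = rs.length + 1 → B rs l = 0
  | [], r, hr, _, _, _ => by cases hr
  | r' :: rs, r, hr, l, hl, hlen => by
    match l, hlen with
    | x :: y :: l, hlen =>
      rw [B_cons]
      rcases List.mem_cons.mp hr with rfl | hr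
      · rw [hl x List.mem_cons_self y (List.mem_cons_of_mem _ List.mem_cons_self)]
        have h3 : ∀ a c : ZMod 2, (a + a) * c = 0 := by decide
        exact h3 _ _
      · rw [B_eq_zero rs r hr (y :: l) (fun a ha b hb => hl a (List.mem_cons_of_mem _ ha) b
          (List.mem_cons_of_mem _ hb)) (by simpa using hlen), mul_zero]

theorem fineHomotopy_of_continuous [UniformSpace Y] [CompactSpace Y] {J : unitInterval → Y → Y}
    (hJ : Continuous fun p : unitInterval × Y => J p.1 p.2) : FineHomotopy (J 0) (J 1) := by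
  intro V hV
  have hUC := CompactSpace.uniformContinuous_of_continuous hJ
  have h1 := hUC hV
  rw [Filter.mem_map, uniformity_prod, Filter.mem_inf_iff_superset] at h1
  obtain ⟨t₁, ht₁, t₂, ht₂, hsub⟩ := h1
  obtain ⟨U, hU, hU'⟩ := Filter.mem_comap.mp ht₁
  obtain ⟨V', hV', hV''⟩ := Filter.mem_comap.mp ht₂
  obtain ⟨ε, hε, hεU⟩ := Metric.mem_uniformity_dist.mp hU
  obtain ⟨M, hM⟩ := exists_nat_one_div_lt hε
  have key : ∀ (s t : unitInterval) (a b : Y), dist s t < ε → (a, b) ∈ V' → (J s a, J t b) ∈ V := by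
    intro s t a b hst hab
    have : ((s, a), (t, b)) ∈ t₁ ∩ t₂ := ⟨hU' (hεU hst), hV'' hab⟩
    exact hsub this
  refine ⟨V', hV', M + 1, fun k => J (Set.projIcc 0 1 zero_le_one ((k : ℝ) / ((M : ℝ) + 1))), ?_, ?_,
    ?_⟩
  · simp only [Nat.cast_zero, zero_div]
    rw [Set.projIcc_left]
    rfl
  · have h0 : ((M : ℝ) + 1) ≠ 0 := by positivity
    simp only [Nat.cast_add, Nat.cast_one]
    rw [div_self h0, Set.projIcc_right]
    rfl
  · intro k hk a b hab
    have hpos : (0 : ℝ) < (M : ℝ) + 1 := by positivity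
    have hkM : (k : ℝ) + 1 ≤ (M : ℝ) + 1 := by exact_mod_cast hk
    have m1 : (k : ℝ) / ((M : ℝ) + 1) ∈ Set.Icc (0 : ℝ) 1 := by
      refine ⟨by positivity, ?_⟩
      rw [div_le_one hpos]; linarith
    have m2 : ((k + 1 : ℕ) : ℝ) / ((M : ℝ) + 1) ∈ Set.Icc (0 : ℝ) 1 := by
      refine ⟨by positivity, ?_⟩
      rw [div_le_one hpos]; push_cast; linarith
    have hd : |(k : ℝ) / ((M : ℝ) + 1) - ((k + 1 : ℕ) : ℝ) / ((M : ℝ) + 1)| < ε := by
      rw [← sub_div]
      push_cast
      have : ((k : ℝ) - ((k : ℝ) + 1)) / ((M : ℝ) + 1) = -(1 / ((M : ℝ) + 1)) := by ring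
      rw [this, abs_neg, abs_of_pos (by positivity)]
      exact hM
    have d1 : dist (Set.projIcc (0 : ℝ) 1 zero_le_one ((k : ℝ) / ((M : ℝ) + 1)))
        (Set.projIcc (0 : ℝ) 1 zero_le_one (((k + 1 : ℕ) : ℝ) / ((M : ℝ) + 1))) < ε := by
      rw [Set.projIcc_of_mem _ m1, Set.projIcc_of_mem _ m2, Subtype.dist_eq, Real.dist_eq]
      exact hd
    refine ⟨key _ _ _ _ (by rw [dist_self]; exact hε) hab, key _ _ _ _ d1 hab,
      key _ _ _ _ (by rw [dist_comm]; exact d1) hab, key _ _ _ _ (by rw [dist_self]; exact hε) hab⟩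

/-- A Borsuk-Ulam theorem: an involution of a compact space which is free (in the sense that odd
functions separate orbits) does not commute with a null-homotopic map. -/
theorem no_equivariant_null [TopologicalSpace Y] [CompactSpace Y] [T2Space Y] (y₀ : Y) {ν : Y → Y}
    (hνc : Continuous ν) (hν : ∀ y, ν (ν y) = y) {J : unitInterval → Y → Y}
    (hJ : Continuous fun p : unitInterval × Y => J p.1 p.2) (hJ0 : ∀ y, J 0 (ν y) = J 0 y)
    (hJ1 : ∀ y, J 1 (ν y) = ν (J 1 y))
    (hfree : ∀ y, ∃ F : Y → ℝ, Continuous F ∧ (∀ x, F (ν x) = -F x) ∧ F y ≠ 0) : False := by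
  let _ : UniformSpace Y := uniformSpaceOfCompactR1
  have hfine := fineHomotopy_of_continuous hJ
  have hνu : UniformContinuous ν := CompactSpace.uniformContinuous_of_continuous hνc
  have hfc : Continuous (J 1) := hJ.comp (continuous_const.prodMk continuous_id)
  have hfu : UniformContinuous (J 1) := CompactSpace.uniformContinuous_of_continuous hfc
  choose F hFc hFodd hF0 using hfree
  obtain ⟨t, ht⟩ := isCompact_univ.elim_finite_subcover (fun y : Y => {x | F y x ≠ 0})
    (fun y => isOpen_ne_fun (hFc y) continuous_const)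
    (fun x _ => Set.mem_iUnion.mpr ⟨x, hF0 x⟩)
  -- a lower bound
  have hSc : Continuous fun x => ∑ i ∈ t, |F i x| := continuous_finsetSum _ fun i _ => (hFc i).abs
  obtain ⟨x₀, -, hx₀⟩ := isCompact_univ.exists_isMinOn ⟨y₀, Set.mem_univ y₀⟩
    hSc.continuousOn
  set m := ∑ i ∈ t, |F i x₀| with hm
  have hmpos : 0 < m := by
    obtain ⟨i, hi, hix⟩ : ∃ i ∈ t, F i x₀ ≠ 0 := by
      have := ht (Set.mem_univ x₀)
      simp only [Set.mem_iUnion] at this
      obtain ⟨i, hi, h⟩ := this
      exact ⟨i, hi, h⟩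
    refine Finset.sum_pos' (fun _ _ => abs_nonneg _) ⟨i, hi, abs_pos.mpr hix⟩
  set c := m / (t.card + 1) with hc
  have hcpos : 0 < c := by rw [hc]; positivity
  have hge : ∀ x, ∃ i ∈ t, c ≤ |F i x| := by
    intro x
    by_contra hcon
    push Not at hcon
    have h1 : m ≤ ∑ i ∈ t, |F i x| := hx₀ (Set.mem_univ x)
    have h2 : ∑ i ∈ t, |F i x| ≤ t.card * c := by
      have := Finset.sum_le_card_nsmul t (fun i => |F i x|) c (fun i hi => (hcon i hi).le)
      rwa [nsmul_eq_mul] at this
    have h3 : (t.card + 1) * c = m := by rw [hc]; field_simp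
    nlinarith
  -- the entourage
  set V : Set (Y × Y) := {p | ∀ i ∈ t, |F i p.1 - F i p.2| < c} with hV
  have hVu : V ∈ 𝓤 Y := by
    have e : V = ⋂ i ∈ t, {p : Y × Y | |F i p.1 - F i p.2| < c} := by
      ext p; simp [hV]
    rw [e, Filter.biInter_finset_mem]
    intro i _
    have := CompactSpace.uniformContinuous_of_continuous (hFc i) (Metric.dist_mem_uniformity hcpos)
    exact this
  set Fs : List (Y → ℝ) := t.toList.map F with hFs
  set rs : List (Y → ZMod 2) := Fs.map fun G => sgn (G :: Fs) with hrs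
  obtain ⟨h, ⟨y, hy⟩, hsm, hbd⟩ := exists_seq y₀ hν hJ1 hJ0 hνu hfu hfine rs.length V hVu
  have hFsodd : ∀ G ∈ Fs, ∀ x, G (ν x) = -G x := by
    intro G hG
    obtain ⟨i, -, rfl⟩ := List.mem_map.mp hG
    exact hFodd i
  have hFsne : ∀ x, ∃ G ∈ Fs, G x ≠ 0 := by
    intro x
    obtain ⟨i, hi, hix⟩ := hge x
    refine ⟨F i, List.mem_map.mpr ⟨i, Finset.mem_toList.mpr hi, rfl⟩, ?_⟩
    intro h0
    rw [h0, abs_zero] at hix
    linarith
  have h1 := evl_seq hy hsm hbd rs le_rfl (by
    intro r hr x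
    obtain ⟨G, hG, rfl⟩ := List.mem_map.mp hr
    refine sgn_odd ?_ ?_
    · intro G' hG' x
      rcases List.mem_cons.mp hG' with rfl | hG'
      · exact hFsodd _ hG x
      · exact hFsodd _ hG' x
    · obtain ⟨G', hG', h0⟩ := hFsne x
      exact ⟨G', List.mem_cons_of_mem _ hG', h0⟩)
  have h2 : evl (B rs) (h rs.length) = evl (fun _ => 0) (h rs.length) := by
    refine evl_congr (fun l hl => ?_) (hsm _ le_rfl)
    obtain ⟨hlen, hpair⟩ := hl
    match l, hlen with
    | x :: l, hlen =>
      obtain ⟨i, hi, hix⟩ := hge x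
      refine B_eq_zero rs (sgn (F i :: Fs)) ?_ (x :: l) ?_ hlen
      · exact List.mem_map.mpr ⟨F i, List.mem_map.mpr ⟨i, Finset.mem_toList.mpr hi, rfl⟩, rfl⟩
      · have hx : ∀ a ∈ x :: l, |F i a - F i x| < c := fun a ha =>
          hpair a ha x List.mem_cons_self i hi
        intro a ha b hb
        have ha' := abs_lt.mp (hx a ha)
        have hb' := abs_lt.mp (hx b hb)
        rw [sgn_cons, sgn_cons]
        rcases le_abs.mp hix with h3 | h3
        · have a1 : 0 < F i a := by linarith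
          have b1 : 0 < F i b := by linarith
          rw [if_pos a1, if_pos b1]
        · have a1 : ¬ (0 < F i a) := by linarith
          have a2 : F i a < 0 := by linarith
          have b1 : ¬ (0 < F i b) := by linarith
          have b2 : F i b < 0 := by linarith
          rw [if_neg a1, if_pos a2, if_neg b1, if_pos b2]
  rw [h2] at h1
  have h3 : evl (fun _ : List Y => (0 : ZMod 2)) (h rs.length) = 0 := by
    simp [evl, Finsupp.linearCombination_apply]
  rw [h3] at h1
  exact zero_ne_one h1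

end Pool.Agent.MP_b3a7e3_al.BU
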