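import Mathlib

set_option autoImplicit false

open scoped ComplexOrder Matrix

namespace Pool.Agent.MP_b3a7e3_al

universe u

variable {A B H T HH HHH AH AHH BH : Type u} [CStarAlgebra A] [CStarAlgebra B] [CStarAlgebra H]
  [CStarAlgebra T] [CStarAlgebra HH] [CStarAlgebra HHH] [CStarAlgebra AH] [CStarAlgebra AHH]
  [CStarAlgebra BH]

/-- A state of a unital C*-algebra: a unital positive functional. -/
structure IsState (f : B →L[ℂ] ℂ) : Prop where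
  map_one : f 1 = 1
  nonneg : ∀ b, 0 ≤ f (star b * b)

/-- `ω` is the product of the states `φ` and `ψ` along the embeddings `l` and `r`. -/
structure IsProduct (l : A →⋆ₐ[ℂ] T) (r : B →⋆ₐ[ℂ] T) (φ : A →L[ℂ] ℂ) (ψ : B →L[ℂ] ℂ)
    (ω : T →L[ℂ] ℂ) : Prop where
  left : IsState φ
  right : IsState ψ
  state : IsState ω
  mul : ∀ a b, ω (l a * r b) = φ a * ψ b

/-- `T`, with the embeddings `l a = a ⊗ 1` and `r b = 1 ⊗ b`, is the minimal tensor product of `A`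
and `B`: the completion of the algebraic tensor product for which all product states are bounded
and separate the points. -/
structure MinTensor (A B T : Type u) [CStarAlgebra A] [CStarAlgebra B] [CStarAlgebra T] where
  l : A →⋆ₐ[ℂ] T
  r : B →⋆ₐ[ℂ] T
  commute : ∀ a b, l a * r b = r b * l a
  dense : Dense (Submodule.span ℂ {t : T | ∃ a b, t = l a * r b} : Set T)
  product : ∀ (φ : A →L[ℂ] ℂ) (ψ : B →L[ℂ] ℂ), IsState φ → IsState ψ → ∃ ω, IsProduct l r φ ψ ω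
  separate : ∀ t : T, (∀ φ ψ ω, IsProduct l r φ ψ ω → ω t = 0) → t = 0

/-- `F = f ⊗ id` -/
def IsMapTensorId (P : MinTensor A H AH) (P' : MinTensor B H BH) (f : A →⋆ₐ[ℂ] B)
    (F : AH →⋆ₐ[ℂ] BH) : Prop :=
  (∀ a, F (P.l a) = P'.l (f a)) ∧ ∀ h, F (P.r h) = P'.r h

/-- `G = id ⊗ Δ : A ⊗ H → A ⊗ H ⊗ H`; here `κ` embeds `H ⊗ H` as the second and third leg. -/
def IsIdTensorMap (P : MinTensor A H AH) (P₂ : MinTensor H H HH) (Q : MinTensor AH H AHH)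
    (Δ : H →⋆ₐ[ℂ] HH) (G : AH →⋆ₐ[ℂ] AHH) : Prop :=
  ∃ κ : HH →⋆ₐ[ℂ] AHH, (∀ h, κ (P₂.l h) = Q.l (P.r h)) ∧ (∀ h, κ (P₂.r h) = Q.r h) ∧
    (∀ a, G (P.l a) = Q.l (P.l a)) ∧ ∀ h, G (P.r h) = κ (Δ h)

/-- `(δ ⊗ id) δ = (id ⊗ Δ) δ` -/
def CoactionIdentity (P : MinTensor A H AH) (P₂ : MinTensor H H HH) (Q : MinTensor AH H AHH)
    (Δ : H →⋆ₐ[ℂ] HH) (δ : A →⋆ₐ[ℂ] AH) : Prop :=
  ∃ F G : AH →⋆ₐ[ℂ] AHH, IsMapTensorId P Q δ F ∧ IsIdTensorMap P P₂ Q Δ G ∧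
    ∀ a, F (δ a) = G (δ a)

/-- A compact quantum group `(H, Δ)`, `HH = H ⊗ H`, `HHH = H ⊗ H ⊗ H`. -/
structure CompactQuantumGroup (H HH HHH : Type u) [CStarAlgebra H] [CStarAlgebra HH]
    [CStarAlgebra HHH] where
  t₂ : MinTensor H H HH
  t₃ : MinTensor HH H HHH
  Δ : H →⋆ₐ[ℂ] HH
  coassoc : CoactionIdentity t₂ t₂ t₃ Δ Δ
  dense_r : Dense (Submodule.span ℂ {t : HH | ∃ a b, t = Δ a * t₂.r b} : Set HH)
  dense_l : Dense (Submodule.span ℂ {t : HH | ∃ a b, t = Δ a * t₂.l b} : Set HH)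

/-- `δ : A → A ⊗ H` is an action of `(H, Δ)` on `A` (`AH = A ⊗ H`, `AHH = A ⊗ H ⊗ H`). -/
structure IsAction (𝔾 : CompactQuantumGroup H HH HHH) (P : MinTensor A H AH)
    (Q : MinTensor AH H AHH) (δ : A →⋆ₐ[ℂ] AH) : Prop where
  injective : Function.Injective δ
  coaction : CoactionIdentity P 𝔾.t₂ Q 𝔾.Δ δ
  dense : Dense (Submodule.span ℂ {t : AH | ∃ a h, t = δ a * P.r h} : Set AH)

/-- The action `δ` is free. -/
def IsFree (P : MinTensor A H AH) (δ : A →⋆ₐ[ℂ] AH) : Prop :=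
  Dense (Submodule.span ℂ {t : AH | ∃ a b, t = P.l a * δ b} : Set AH)

/-- `Φ` is an equivariant *-homomorphism from `H` to the join
`{f ∈ C([0,1], A ⊗ H) : f(0) ∈ ℂ ⊗ H, f(1) ∈ δ(A)}`. -/
structure IsEquivariantToJoin (𝔾 : CompactQuantumGroup H HH HHH) (P : MinTensor A H AH)
    (Q : MinTensor AH H AHH) (δ : A →⋆ₐ[ℂ] AH) (Φ : H →⋆ₐ[ℂ] C(unitInterval, AH)) : Prop where
  at_zero : ∀ h, ∃ h', Φ h 0 = P.r h'
  at_one : ∀ h, ∃ a, Φ h 1 = δ a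
  equivariant : ∃ G : AH →⋆ₐ[ℂ] AHH, IsIdTensorMap P 𝔾.t₂ Q 𝔾.Δ G ∧
    ∀ t : unitInterval, ∃ F : HH →⋆ₐ[ℂ] AHH,
      (∀ h, F (𝔾.t₂.l h) = Q.l (Φ h t)) ∧ (∀ h, F (𝔾.t₂.r h) = Q.r h) ∧
      ∀ h, G (Φ h t) = F (𝔾.Δ h)

/-- Q1 for the compact quantum group `𝔾`: if `A` has a character and `δ` is a free action of `𝔾`
on `A`, then there is no equivariant *-homomorphism from `H` to the join of `A` and `H`. -/
def NoEquivariantMap (𝔾 : CompactQuantumGroup H HH HHH) : Prop :=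
  ∀ (A AH AHH : Type u) [CStarAlgebra A] [CStarAlgebra AH] [CStarAlgebra AHH]
    (P : MinTensor A H AH) (Q : MinTensor AH H AHH) (δ : A →⋆ₐ[ℂ] AH),
    IsAction 𝔾 P Q δ → IsFree P δ → Nonempty (A →⋆ₐ[ℂ] ℂ) →
      ¬ ∃ Φ : H →⋆ₐ[ℂ] C(unitInterval, AH), IsEquivariantToJoin 𝔾 P Q δ Φ

/-- `u` is a unitary corepresentation of `𝔾`. -/
structure IsCorep (𝔾 : CompactQuantumGroup H HH HHH) {n : ℕ} (u : Matrix (Fin n) (Fin n) H) :
    Prop where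
  star_mul : uᴴ * u = 1
  mul_star : u * uᴴ = 1
  comul : ∀ i j, 𝔾.Δ (u i j) = ∑ k, 𝔾.t₂.l (u i k) * 𝔾.t₂.r (u k j)

/-- The C*-subalgebra of `H` generated by the entries of `u`. -/
noncomputable def coeffAlgebra {n : ℕ} (u : Matrix (Fin n) (Fin n) H) : StarSubalgebra ℂ H :=
  (StarAlgebra.adjoin ℂ {h : H | ∃ i j, h = u i j}).topologicalClosure

/-- The C*-algebra generated by the entries of `u` has a character `χ` for which the matrix `χ(u)`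
has order exactly `m`. -/
def HasCharacterOfOrder {n : ℕ} (u : Matrix (Fin n) (Fin n) H) (m : ℕ) : Prop :=
  ∃ (χ : coeffAlgebra u →⋆ₐ[ℂ] ℂ) (X : Matrix (Fin n) (Fin n) ℂ),
    (∀ i j (c : coeffAlgebra u), (c : H) = u i j → χ c = X i j) ∧ orderOf X = m

/-- `(H, Δ)` is a compact matrix quantum group: the entries of some finite-dimensional unitary
corepresentation generate `H`. -/
def IsMatrixQuantumGroup (𝔾 : CompactQuantumGroup H HH HHH) : Prop :=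
  ∃ (n : ℕ) (u : Matrix (Fin n) (Fin n) H), IsCorep 𝔾 u ∧ coeffAlgebra u = ⊤

/-- The group of characters of `H` is not perfect: for some unitary corepresentation `u` there is
a vector `v` spanning a line which is invariant under all the matrices `χ(u)`, but not fixed by
all of them. -/
def HasInvariantLine (𝔾 : CompactQuantumGroup H HH HHH) : Prop :=
  ∃ (n : ℕ) (u : Matrix (Fin n) (Fin n) H) (v : Fin n → ℂ), IsCorep 𝔾 u ∧
    (∀ χ : H →⋆ₐ[ℂ] ℂ, ∃ z : ℂ, u.map χ *ᵥ v = z • v) ∧ ∃ χ : H →⋆ₐ[ℂ] ℂ, u.map χ *ᵥ v ≠ v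

end Pool.Agent.MP_b3a7e3_al
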