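import Mathlib
import Pool.Agent.Lib.MP_b3a7e3_al.Defs

set_option autoImplicit false
set_option maxHeartbeats 4000000

open scoped ComplexOrder Matrix
open ComplexConjugate

namespace Pool.Agent.MP_b3a7e3_al

universe u

variable {B : Type u} [CStarAlgebra B]

namespace IsState

variable {f : B →L[ℂ] ℂ} (hf : IsState f)
include hf

theorem im_eq (b : B) : (f (star b * b)).im = 0 := by
  have := hf.nonneg b
  exact ((Complex.nonneg_iff.mp this).2).symm

theorem re_nonneg (b : B) : 0 ≤ (f (star b * b)).re := (Complex.nonneg_iff.mp (hf.nonneg b)).1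

theorem eq_re (b : B) : f (star b * b) = ((f (star b * b)).re : ℂ) := by
  apply Complex.ext
  · simp
  · simp [hf.im_eq b]

theorem map_star (x : B) : f (star x) = conj (f x) := by
  have h1 := hf.im_eq (x + 1)
  have h2 := hf.im_eq (x + Complex.I • 1)
  have h0 := hf.im_eq x
  have e1 : star (x + 1) * (x + 1) = star x * x + star x + x + 1 := by
    simp only [star_add, star_one, add_mul, mul_add, mul_one, one_mul]; abel
  have e2 : star (x + Complex.I • (1 : B)) * (x + Complex.I • 1) =
      star x * x + Complex.I • star x - Complex.I • x + (1 : B) := by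
    rw [show star (x + Complex.I • (1 : B)) = star x - Complex.I • (1 : B) by
      simp [sub_eq_add_neg]]
    simp only [sub_mul, mul_add, smul_mul_assoc, mul_smul_comm, one_mul, mul_one]
    match_scalars <;> ring_nf <;> simp
  rw [e1] at h1
  rw [e2] at h2
  simp only [map_add, map_sub, map_smul, hf.map_one, Complex.add_im, Complex.sub_im, h0,
    smul_eq_mul, Complex.mul_im, Complex.I_re, Complex.I_im, Complex.one_im, zero_mul, one_mul,
    add_zero, zero_add] at h1 h2
  apply Complex.ext
  · simp; linarith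
  · simp; linarith

/-- The semi-inner product of a state. -/
@[instance_reducible] noncomputable def core : PreInnerProductSpace.Core ℂ B where
  inner x y := f (star x * y)
  conj_inner_symm x y := by
    rw [← hf.map_star]; simp
  re_inner_nonneg x := by simpa using hf.re_nonneg x
  add_left x y z := by simp [add_mul]
  smul_left x y r := by simp

theorem cauchy (x y : B) : ‖f (star x * y)‖ ^ 2 ≤ (f (star x * x)).re * (f (star y * y)).re := by
  have := @InnerProductSpace.Core.inner_mul_inner_self_le ℂ B _ _ _ hf.core x y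
  have h2 : f (star y * x) = conj (f (star x * y)) := by rw [← hf.map_star]; simp
  change ‖f (star x * y)‖ * ‖f (star y * x)‖ ≤ _ at this
  rw [h2] at this
  simp only [Complex.norm_conj] at this
  rw [sq]
  exact this

theorem apply_star_mul_le (x : B) : (f (star x * x)).re ≤ ‖x‖ ^ 2 := by
  let _ := CStarAlgebra.spectralOrder B
  have _ := CStarAlgebra.spectralOrderedRing B
  have h := CStarAlgebra.star_mul_le_algebraMap_norm_sq (a := x)
  rw [← sub_nonneg, CStarAlgebra.nonneg_iff_eq_star_mul_self] at h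
  obtain ⟨y, hy⟩ := h
  have h3 := hf.re_nonneg y
  rw [← hy, map_sub, Complex.sub_re] at h3
  have h4 : f (algebraMap ℝ B (‖x‖ ^ 2)) = ((‖x‖ ^ 2 : ℝ) : ℂ) := by
    rw [Algebra.algebraMap_eq_smul_one, ← Complex.coe_smul, map_smul, hf.map_one]
    simp
  rw [h4] at h3
  simp only [Complex.ofReal_re] at h3
  linarith

theorem norm_le (x : B) : ‖f x‖ ≤ ‖x‖ := by
  have h := hf.cauchy 1 x
  simp only [star_one, one_mul, hf.map_one, Complex.one_re] at h
  have h2 := hf.apply_star_mul_le x
  have h3 : ‖f x‖ ^ 2 ≤ ‖x‖ ^ 2 := h.trans h2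
  exact (sq_le_sq₀ (norm_nonneg _) (norm_nonneg _)).mp h3

theorem eq_zero_of_left {z : B} (hz : (f (star z * z)).re = 0) (y : B) : f (y * z) = 0 := by
  have h := hf.cauchy (star y) z
  rw [hz, mul_zero, star_star] at h
  have : ‖f (y * z)‖ ^ 2 = 0 := le_antisymm h (by positivity)
  simpa using this

/-- multiplicative domain, right version -/
theorem mul_right_of {x : B} (hx : (f (star x * x)).re ≤ ‖f x‖ ^ 2) (y : B) :
    f (y * x) = f y * f x := by
  have h1 : (f (star (x - algebraMap ℂ B (f x)) * (x - algebraMap ℂ B (f x)))).re = 0 := by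
    apply le_antisymm _ (hf.re_nonneg _)
    have e : star (x - algebraMap ℂ B (f x)) * (x - algebraMap ℂ B (f x)) =
        star x * x - (f x) • star x - (conj (f x)) • x + (conj (f x) * f x) • (1 : B) := by
      simp only [Algebra.algebraMap_eq_smul_one, star_sub, star_smul, star_one, sub_mul, mul_sub,
        smul_mul_assoc, mul_smul_comm, one_mul, mul_one, Complex.star_def]
      module
    rw [e]
    simp only [map_add, map_sub, map_smul, hf.map_one, hf.map_star, smul_eq_mul, mul_one]
    have e2 : f x * conj (f x) = ((‖f x‖ ^ 2 : ℝ) : ℂ) := by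
      rw [Complex.mul_conj, Complex.normSq_eq_norm_sq]
    have e3 : conj (f x) * f x = ((‖f x‖ ^ 2 : ℝ) : ℂ) := by rw [mul_comm, e2]
    rw [e2, e3]
    simp only [Complex.add_re, Complex.sub_re, Complex.ofReal_re]
    linarith
  have h2 := hf.eq_zero_of_left h1 y
  rw [mul_sub, map_sub, sub_eq_zero] at h2
  rw [h2, Algebra.algebraMap_eq_smul_one, mul_smul_comm, mul_one, map_smul, smul_eq_mul, mul_comm]

theorem mul_left_of {x : B} (hx : (f (x * star x)).re ≤ ‖f x‖ ^ 2) (y : B) :
    f (x * y) = f x * f y := by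
  have h := hf.mul_right_of (x := star x) (by
    rw [star_star, hf.map_star, Complex.norm_conj]; exact hx) (star y)
  have h2 := congrArg conj h
  rw [← hf.map_star] at h2
  simp only [star_mul, star_star, map_mul, ← hf.map_star] at h2
  rw [h2, mul_comm]

end IsState

/-- A unital *-homomorphism to `ℂ` is a state. -/
theorem isState_of_char (χ : B →⋆ₐ[ℂ] ℂ) :
    ∃ f : B →L[ℂ] ℂ, IsState f ∧ ∀ b, f b = χ b := by
  have hb : ∀ x, ‖(χ : B →ₗ[ℂ] ℂ) x‖ ≤ 1 * ‖x‖ := fun x => by
    rw [one_mul]; exact NonUnitalStarAlgHom.norm_apply_le χ x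
  refine ⟨(χ : B →ₗ[ℂ] ℂ).mkContinuous 1 hb, ⟨by simp, fun b => ?_⟩, fun b => by simp⟩
  have : ((χ : B →ₗ[ℂ] ℂ).mkContinuous 1 hb) (star b * b) = star (χ b) * χ b := by
    rw [← StarHomClass.map_star, ← map_mul]
    rfl
  rw [this]
  exact star_mul_self_nonneg _

/-- composition of a state with a unital *-homomorphism -/
theorem IsState.comp {C : Type u} [CStarAlgebra C] {f : B →L[ℂ] ℂ} (hf : IsState f)
    (π : C →⋆ₐ[ℂ] B) : ∃ g : C →L[ℂ] ℂ, IsState g ∧ ∀ c, g c = f (π c) := by
  have hb : ∀ x, ‖(f.toLinearMap ∘ₗ (π : C →ₗ[ℂ] B)) x‖ ≤ 1 * ‖x‖ := fun x => by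
    rw [one_mul]; exact (hf.norm_le _).trans (NonUnitalStarAlgHom.norm_apply_le π x)
  refine ⟨(f.toLinearMap ∘ₗ (π : C →ₗ[ℂ] B)).mkContinuous 1 hb, ⟨?_, fun b => ?_⟩, fun b => ?_⟩
  · simp [hf.map_one]
  · have : ((f.toLinearMap ∘ₗ (π : C →ₗ[ℂ] B)).mkContinuous 1 hb) (star b * b) =
        f (star (π b) * π b) := by
      rw [← StarHomClass.map_star, ← map_mul]
      rfl
    rw [this]
    exact hf.nonneg _
  · simp

end Pool.Agent.MP_b3a7e3_al
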