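import Mathlib
import Pool.Agent.Lib.MP_b3a7e3_al.States

set_option autoImplicit false
set_option maxHeartbeats 4000000

open scoped ComplexOrder Matrix
open ComplexConjugate

namespace Pool.Agent.MP_b3a7e3_al

universe u

variable {B : Type u} [CStarAlgebra B]

theorem im_eq_zero_of_norm_le {g : B →L[ℂ] ℂ} (h1 : g 1 = 1) (hn : ∀ x, ‖g x‖ ≤ ‖x‖) {c : B}
    (hc : IsSelfAdjoint c) : (g c).im = 0 := by
  have key : ∀ t : ℝ, (g c).re ^ 2 + ((g c).im + t) ^ 2 ≤ ‖c‖ ^ 2 + t ^ 2 := by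
    intro t
    have e1 : g (c + ((t : ℂ) * Complex.I) • (1 : B)) = g c + (t : ℂ) * Complex.I := by
      rw [map_add, map_smul, h1]; simp
    have e2 := hn (c + ((t : ℂ) * Complex.I) • (1 : B))
    rw [e1] at e2
    have e3 : ‖g c + (t : ℂ) * Complex.I‖ ^ 2 = (g c).re ^ 2 + ((g c).im + t) ^ 2 := by
      rw [← Complex.normSq_eq_norm_sq, Complex.normSq_apply]
      simp
      ring
    have e4 : ‖c + ((t : ℂ) * Complex.I) • (1 : B)‖ ^ 2 ≤ ‖c‖ ^ 2 + t ^ 2 := by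
      rw [sq, ← CStarRing.norm_star_mul_self]
      have : star (c + ((t : ℂ) * Complex.I) • (1 : B)) * (c + ((t : ℂ) * Complex.I) • (1 : B)) =
          c * c + ((t ^ 2 : ℝ) : ℂ) • (1 : B) := by
        rw [star_add, star_smul, star_one, hc.star_eq]
        simp only [star_mul', Complex.star_def, Complex.conj_I, Complex.conj_ofReal, add_mul,
          mul_add, smul_mul_assoc, mul_smul_comm, one_mul, mul_one]
        match_scalars
        · ring
        · ring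
        · ring_nf
          simp
      rw [this]
      refine (norm_add_le _ _).trans ?_
      have h5 : ‖c * c‖ ≤ ‖c‖ ^ 2 := by rw [sq]; exact norm_mul_le _ _
      have h6 : ‖((t ^ 2 : ℝ) : ℂ) • (1 : B)‖ ≤ t ^ 2 := by
        rw [norm_smul]
        have h7 : ‖(1 : B)‖ ≤ 1 := by
          rcases subsingleton_or_nontrivial B with h | h
          · rw [Subsingleton.elim (1 : B) 0]; simp
          · rw [CStarRing.norm_one]
        calc ‖((t ^ 2 : ℝ) : ℂ)‖ * ‖(1 : B)‖ ≤ ‖((t ^ 2 : ℝ) : ℂ)‖ * 1 := by gcongr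
          _ = t ^ 2 := by simp
      exact add_le_add h5 h6
    rw [← e3]
    exact (pow_le_pow_left₀ (norm_nonneg _) e2 2).trans e4
  by_contra hne
  set y := (g c).im with hy
  have h := key ((‖c‖ ^ 2 + 1) / y)
  have h2 : 2 * y * ((‖c‖ ^ 2 + 1) / y) = 2 * (‖c‖ ^ 2 + 1) := by field_simp
  nlinarith [sq_nonneg (g c).re, sq_nonneg y, sq_nonneg ‖c‖]

theorem isState_of_norm_le {g : B →L[ℂ] ℂ} (h1 : g 1 = 1) (hn : ∀ x, ‖g x‖ ≤ ‖x‖) :
    IsState g := by
  refine ⟨h1, fun b => ?_⟩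
  let _ := CStarAlgebra.spectralOrder B
  have _ := CStarAlgebra.spectralOrderedRing B
  have hc : IsSelfAdjoint (star b * b) := IsSelfAdjoint.star_mul_self b
  set c := star b * b with hcdef
  have hc0 : 0 ≤ c := star_mul_self_nonneg b
  have him := im_eq_zero_of_norm_le h1 hn hc
  have h3 : 0 ≤ algebraMap ℝ B ‖c‖ - c := sub_nonneg.mpr (IsSelfAdjoint.le_algebraMap_norm_self hc)
  have h4 : ‖algebraMap ℝ B ‖c‖ - c‖ ≤ ‖algebraMap ℝ B ‖c‖‖ :=
    CStarAlgebra.norm_le_norm_of_nonneg_of_le h3 (by simpa using hc0)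
  have h7 : ‖(1 : B)‖ ≤ 1 := by
    rcases subsingleton_or_nontrivial B with h | h
    · rw [Subsingleton.elim (1 : B) 0]; simp
    · rw [CStarRing.norm_one]
  have h5 : ‖algebraMap ℝ B ‖c‖‖ ≤ ‖c‖ := by
    rw [Algebra.algebraMap_eq_smul_one, norm_smul]
    calc ‖‖c‖‖ * ‖(1 : B)‖ ≤ ‖‖c‖‖ * 1 := by gcongr
      _ = ‖c‖ := by simp
  have h6 : ‖g (algebraMap ℝ B ‖c‖ - c)‖ ≤ ‖c‖ := (hn _).trans (h4.trans h5)
  have h8 : g (algebraMap ℝ B ‖c‖ - c) = (‖c‖ : ℂ) - g c := by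
    rw [map_sub, Algebra.algebraMap_eq_smul_one, ← Complex.coe_smul, map_smul, h1]
    simp
  rw [h8] at h6
  have h9 : ‖c‖ - (g c).re ≤ ‖c‖ := by
    have := Complex.abs_re_le_norm ((‖c‖ : ℂ) - g c)
    simp only [Complex.sub_re, Complex.ofReal_re] at this
    exact (le_abs_self _).trans (this.trans h6)
  rw [Complex.nonneg_iff]
  exact ⟨by linarith, him.symm⟩

theorem exists_state_of_isSelfAdjoint [Nontrivial B] {a : B} (ha : IsSelfAdjoint a) :
    ∃ f : B →L[ℂ] ℂ, IsState f ∧ ‖f a‖ = ‖a‖ := by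
  haveI : IsStarNormal a := ha.isStarNormal
  let S := StarAlgebra.elemental ℂ a
  let a' : S := ⟨a, StarAlgebra.elemental.self_mem ℂ a⟩
  have ha' : IsSelfAdjoint a' := Subtype.ext ha
  obtain ⟨z, hz, hz'⟩ := spectrum.exists_nnnorm_eq_spectralRadius a'
  rw [ha'.spectralRadius_eq_nnnorm] at hz'
  obtain ⟨χ, hχ⟩ := (WeakDual.CharacterSpace.mem_spectrum_iff_exists).mp hz
  let p : Subspace ℂ B := S.toSubalgebra.toSubmodule
  let f₀ : p →ₗ[ℂ] ℂ :=
    { toFun := fun x => χ (⟨x.1, x.2⟩ : S)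
      map_add' := fun x y => by
        have : (⟨(x + y : p).1, (x + y).2⟩ : S) = ⟨x.1, x.2⟩ + ⟨y.1, y.2⟩ := rfl
        rw [this, map_add]
      map_smul' := fun c x => by
        have : (⟨(c • x : p).1, (c • x).2⟩ : S) = c • ⟨x.1, x.2⟩ := rfl
        rw [this, map_smul]; rfl }
  have hb : ∀ x, ‖f₀ x‖ ≤ 1 * ‖x‖ := fun x => by
    rw [one_mul]
    have h1 := NonUnitalStarAlgHom.norm_apply_le (χ : S →⋆ₐ[ℂ] ℂ) (⟨x.1, x.2⟩ : S)
    exact h1
  obtain ⟨g, hg, hgn⟩ := exists_extension_norm_eq p (f₀.mkContinuous 1 hb)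
  have hgn1 : ‖g‖ ≤ 1 := by
    rw [hgn]; exact LinearMap.mkContinuous_norm_le _ zero_le_one _
  have hg1 : g 1 = 1 := by
    have := hg (⟨1, one_mem S⟩ : p)
    rw [this]
    change χ (⟨1, one_mem S⟩ : S) = 1
    exact map_one χ
  have hga : g a = z := by
    have := hg (⟨a, a'.2⟩ : p)
    rw [this]
    exact hχ
  refine ⟨g, isState_of_norm_le hg1 (fun x => ?_), ?_⟩
  · calc ‖g x‖ ≤ ‖g‖ * ‖x‖ := g.le_opNorm x
      _ ≤ 1 * ‖x‖ := by gcongr
      _ = ‖x‖ := one_mul _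
  · rw [hga]
    have : ‖z‖₊ = ‖a'‖₊ := by exact_mod_cast hz'
    have h2 : ‖z‖ = ‖a'‖ := congrArg NNReal.toReal this
    exact h2

theorem exists_state [Nontrivial B] (a : B) : ∃ f : B →L[ℂ] ℂ, IsState f ∧ ‖a‖ ≤ 2 * ‖f a‖ := by
  obtain ⟨x, hx⟩ : ∃ x : B, x = ((2 : ℂ)⁻¹) • (a + star a) := ⟨_, rfl⟩
  obtain ⟨y, hy⟩ : ∃ y : B, y = (-(Complex.I / 2)) • (a - star a) := ⟨_, rfl⟩
  have hxs : IsSelfAdjoint x := by
    simp [hx, IsSelfAdjoint, star_smul, add_comm]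
  have hys : IsSelfAdjoint y := by
    simp only [hy, IsSelfAdjoint, star_smul, star_sub, star_star]
    rw [← neg_sub a (star a), smul_neg, ← neg_smul]
    congr 1
    simp [neg_div]
  have ha : a = x + Complex.I • y := by
    rw [hx, hy, smul_smul]
    match_scalars
    · ring_nf; simp; norm_num
    · ring_nf; simp
  have hna : ‖a‖ ≤ ‖x‖ + ‖y‖ := by
    conv_lhs => rw [ha]
    refine (norm_add_le _ _).trans ?_
    rw [norm_smul, Complex.norm_I, one_mul]
  have real_of : ∀ f : B →L[ℂ] ℂ, IsState f → ∀ s : B, IsSelfAdjoint s → (f s).im = 0 := by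
    intro f hf s hs
    exact im_eq_zero_of_norm_le hf.map_one hf.norm_le hs
  have hre : ∀ f : B →L[ℂ] ℂ, IsState f → (f a).re = (f x).re ∧ (f a).im = (f y).re := by
    intro f hf
    have e : f a = f x + Complex.I * f y := by
      conv_lhs => rw [ha]
      rw [map_add, map_smul, smul_eq_mul]
    have h1 := real_of f hf x hxs
    have h2 := real_of f hf y hys
    rw [e]
    simp [h1, h2]
  rcases le_total ‖y‖ ‖x‖ with h | h
  · obtain ⟨f, hf, hfx⟩ := exists_state_of_isSelfAdjoint hxs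
    refine ⟨f, hf, ?_⟩
    have h1 : |(f x).re| = ‖f x‖ := Complex.abs_re_eq_norm.mpr (real_of f hf x hxs)
    have h2 := Complex.abs_re_le_norm (f a)
    rw [(hre f hf).1, h1, hfx] at h2
    linarith
  · obtain ⟨f, hf, hfy⟩ := exists_state_of_isSelfAdjoint hys
    refine ⟨f, hf, ?_⟩
    have h1 : |(f y).re| = ‖f y‖ := Complex.abs_re_eq_norm.mpr (real_of f hf y hys)
    have h2 := Complex.abs_im_le_norm (f a)
    rw [(hre f hf).2, h1, hfy] at h2
    linarith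

/-- States separate the points. -/
theorem eq_zero_of_states [Nontrivial B] {a : B} (h : ∀ f : B →L[ℂ] ℂ, IsState f → f a = 0) :
    a = 0 := by
  obtain ⟨f, hf, hfa⟩ := exists_state a
  rw [h f hf, norm_zero, mul_zero] at hfa
  exact norm_le_zero_iff.mp hfa

end Pool.Agent.MP_b3a7e3_al
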