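import Mathlib
import Pool.Agent.Lib.MP_b3a7e3_al.Exist

set_option autoImplicit false
set_option maxHeartbeats 4000000

open scoped ComplexOrder Matrix Topology
open ComplexConjugate Filter

namespace Pool.Agent.MP_b3a7e3_al

universe u

variable {A B T : Type u} [CStarAlgebra A] [CStarAlgebra B] [CStarAlgebra T]

theorem IsProduct.apply_left {l : A →⋆ₐ[ℂ] T} {r : B →⋆ₐ[ℂ] T} {φ : A →L[ℂ] ℂ} {ψ : B →L[ℂ] ℂ}
    {ω : T →L[ℂ] ℂ} (h : IsProduct l r φ ψ ω) (a : A) : ω (l a) = φ a := by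
  have := h.mul a 1
  rwa [map_one, mul_one, h.right.map_one, mul_one] at this

theorem IsProduct.apply_right {l : A →⋆ₐ[ℂ] T} {r : B →⋆ₐ[ℂ] T} {φ : A →L[ℂ] ℂ} {ψ : B →L[ℂ] ℂ}
    {ω : T →L[ℂ] ℂ} (h : IsProduct l r φ ψ ω) (b : B) : ω (r b) = ψ b := by
  have := h.mul 1 b
  rwa [map_one, one_mul, h.left.map_one, one_mul] at this

namespace MinTensor

variable (P : MinTensor A B T)

/-- the flipped tensor product -/
def swap : MinTensor B A T where
  l := P.r
  r := P.l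
  commute b a := (P.commute a b).symm
  dense := by
    have : {t : T | ∃ (b : B) (a : A), t = P.r b * P.l a} = {t : T | ∃ a b, t = P.l a * P.r b} := by
      ext t
      constructor
      · rintro ⟨b, a, rfl⟩; exact ⟨a, b, (P.commute a b).symm⟩
      · rintro ⟨a, b, rfl⟩; exact ⟨b, a, P.commute a b⟩
    rw [this]
    exact P.dense
  product ψ φ hψ hφ := by
    obtain ⟨ω, hω⟩ := P.product φ ψ hφ hψ
    exact ⟨ω, hψ, hφ, hω.state, fun b a => by rw [← P.commute, hω.mul, mul_comm]⟩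
  separate t h := by
    refine P.separate t fun φ ψ ω hω => ?_
    exact h ψ φ ω ⟨hω.right, hω.left, hω.state, fun b a => by rw [← P.commute, hω.mul, mul_comm]⟩

theorem swap_isProduct {φ : A →L[ℂ] ℂ} {ψ : B →L[ℂ] ℂ} {ω : T →L[ℂ] ℂ}
    (h : IsProduct P.l P.r φ ψ ω) : IsProduct P.swap.l P.swap.r ψ φ ω :=
  ⟨h.right, h.left, h.state, fun b a => by
    change ω (P.r b * P.l a) = _
    rw [← P.commute, h.mul, mul_comm]⟩

theorem ext_clm {E : Type*} [NormedAddCommGroup E] [NormedSpace ℂ E] {f g : T →L[ℂ] E}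
    (h : ∀ a b, f (P.l a * P.r b) = g (P.l a * P.r b)) : f = g := by
  refine ContinuousLinearMap.ext_on P.dense ?_
  rintro t ⟨a, b, rfl⟩
  exact h a b

theorem product_unique {φ : A →L[ℂ] ℂ} {ψ : B →L[ℂ] ℂ} {ω ω' : T →L[ℂ] ℂ}
    (h : IsProduct P.l P.r φ ψ ω) (h' : ∀ a b, ω' (P.l a * P.r b) = φ a * ψ b) : ω = ω' :=
  P.ext_clm fun a b => by rw [h.mul, h']

theorem eq_of_product {s t : T} (h : ∀ φ ψ ω, IsProduct P.l P.r φ ψ ω → ω s = ω t) : s = t := by
  rw [← sub_eq_zero]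
  refine P.separate _ fun φ ψ ω hω => ?_
  rw [map_sub, h φ ψ ω hω, sub_self]

theorem l_injective [Nontrivial A] [Nontrivial B] : Function.Injective P.l := by
  refine (injective_iff_map_eq_zero P.l).mpr fun a ha => eq_zero_of_states fun φ hφ => ?_
  obtain ⟨ψ, hψ, -⟩ := exists_state (1 : B)
  obtain ⟨ω, hω⟩ := P.product φ ψ hφ hψ
  rw [← hω.apply_left, ha, map_zero]

theorem r_injective [Nontrivial A] [Nontrivial B] : Function.Injective P.r :=
  P.swap.l_injective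

theorem exists_slice_apply [Nontrivial A] {ψ : B →L[ℂ] ℂ} (hψ : IsState ψ) (t : T) :
    ∃ b : A, ∀ φ ω, IsProduct P.l P.r φ ψ ω → ω t = φ b := by
  let D : Set T := {t | ∃ b : A, ∀ φ ω, IsProduct P.l P.r φ ψ ω → ω t = φ b}
  have hspan : (Submodule.span ℂ {t : T | ∃ a b, t = P.l a * P.r b} : Set T) ⊆ D := by
    intro x hx
    refine Submodule.span_induction ?_ ?_ ?_ ?_ hx
    · rintro x ⟨a, b, rfl⟩
      refine ⟨ψ b • a, fun φ ω h => ?_⟩
      rw [h.mul, map_smul, smul_eq_mul, mul_comm]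
    · exact ⟨0, fun φ ω h => by simp⟩
    · rintro x y - - ⟨b, hb⟩ ⟨c, hc⟩
      exact ⟨b + c, fun φ ω h => by rw [map_add, map_add, hb φ ω h, hc φ ω h]⟩
    · rintro c x - ⟨b, hb⟩
      exact ⟨c • b, fun φ ω h => by rw [map_smul, map_smul, hb φ ω h]⟩
  have ht : t ∈ closure D := closure_mono hspan (P.dense t)
  obtain ⟨x, hxD, hx⟩ := mem_closure_iff_seq_limit.mp ht
  choose b hb using hxD
  have hcauchy : CauchySeq b := by
    have hxc := hx.cauchySeq
    rw [Metric.cauchySeq_iff] at hxc ⊢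
    intro ε hε
    obtain ⟨N, hN⟩ := hxc (ε / 2) (by positivity)
    refine ⟨N, fun m hm n hn => ?_⟩
    have h1 := hN m hm n hn
    rw [dist_eq_norm] at h1 ⊢
    obtain ⟨φ, hφ, hle⟩ := exists_state (b m - b n)
    obtain ⟨ω, hω⟩ := P.product φ ψ hφ hψ
    have h2 : φ (b m - b n) = ω (x m - x n) := by
      rw [map_sub, map_sub, hb m φ ω hω, hb n φ ω hω]
    have h3 := hω.state.norm_le (x m - x n)
    rw [← h2] at h3
    linarith
  obtain ⟨b', hb'⟩ := cauchySeq_tendsto_of_complete hcauchy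
  refine ⟨b', fun φ ω h => ?_⟩
  have h1 : Tendsto (fun n => ω (x n)) atTop (𝓝 (ω t)) := (ω.continuous.tendsto t).comp hx
  have h2 : Tendsto (fun n => φ (b n)) atTop (𝓝 (φ b')) := (φ.continuous.tendsto b').comp hb'
  have h3 : (fun n => ω (x n)) = fun n => φ (b n) := funext fun n => hb n φ ω h
  rw [h3] at h1
  exact tendsto_nhds_unique h1 h2

/-- slice maps by states -/
theorem exists_slice [Nontrivial A] {ψ : B →L[ℂ] ℂ} (hψ : IsState ψ) :
    ∃ S : T →L[ℂ] A, (∀ φ ω, IsProduct P.l P.r φ ψ ω → ∀ t, ω t = φ (S t)) ∧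
      ∀ a b, S (P.l a * P.r b) = ψ b • a := by
  choose S hS using P.exists_slice_apply hψ
  have huniq : ∀ x y : A, (∀ φ : A →L[ℂ] ℂ, IsState φ → φ x = φ y) → x = y := by
    intro x y h
    rw [← sub_eq_zero]
    exact eq_zero_of_states fun φ hφ => by rw [map_sub, h φ hφ, sub_self]
  have hprod : ∀ φ : A →L[ℂ] ℂ, IsState φ → ∃ ω, IsProduct P.l P.r φ ψ ω :=
    fun φ hφ => P.product φ ψ hφ hψ
  let S₀ : T →ₗ[ℂ] A :=
    { toFun := S
      map_add' := fun x y => huniq _ _ fun φ hφ => by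
        obtain ⟨ω, hω⟩ := hprod φ hφ
        rw [← hS _ φ ω hω, map_add, map_add, hS _ φ ω hω, hS _ φ ω hω]
      map_smul' := fun c x => huniq _ _ fun φ hφ => by
        obtain ⟨ω, hω⟩ := hprod φ hφ
        rw [← hS _ φ ω hω, map_smul, hS _ φ ω hω]
        simp }
  have hb : ∀ x, ‖S₀ x‖ ≤ 2 * ‖x‖ := by
    intro x
    obtain ⟨φ, hφ, hle⟩ := exists_state (S₀ x)
    obtain ⟨ω, hω⟩ := hprod φ hφ
    refine hle.trans ?_
    have : φ (S₀ x) = ω x := (hS _ φ ω hω).symm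
    rw [this]
    have := hω.state.norm_le x
    linarith
  refine ⟨S₀.mkContinuous 2 hb, fun φ ω h t => hS _ φ ω h, fun a b => huniq _ _ fun φ hφ => ?_⟩
  obtain ⟨ω, hω⟩ := hprod φ hφ
  change φ (S _) = _
  rw [← hS _ φ ω hω, hω.mul, map_smul, smul_eq_mul, mul_comm]

end MinTensor

end Pool.Agent.MP_b3a7e3_al
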