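import Mathlib
import Pool.Agent.Lib.MP_b3a7e3_al.Tensor

set_option autoImplicit false
set_option maxHeartbeats 4000000

open scoped ComplexOrder Matrix Topology
open ComplexConjugate Filter

namespace Pool.Agent.MP_b3a7e3_al

universe u

variable {A B C T H HH HHH AH AHH : Type u} [CStarAlgebra A] [CStarAlgebra B] [CStarAlgebra C]
  [CStarAlgebra T] [CStarAlgebra H]
  [CStarAlgebra HH] [CStarAlgebra HHH] [CStarAlgebra AH] [CStarAlgebra AHH]

/-- the state space -/
structure StateSp (B : Type u) [CStarAlgebra B] : Type u where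
  toCLM : B →L[ℂ] ℂ
  isState : IsState toCLM

namespace StateSp

noncomputable instance : FunLike (StateSp B) B ℂ where
  coe f := f.toCLM
  coe_injective := by
    rintro ⟨f, hf⟩ ⟨g, hg⟩ h
    have : f = g := DFunLike.coe_injective h
    subst this
    rfl

instance : ContinuousLinearMapClass (StateSp B) ℂ B ℂ where
  map_add f x y := map_add f.toCLM x y
  map_smulₛₗ f c x := map_smulₛₗ f.toCLM c x
  map_continuous f := f.toCLM.continuous

@[ext]
theorem ext {f g : StateSp B} (h : ∀ b, f b = g b) : f = g := DFunLike.ext _ _ h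

theorem toCLM_apply (f : StateSp B) (b : B) : f.toCLM b = f b := rfl

theorem map_one (f : StateSp B) : f 1 = 1 := f.isState.map_one

theorem map_star (f : StateSp B) (x : B) : f (star x) = conj (f x) := f.isState.map_star x

theorem norm_le (f : StateSp B) (x : B) : ‖f x‖ ≤ ‖x‖ := f.isState.norm_le x

/-- composition with a unital *-homomorphism -/
noncomputable def comp (f : StateSp B) (π : C →⋆ₐ[ℂ] B) : StateSp C :=
  ⟨(f.isState.comp π).choose, (f.isState.comp π).choose_spec.1⟩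

theorem comp_apply (f : StateSp B) (π : C →⋆ₐ[ℂ] B) (c : C) : f.comp π c = f (π c) :=
  (f.isState.comp π).choose_spec.2 c

end StateSp

namespace MinTensor

variable (P : MinTensor A B T)

/-- product state -/
noncomputable def prod (φ : StateSp A) (ψ : StateSp B) : StateSp T :=
  ⟨(P.product φ.toCLM ψ.toCLM φ.isState ψ.isState).choose,
    (P.product φ.toCLM ψ.toCLM φ.isState ψ.isState).choose_spec.state⟩

theorem prod_isProduct (φ : StateSp A) (ψ : StateSp B) :
    IsProduct P.l P.r φ.toCLM ψ.toCLM (P.prod φ ψ).toCLM :=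
  (P.product φ.toCLM ψ.toCLM φ.isState ψ.isState).choose_spec

theorem prod_apply (φ : StateSp A) (ψ : StateSp B) (a : A) (b : B) :
    P.prod φ ψ (P.l a * P.r b) = φ a * ψ b := (P.prod_isProduct φ ψ).mul a b

theorem prod_l (φ : StateSp A) (ψ : StateSp B) (a : A) : P.prod φ ψ (P.l a) = φ a :=
  (P.prod_isProduct φ ψ).apply_left a

theorem prod_r (φ : StateSp A) (ψ : StateSp B) (b : B) : P.prod φ ψ (P.r b) = ψ b :=
  (P.prod_isProduct φ ψ).apply_right b

theorem eq_prod {φ : StateSp A} {ψ : StateSp B} {ω : StateSp T}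
    (h : ∀ a b, ω (P.l a * P.r b) = φ a * ψ b) : ω = P.prod φ ψ := by
  have := P.product_unique (P.prod_isProduct φ ψ) (ω' := ω.toCLM) h
  ext t
  exact congrArg (fun f : T →L[ℂ] ℂ => f t) this.symm

theorem eq_of_prod {s t : T} (h : ∀ φ ψ, P.prod φ ψ s = P.prod φ ψ t) : s = t := by
  refine P.eq_of_product fun φ ψ ω hω => ?_
  have e : (⟨ω, hω.state⟩ : StateSp T) = P.prod ⟨φ, hω.left⟩ ⟨ψ, hω.right⟩ :=
    P.eq_prod fun a b => hω.mul a b
  have h2 := h ⟨φ, hω.left⟩ ⟨ψ, hω.right⟩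
  rw [← e] at h2
  exact h2

/-- right slice -/
theorem exists_slice' [Nontrivial A] (ψ : StateSp B) :
    ∃ S : T →L[ℂ] A, (∀ (φ : StateSp A) t, P.prod φ ψ t = φ (S t)) ∧
      ∀ a b, S (P.l a * P.r b) = ψ b • a := by
  obtain ⟨S, h1, h2⟩ := P.exists_slice ψ.isState
  exact ⟨S, fun φ t => h1 φ.toCLM _ (P.prod_isProduct φ ψ) t, h2⟩

/-- left slice -/
theorem exists_slice_left [Nontrivial B] (φ : StateSp A) :
    ∃ S : T →L[ℂ] B, (∀ (ψ : StateSp B) t, P.prod φ ψ t = ψ (S t)) ∧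
      ∀ a b, S (P.l a * P.r b) = φ a • b := by
  obtain ⟨S, h1, h2⟩ := P.swap.exists_slice φ.isState
  refine ⟨S, fun ψ t => h1 ψ.toCLM _ (P.swap_isProduct (P.prod_isProduct φ ψ)) t, fun a b => ?_⟩
  rw [P.commute]
  exact h2 b a

end MinTensor

/-- multiplicative states -/
def StateSp.IsMul (f : StateSp B) : Prop := ∀ x y, f (x * y) = f x * f y

theorem StateSp.IsMul.re_le {f : StateSp B} (h : f.IsMul) (x : B) :
    (f (star x * x)).re ≤ ‖f x‖ ^ 2 := by
  rw [h, f.map_star, mul_comm, Complex.mul_conj, Complex.normSq_eq_norm_sq, Complex.ofReal_re]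

theorem StateSp.mul_right_of (f : StateSp B) {x : B} (hx : (f (star x * x)).re ≤ ‖f x‖ ^ 2)
    (y : B) : f (y * x) = f y * f x := f.isState.mul_right_of hx y

theorem StateSp.mul_left_of (f : StateSp B) {x : B} (hx : (f (x * star x)).re ≤ ‖f x‖ ^ 2)
    (y : B) : f (x * y) = f x * f y := f.isState.mul_left_of hx y

theorem MinTensor.prod_mul_l (P : MinTensor A B T) {φ : StateSp A} (hφ : φ.IsMul)
    (ψ : StateSp B) (t : T) (a : A) : P.prod φ ψ (t * P.l a) = P.prod φ ψ t * φ a := by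
  have h := (P.prod φ ψ).mul_right_of (x := P.l a) (by
    rw [← StarHomClass.map_star P.l, ← map_mul, P.prod_l, P.prod_l]
    exact hφ.re_le a) t
  rw [h, P.prod_l]

theorem MinTensor.prod_mul_r (P : MinTensor A B T) (φ : StateSp A) {ψ : StateSp B}
    (hψ : ψ.IsMul) (t : T) (b : B) : P.prod φ ψ (t * P.r b) = P.prod φ ψ t * ψ b := by
  have h := (P.prod φ ψ).mul_right_of (x := P.r b) (by
    rw [← StarHomClass.map_star P.r, ← map_mul, P.prod_r, P.prod_r]
    exact hψ.re_le b) t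
  rw [h, P.prod_r]

theorem MinTensor.prod_isMul (P : MinTensor A B T) {φ : StateSp A} (hφ : φ.IsMul)
    {ψ : StateSp B} (hψ : ψ.IsMul) : (P.prod φ ψ).IsMul := by
  intro s t
  have : ((P.prod φ ψ).toCLM.comp ((ContinuousLinearMap.mul ℂ T) s)) =
      (P.prod φ ψ s) • (P.prod φ ψ).toCLM := by
    refine P.ext_clm fun a b => ?_
    change P.prod φ ψ (s * (P.l a * P.r b)) = P.prod φ ψ s * P.prod φ ψ (P.l a * P.r b)
    rw [← mul_assoc, P.prod_mul_r φ hψ, P.prod_mul_l hφ, P.prod_apply, mul_assoc]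
  exact congrArg (fun f : T →L[ℂ] ℂ => f t) this

/-- product states composed with `id ⊗ Δ` -/
theorem prod_comp_G {P : MinTensor A H AH} {P₂ : MinTensor H H HH} {Q : MinTensor AH H AHH}
    {Δ : H →⋆ₐ[ℂ] HH} {G : AH →⋆ₐ[ℂ] AHH} (hG : IsIdTensorMap P P₂ Q Δ G)
    (φ : StateSp A) (ψ χ : StateSp H) :
    (Q.prod (P.prod φ ψ) χ).comp G = P.prod φ ((P₂.prod ψ χ).comp Δ) := by
  obtain ⟨κ, hκl, hκr, hGl, hGr⟩ := hG
  refine P.eq_prod fun a h => ?_
  rw [StateSp.comp_apply, StateSp.comp_apply, map_mul, hGl, hGr]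
  have key : ((Q.prod (P.prod φ ψ) χ).toCLM.comp ((ContinuousLinearMap.mul ℂ AHH) (Q.l (P.l a)))).comp
      (κ.toAlgHom.toLinearMap.mkContinuous 1 (fun x => by
        rw [one_mul]; exact NonUnitalStarAlgHom.norm_apply_le κ x)) =
      (φ a) • (P₂.prod ψ χ).toCLM := by
    refine P₂.ext_clm fun h₁ h₂ => ?_
    change Q.prod (P.prod φ ψ) χ (Q.l (P.l a) * κ (P₂.l h₁ * P₂.r h₂)) =
      φ a * P₂.prod ψ χ (P₂.l h₁ * P₂.r h₂)
    rw [map_mul κ, hκl, hκr, ← mul_assoc, ← map_mul Q.l, Q.prod_apply, P.prod_apply,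
      P₂.prod_apply, mul_assoc]
  exact congrArg (fun f : HH →L[ℂ] ℂ => f (Δ h)) key

theorem prod_comp_F {P : MinTensor A H AH} {Q : MinTensor AH H AHH}
    {δ : A →⋆ₐ[ℂ] AH} {F : AH →⋆ₐ[ℂ] AHH} (hF : IsMapTensorId P Q δ F)
    (φ : StateSp A) (ψ χ : StateSp H) :
    (Q.prod (P.prod φ ψ) χ).comp F = P.prod ((P.prod φ ψ).comp δ) χ := by
  refine P.eq_prod fun a h => ?_
  rw [StateSp.comp_apply, StateSp.comp_apply, map_mul, hF.1, hF.2, Q.prod_apply]

theorem coaction_assoc {P : MinTensor A H AH} {P₂ : MinTensor H H HH} {Q : MinTensor AH H AHH}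
    {Δ : H →⋆ₐ[ℂ] HH} {δ : A →⋆ₐ[ℂ] AH} (h : CoactionIdentity P P₂ Q Δ δ)
    (φ : StateSp A) (ψ χ : StateSp H) :
    (P.prod ((P.prod φ ψ).comp δ) χ).comp δ = (P.prod φ ((P₂.prod ψ χ).comp Δ)).comp δ := by
  obtain ⟨F, G, hF, hG, hFG⟩ := h
  apply StateSp.ext
  intro a
  rw [← prod_comp_F hF, ← prod_comp_G hG, StateSp.comp_apply, StateSp.comp_apply,
    StateSp.comp_apply, StateSp.comp_apply, hFG]

namespace CompactQuantumGroup

variable (𝔾 : CompactQuantumGroup H HH HHH)

/-- convolution of states -/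
noncomputable def conv (φ ψ : StateSp H) : StateSp H := (𝔾.t₂.prod φ ψ).comp 𝔾.Δ

theorem conv_apply (φ ψ : StateSp H) (h : H) : 𝔾.conv φ ψ h = 𝔾.t₂.prod φ ψ (𝔾.Δ h) :=
  StateSp.comp_apply _ _ _

theorem conv_assoc (φ ψ χ : StateSp H) :
    𝔾.conv (𝔾.conv φ ψ) χ = 𝔾.conv φ (𝔾.conv ψ χ) := coaction_assoc 𝔾.coassoc φ ψ χ

theorem conv_isMul {φ ψ : StateSp H} (hφ : φ.IsMul) (hψ : ψ.IsMul) : (𝔾.conv φ ψ).IsMul := by
  intro x y
  rw [𝔾.conv_apply, 𝔾.conv_apply, 𝔾.conv_apply, map_mul]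
  exact 𝔾.t₂.prod_isMul hφ hψ _ _

end CompactQuantumGroup

/-- a character as a state -/
noncomputable def charState (χ : WeakDual.characterSpace ℂ H) : StateSp H :=
  ⟨(isState_of_char (χ : H →⋆ₐ[ℂ] ℂ)).choose, (isState_of_char (χ : H →⋆ₐ[ℂ] ℂ)).choose_spec.1⟩

theorem charState_apply (χ : WeakDual.characterSpace ℂ H) (h : H) : charState χ h = χ h :=
  (isState_of_char (χ : H →⋆ₐ[ℂ] ℂ)).choose_spec.2 h

theorem charState_isMul (χ : WeakDual.characterSpace ℂ H) : (charState χ).IsMul := by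
  intro x y
  rw [charState_apply, charState_apply, charState_apply, map_mul]

/-- a multiplicative state as a character -/
noncomputable def ofMul (f : StateSp H) (hf : f.IsMul) : WeakDual.characterSpace ℂ H :=
  ⟨StrongDual.toWeakDual f.toCLM, by
    constructor
    · intro h
      have h1 : f 1 = 1 := f.map_one
      have h2 : f 1 = 0 := congrArg (fun g : WeakDual ℂ H => g 1) h
      rw [h1] at h2
      exact one_ne_zero h2
    · exact fun x y => hf x y⟩

theorem ofMul_apply (f : StateSp H) (hf : f.IsMul) (h : H) : ofMul f hf h = f h := rfl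

theorem charState_ofMul (f : StateSp H) (hf : f.IsMul) : charState (ofMul f hf) = f :=
  StateSp.ext fun h => by rw [charState_apply, ofMul_apply]

theorem exists_idempotent (𝔾 : CompactQuantumGroup H HH HHH) [Nontrivial H]
    (hne : Nonempty (WeakDual.characterSpace ℂ H)) :
    ∃ e : StateSp H, e.IsMul ∧ 𝔾.conv e e = e := by
  let mul : WeakDual.characterSpace ℂ H → WeakDual.characterSpace ℂ H →
      WeakDual.characterSpace ℂ H := fun χ η =>
    ofMul (𝔾.conv (charState χ) (charState η))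
      (𝔾.conv_isMul (charState_isMul χ) (charState_isMul η))
  have hmul : ∀ χ η, charState (mul χ η) = 𝔾.conv (charState χ) (charState η) :=
    fun χ η => charState_ofMul _ _
  have hinj : ∀ χ η : WeakDual.characterSpace ℂ H, charState χ = charState η → χ = η := by
    intro χ η h
    apply WeakDual.CharacterSpace.ext
    intro x
    rw [← charState_apply, h, charState_apply]
  let _ : Semigroup (WeakDual.characterSpace ℂ H) :=
    { mul := mul
      mul_assoc := fun a b c => hinj _ _ (by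
        change charState (mul (mul a b) c) = charState (mul a (mul b c))
        rw [hmul, hmul, hmul, hmul, 𝔾.conv_assoc]) }
  have hcont : ∀ r : WeakDual.characterSpace ℂ H, Continuous (· * r) := by
    intro r
    obtain ⟨S, hS, -⟩ := 𝔾.t₂.exists_slice' (charState r)
    refine Continuous.subtype_mk (WeakDual.continuous_of_continuous_eval fun x => ?_) _
    have : (fun χ : WeakDual.characterSpace ℂ H =>
        (StrongDual.toWeakDual (𝔾.conv (charState χ) (charState r)).toCLM : WeakDual ℂ H) x) =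
        fun χ => χ.1 (S (𝔾.Δ x)) := by
      funext χ
      change 𝔾.conv (charState χ) (charState r) x = χ (S (𝔾.Δ x))
      rw [𝔾.conv_apply, hS, charState_apply]
    rw [this]
    exact (WeakDual.eval_continuous _).comp continuous_subtype_val
  obtain ⟨e, he⟩ := exists_idempotent_of_compact_t2_of_continuous_mul_left hcont
  refine ⟨charState e, charState_isMul e, ?_⟩
  rw [← hmul]
  exact congrArg charState he

theorem left_counit (𝔾 : CompactQuantumGroup H HH HHH) [Nontrivial H] {e : StateSp H}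
    (heM : e.IsMul) (hee : 𝔾.conv e e = e) (ψ : StateSp H) : 𝔾.conv e ψ = ψ := by
  revert ψ
  obtain ⟨S, hS, hSb⟩ := 𝔾.t₂.exists_slice_left e
  have hsep : ∀ x y : H, (∀ ψ : StateSp H, ψ x = ψ y) → x = y := by
    intro x y h
    rw [← sub_eq_zero]
    refine eq_zero_of_states fun f hf => ?_
    have := h ⟨f, hf⟩
    rw [map_sub, sub_eq_zero]
    exact this
  let L : H →L[ℂ] H := S.comp (𝔾.Δ.toAlgHom.toLinearMap.mkContinuous 1 (fun x => by
        rw [one_mul]; exact NonUnitalStarAlgHom.norm_apply_le 𝔾.Δ x))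
  have hL : ∀ h, L h = S (𝔾.Δ h) := fun h => rfl
  have hLψ : ∀ (ψ : StateSp H) h, ψ (L h) = 𝔾.conv e ψ h := fun ψ h => by
    rw [hL, ← hS, 𝔾.conv_apply]
  have hLL : ∀ h, L (L h) = L h := fun h => hsep _ _ fun ψ => by
    rw [hLψ ψ (L h), hLψ (𝔾.conv e ψ) h, ← 𝔾.conv_assoc, hee, hLψ]
  have hSl : ∀ a b, S (𝔾.Δ a * 𝔾.t₂.l b) = e b • L a := fun a b => hsep _ _ fun ψ => by
    have e1 : ψ (e b • L a) = e b * ψ (L a) := by
      rw [map_smul, smul_eq_mul]
    rw [← hS, 𝔾.t₂.prod_mul_l heM, e1, hL, ← hS, mul_comm]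
  have hdense : Dense (LinearMap.range (L : H →ₗ[ℂ] H) : Set H) := by
    have h1 : Dense (S '' (Submodule.span ℂ {t : HH | ∃ a b, t = 𝔾.Δ a * 𝔾.t₂.l b} : Set HH)) := by
      have hsurj : Function.Surjective S := fun b => ⟨𝔾.t₂.l 1 * 𝔾.t₂.r b, by
        have h1 : e (1 : H) = 1 := e.map_one
        rw [hSb, h1, one_smul]⟩
      exact hsurj.denseRange.dense_image S.continuous 𝔾.dense_l
    refine h1.mono ?_
    rintro _ ⟨x, hx, rfl⟩
    refine Submodule.span_induction ?_ ?_ ?_ ?_ hx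
    · rintro x ⟨a, b, rfl⟩
      rw [hSl]
      exact Submodule.smul_mem _ _ ⟨a, rfl⟩
    · rw [map_zero]; exact Submodule.zero_mem _
    · intro x y _ _ h1 h2
      rw [map_add]; exact Submodule.add_mem _ h1 h2
    · intro c x _ h1
      rw [map_smul]; exact Submodule.smul_mem _ _ h1
  have hid : ∀ h, L h = h := by
    have hcl : IsClosed {h : H | L h = h} := isClosed_eq L.continuous continuous_id
    intro h
    have : h ∈ closure (LinearMap.range (L : H →ₗ[ℂ] H) : Set H) := hdense h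
    refine (hcl.closure_subset_iff.mpr ?_) this
    rintro _ ⟨x, rfl⟩
    exact hLL x
  intro ψ
  apply StateSp.ext
  intro h
  rw [← hLψ, hid]

theorem right_counit (𝔾 : CompactQuantumGroup H HH HHH) [Nontrivial H] {e : StateSp H}
    (heM : e.IsMul) (hee : 𝔾.conv e e = e) (ψ : StateSp H) : 𝔾.conv ψ e = ψ := by
  revert ψ
  obtain ⟨S, hS, hSb⟩ := 𝔾.t₂.exists_slice' e
  have hsep : ∀ x y : H, (∀ ψ : StateSp H, ψ x = ψ y) → x = y := by
    intro x y h
    rw [← sub_eq_zero]
    refine eq_zero_of_states fun f hf => ?_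
    have := h ⟨f, hf⟩
    rw [map_sub, sub_eq_zero]
    exact this
  let L : H →L[ℂ] H := S.comp (𝔾.Δ.toAlgHom.toLinearMap.mkContinuous 1 (fun x => by
        rw [one_mul]; exact NonUnitalStarAlgHom.norm_apply_le 𝔾.Δ x))
  have hL : ∀ h, L h = S (𝔾.Δ h) := fun h => rfl
  have hLψ : ∀ (ψ : StateSp H) h, ψ (L h) = 𝔾.conv ψ e h := fun ψ h => by
    rw [hL, ← hS, 𝔾.conv_apply]
  have hLL : ∀ h, L (L h) = L h := fun h => hsep _ _ fun ψ => by
    rw [hLψ ψ (L h), hLψ (𝔾.conv ψ e) h, 𝔾.conv_assoc, hee, hLψ]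
  have hSl : ∀ a b, S (𝔾.Δ a * 𝔾.t₂.r b) = e b • L a := fun a b => hsep _ _ fun ψ => by
    have e1 : ψ (e b • L a) = e b * ψ (L a) := by
      rw [map_smul, smul_eq_mul]
    rw [← hS, 𝔾.t₂.prod_mul_r ψ heM, e1, hL, ← hS, mul_comm]
  have hdense : Dense (LinearMap.range (L : H →ₗ[ℂ] H) : Set H) := by
    have h1 : Dense (S '' (Submodule.span ℂ {t : HH | ∃ a b, t = 𝔾.Δ a * 𝔾.t₂.r b} : Set HH)) := by
      have hsurj : Function.Surjective S := fun b => ⟨𝔾.t₂.l b * 𝔾.t₂.r 1, by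
        have h1 : e (1 : H) = 1 := e.map_one
        rw [hSb, h1, one_smul]⟩
      exact hsurj.denseRange.dense_image S.continuous 𝔾.dense_r
    refine h1.mono ?_
    rintro _ ⟨x, hx, rfl⟩
    refine Submodule.span_induction ?_ ?_ ?_ ?_ hx
    · rintro x ⟨a, b, rfl⟩
      rw [hSl]
      exact Submodule.smul_mem _ _ ⟨a, rfl⟩
    · rw [map_zero]; exact Submodule.zero_mem _
    · intro x y _ _ h1 h2
      rw [map_add]; exact Submodule.add_mem _ h1 h2
    · intro c x _ h1
      rw [map_smul]; exact Submodule.smul_mem _ _ h1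
  have hid : ∀ h, L h = h := by
    have hcl : IsClosed {h : H | L h = h} := isClosed_eq L.continuous continuous_id
    intro h
    have : h ∈ closure (LinearMap.range (L : H →ₗ[ℂ] H) : Set H) := hdense h
    refine (hcl.closure_subset_iff.mpr ?_) this
    rintro _ ⟨x, rfl⟩
    exact hLL x
  intro ψ
  apply StateSp.ext
  intro h
  rw [← hLψ, hid]

theorem exists_counit (𝔾 : CompactQuantumGroup H HH HHH) [Nontrivial H]
    (hne : Nonempty (WeakDual.characterSpace ℂ H)) :
    ∃ e : StateSp H, e.IsMul ∧ ∀ ψ, 𝔾.conv e ψ = ψ := by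
  obtain ⟨e, heM, hee⟩ := exists_idempotent 𝔾 hne
  exact ⟨e, heM, left_counit 𝔾 heM hee⟩

end Pool.Agent.MP_b3a7e3_al
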