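import Mathlib

set_option autoImplicit false
set_option maxHeartbeats 4000000

open scoped Matrix Topology
open Filter

namespace Pool.Agent.MP_b3a7e3_al

/-! ### closed subgroups of Euclidean space -/

theorem tendsto_floor_mul (s : ℝ) {r : ℕ → ℝ} (hr : ∀ k, 0 < r k) (hr0 : Tendsto r atTop (𝓝 0)) :
    Tendsto (fun k => (⌊s / r k⌋ : ℝ) * r k) atTop (𝓝 s) := by
  have h1 : ∀ k, |(⌊s / r k⌋ : ℝ) * r k - s| ≤ r k := by
    intro k
    have e : (⌊s / r k⌋ : ℝ) * r k - s = -(Int.fract (s / r k) * r k) := by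
      rw [Int.fract]
      have := (hr k).ne'
      field_simp
      ring
    rw [e, abs_neg, abs_mul, abs_of_pos (hr k), abs_of_nonneg (Int.fract_nonneg _)]
    have := Int.fract_lt_one (s / r k)
    nlinarith [hr k]
  rw [tendsto_iff_dist_tendsto_zero]
  refine squeeze_zero (fun k => dist_nonneg) (fun k => ?_) hr0
  rw [Real.dist_eq]
  exact h1 k

theorem exists_ball_subset {E : Type*} [NormedAddCommGroup E] [InnerProductSpace ℝ E]
    [FiniteDimensional ℝ E] (Γ : AddSubgroup E) (hΓ : IsClosed (Γ : Set E)) (V : Submodule ℝ E)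
    (hV : ∀ v, v ∈ V ↔ ∀ s : ℝ, s • v ∈ Γ) : ∃ ε > 0, ∀ w ∈ Γ, ‖w‖ < ε → w ∈ V := by
  by_contra hcon
  push Not at hcon
  have hpos : ∀ k : ℕ, (0 : ℝ) < 1 / (k + 1) := fun k => by positivity
  choose w hwΓ hwn hwV using fun k : ℕ => hcon _ (hpos k)
  set w' : ℕ → E := fun k => w k - V.starProjection (w k) with hw'
  have hVΓ : ∀ v ∈ V, v ∈ Γ := fun v hv => by simpa using (hV v).mp hv 1
  have h1 : ∀ k, w' k ∈ Γ := fun k => Γ.sub_mem (hwΓ k) (hVΓ _ (V.starProjection_apply_mem _))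
  have h2 : ∀ k, w' k ∈ Vᗮ := fun k => V.sub_starProjection_mem_orthogonal _
  have h3 : ∀ k, w' k ≠ 0 := fun k h => hwV k (by
    rw [hw'] at h
    simp only at h
    rw [sub_eq_zero] at h
    rw [h]; exact V.starProjection_apply_mem _)
  have h4 : ∀ k, 0 < ‖w' k‖ := fun k => norm_pos_iff.mpr (h3 k)
  have h5 : Tendsto (fun k => ‖w' k‖) atTop (𝓝 0) := by
    have hb : ∀ k, ‖w' k‖ ≤ 2 * (1 / ((k : ℝ) + 1)) := fun k => by
      have a1 : ‖w' k‖ ≤ ‖w k‖ + ‖V.starProjection (w k)‖ := norm_sub_le _ _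
      have a2 := V.norm_starProjection_apply_le (w k)
      have a3 := hwn k
      linarith
    refine squeeze_zero (fun k => norm_nonneg _) hb ?_
    have := (tendsto_one_div_add_atTop_nhds_zero_nat (𝕜 := ℝ)).const_mul 2
    simpa using this
  set z : ℕ → E := fun k => ‖w' k‖⁻¹ • w' k with hz
  have hz1 : ∀ k, z k ∈ Metric.sphere (0 : E) 1 := fun k => by
    simp only [hz, mem_sphere_zero_iff_norm, norm_smul, norm_inv, norm_norm]
    exact inv_mul_cancel₀ (h4 k).ne'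
  obtain ⟨z₀, hz₀, φ, hφ, hlim⟩ := (isCompact_sphere (0 : E) 1).tendsto_subseq hz1
  have hz₀V : z₀ ∈ Vᗮ := by
    have hcl : IsClosed (Vᗮ : Set E) := Submodule.isClosed_orthogonal V
    refine hcl.mem_of_tendsto hlim (Eventually.of_forall fun k => ?_)
    exact Submodule.smul_mem _ _ (h2 _)
  have hz₀V' : z₀ ∈ V := by
    rw [hV]
    intro s
    have hr := tendsto_floor_mul s (r := fun k => ‖w' (φ k)‖) (fun k => h4 _)
      (h5.comp hφ.tendsto_atTop)
    have hprod := hr.smul hlim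
    refine hΓ.mem_of_tendsto hprod (Eventually.of_forall fun k => ?_)
    have e : ((⌊s / ‖w' (φ k)‖⌋ : ℝ) * ‖w' (φ k)‖) • (z ∘ φ) k = ⌊s / ‖w' (φ k)‖⌋ • w' (φ k) := by
      simp only [hz, Function.comp_apply]
      rw [smul_smul, mul_assoc, mul_inv_cancel₀ (h4 _).ne', mul_one]
      exact Int.cast_smul_eq_zsmul ℝ _ _
    rw [SetLike.mem_coe, e]
    exact Γ.zsmul_mem (h1 _) _
  have : z₀ = 0 := by
    have h6 := (Submodule.mem_orthogonal V z₀).mp hz₀V z₀ hz₀V'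
    exact inner_self_eq_zero.mp h6
  rw [this] at hz₀
  simp at hz₀

/-- the vector of `EuclideanSpace` with given coordinates -/
noncomputable abbrev vec {n : ℕ} (f : Fin n → ℝ) : EuclideanSpace ℝ (Fin n) := WithLp.toLp 2 f

theorem exists_int_vector {n : ℕ} (Γ : AddSubgroup (EuclideanSpace ℝ (Fin n)))
    (hΓ : IsClosed (Γ : Set (EuclideanSpace ℝ (Fin n))))
    (hZ : ∀ p : Fin n → ℤ, vec (fun j => 2 * Real.pi * (p j : ℝ)) ∈ Γ)
    (V : Submodule ℝ (EuclideanSpace ℝ (Fin n))) (hV : ∀ v, v ∈ V ↔ ∀ s : ℝ, s • v ∈ Γ)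
    {v : EuclideanSpace ℝ (Fin n)} (hv : v ∈ V) (hv0 : v ≠ 0) :
    ∃ p : Fin n → ℤ, p ≠ 0 ∧ vec (fun j => (p j : ℝ)) ∈ V := by
  obtain ⟨ε, hε, hball⟩ := exists_ball_subset Γ hΓ V hV
  -- rescale
  obtain ⟨v, hv, hvε⟩ : ∃ v ∈ V, ε ≤ ‖v‖ := by
    refine ⟨(ε / ‖v‖) • v, V.smul_mem _ hv, ?_⟩
    rw [norm_smul, norm_div, norm_norm, Real.norm_of_nonneg hε.le,
      div_mul_cancel₀ _ (norm_ne_zero_iff.mpr hv0)]
  have hπ : (0 : ℝ) < 2 * Real.pi := by positivity
  let q : ℕ → Fin n → ℤ := fun k j => ⌊(k * v j) / (2 * Real.pi)⌋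
  let f : ℕ → Fin n → ℝ := fun k j => k * v j - 2 * Real.pi * (q k j : ℝ)
  have hf : ∀ k, f k ∈ Set.pi Set.univ (fun _ : Fin n => Set.Icc (0 : ℝ) (2 * Real.pi)) := by
    intro k j _
    have e : f k j = 2 * Real.pi * Int.fract ((k * v j) / (2 * Real.pi)) := by
      simp only [f, q, Int.fract]
      field_simp
    rw [e]
    exact ⟨mul_nonneg hπ.le (Int.fract_nonneg _), by
      have := (Int.fract_lt_one ((k * v j) / (2 * Real.pi))).le
      nlinarith⟩
  have hcomp : IsCompact (Set.pi Set.univ (fun _ : Fin n => Set.Icc (0 : ℝ) (2 * Real.pi))) :=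
    isCompact_univ_pi fun _ => isCompact_Icc
  obtain ⟨f₀, -, φ, hφ, hlim⟩ := hcomp.tendsto_subseq hf
  have hlim2 : Tendsto (fun k => vec (f (φ k))) atTop (𝓝 (vec f₀)) :=
    ((PiLp.continuous_toLp 2 _).tendsto f₀).comp hlim
  have hc := hlim2.cauchySeq
  rw [Metric.cauchySeq_iff] at hc
  obtain ⟨N, hN⟩ := hc ε hε
  have h1 := hN (N + 1) (by omega) N le_rfl
  rw [dist_eq_norm] at h1
  set a := φ (N + 1) with ha
  set b := φ N with hb
  have hab : b < a := hφ (Nat.lt_succ_self N)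
  set p : Fin n → ℤ := fun j => q a j - q b j with hp
  have hw : vec (f a) - vec (f b) = ((a : ℝ) - b) • v - vec (fun j => 2 * Real.pi * (p j : ℝ)) := by
    ext j
    simp only [f, hp, PiLp.sub_apply, PiLp.smul_apply, smul_eq_mul]
    push_cast
    ring
  rw [hw] at h1
  have hvab : ((a : ℝ) - b) • v ∈ V := V.smul_mem _ hv
  have hVΓ : ∀ v ∈ V, v ∈ Γ := fun v hv => by simpa using (hV v).mp hv 1
  have h2 := hball _ (Γ.sub_mem (hVΓ _ hvab) (hZ p)) h1
  have h3 : vec (fun j => 2 * Real.pi * (p j : ℝ)) ∈ V := by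
    have := V.sub_mem hvab h2
    simpa using this
  refine ⟨p, ?_, ?_⟩
  · intro h0
    rw [h0] at h1
    have e0 : vec (fun j : Fin n => 2 * Real.pi * (((0 : Fin n → ℤ) j : ℤ) : ℝ)) = 0 := by
      ext j; simp
    rw [e0, sub_zero, norm_smul, Real.norm_eq_abs] at h1
    have hab' : (1 : ℝ) ≤ (a : ℝ) - b := by
      have : (b : ℝ) + 1 ≤ a := by exact_mod_cast hab
      linarith
    have h5 : (1 : ℝ) ≤ |(a : ℝ) - b| := hab'.trans (le_abs_self _)
    nlinarith [norm_nonneg v]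
  · have := V.smul_mem (2 * Real.pi)⁻¹ h3
    have e : (2 * Real.pi)⁻¹ • vec (fun j => 2 * Real.pi * (p j : ℝ)) = vec (fun j => (p j : ℝ)) := by
      ext j
      simp only [PiLp.smul_apply, smul_eq_mul]
      rw [← mul_assoc, inv_mul_cancel₀ hπ.ne', one_mul]
    rwa [e] at this

theorem exists_primitive_vector {n : ℕ} (V : Submodule ℝ (EuclideanSpace ℝ (Fin n)))
    {p : Fin n → ℤ} (hp : p ≠ 0) (hpV : vec (fun j => (p j : ℝ)) ∈ V) :
    ∃ p : Fin n → ℤ, Finset.univ.gcd p = 1 ∧ vec (fun j => (p j : ℝ)) ∈ V := by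
  have hne : (Finset.univ : Finset (Fin n)).Nonempty := by
    rcases Function.ne_iff.mp hp with ⟨j, -⟩
    exact ⟨j, Finset.mem_univ j⟩
  obtain ⟨g, hg, hg1⟩ := Finset.extract_gcd p hne
  set d := Finset.univ.gcd p with hd
  have hd0 : d ≠ 0 := by
    intro h
    apply hp
    funext j
    rw [hg j (Finset.mem_univ j), h, zero_mul]
    rfl
  refine ⟨g, hg1, ?_⟩
  have := V.smul_mem ((d : ℝ)⁻¹) hpV
  have e : ((d : ℝ)⁻¹) • vec (fun j => (p j : ℝ)) = vec (fun j => (g j : ℝ)) := by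
    ext j
    simp only [PiLp.smul_apply, smul_eq_mul]
    rw [hg j (Finset.mem_univ j)]
    push_cast
    rw [← mul_assoc, inv_mul_cancel₀ (by exact_mod_cast hd0), one_mul]
  rwa [e] at this

end Pool.Agent.MP_b3a7e3_al
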