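import Mathlib
import Pool.Agent.Lib.MP_b3a7e3_al.Lie

set_option autoImplicit false
set_option maxHeartbeats 4000000

open scoped Matrix Topology
open Filter

namespace Pool.Agent.MP_b3a7e3_al

section pow

variable {R : Type*} [NormedRing R]

theorem norm_pow_sub_pow_le {a b : R} {C : ℝ} {m : ℕ} (ha : ∀ j ≤ m, ‖a ^ j‖ ≤ C)
    (hb : ‖b‖ ≤ 1) : ∀ k ≤ m, ‖a ^ k - b ^ k‖ ≤ k * (C * ‖a - b‖) := by
  intro k
  induction k with
  | zero => intro _; simp
  | succ k ih =>
    intro hk
    have h1 := ih (by omega)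
    have e : a ^ (k + 1) - b ^ (k + 1) = a ^ k * (a - b) + (a ^ k - b ^ k) * b := by
      rw [pow_succ, pow_succ]; noncomm_ring
    rw [e]
    have h2 : ‖a ^ k * (a - b)‖ ≤ C * ‖a - b‖ :=
      (norm_mul_le _ _).trans (mul_le_mul_of_nonneg_right (ha k (by omega)) (norm_nonneg _))
    have h3 : ‖(a ^ k - b ^ k) * b‖ ≤ ‖a ^ k - b ^ k‖ := by
      refine (norm_mul_le _ _).trans ?_
      exact mul_le_of_le_one_right (norm_nonneg _) hb
    refine (norm_add_le _ _).trans ?_
    push_cast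
    linarith

theorem tendsto_pow_sub_pow (h1 : ‖(1 : R)‖ ≤ 1) {a b : ℕ → R} {m : ℕ → ℕ}
    (hb : ∀ k, ‖b k‖ ≤ 1) (h : Tendsto (fun k => (m k : ℝ) * ‖a k - b k‖) atTop (𝓝 0)) :
    Tendsto (fun k => a k ^ m k - b k ^ m k) atTop (𝓝 0) := by
  have key : ∀ k, ‖a k ^ m k - b k ^ m k‖ ≤
      Real.exp ((m k : ℝ) * ‖a k - b k‖) * ((m k : ℝ) * ‖a k - b k‖) := by
    intro k
    set δ := ‖a k - b k‖ with hδ
    have hδ0 : 0 ≤ δ := norm_nonneg _
    have ha : ‖a k‖ ≤ 1 + δ := by
      have : a k = b k + (a k - b k) := by abel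
      calc ‖a k‖ = ‖b k + (a k - b k)‖ := by rw [← this]
        _ ≤ ‖b k‖ + ‖a k - b k‖ := norm_add_le _ _
        _ ≤ 1 + δ := by gcongr; exact hb k
    have hpow : ∀ j ≤ m k, ‖a k ^ j‖ ≤ Real.exp ((m k : ℝ) * δ) := by
      intro j hj
      have e1 : ‖a k ^ j‖ ≤ (1 + δ) ^ j := by
        rcases Nat.eq_zero_or_pos j with h0 | hj0
        · rw [h0, pow_zero, pow_zero]; exact h1
        · exact (norm_pow_le' _ hj0).trans (pow_le_pow_left₀ (norm_nonneg _) ha j)
      have e2 : (1 + δ) ^ j ≤ (Real.exp δ) ^ j := by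
        apply pow_le_pow_left₀ (by positivity)
        rw [add_comm]; exact Real.add_one_le_exp δ
      have e3 : (Real.exp δ) ^ j ≤ Real.exp ((m k : ℝ) * δ) := by
        rw [← Real.exp_nat_mul]
        apply Real.exp_le_exp.mpr
        have : (j : ℝ) ≤ m k := by exact_mod_cast hj
        exact mul_le_mul_of_nonneg_right this hδ0
      exact e1.trans (e2.trans e3)
    have := norm_pow_sub_pow_le hpow (hb k) (m k) le_rfl
    calc _ ≤ _ := this
      _ = _ := by ring
  rw [tendsto_zero_iff_norm_tendsto_zero]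
  refine squeeze_zero (fun k => norm_nonneg _) key ?_
  have h2 : Tendsto (fun k => Real.exp ((m k : ℝ) * ‖a k - b k‖)) atTop (𝓝 (Real.exp 0)) :=
    (Real.continuous_exp.tendsto 0).comp h
  simpa using h2.mul h

end pow

open scoped Matrix.Norms.L2Operator

variable {n : ℕ}

theorem norm_le_one_of_unitary {X : Matrix (Fin n) (Fin n) ℂ} (hX : Xᴴ * X = 1) : ‖X‖ ≤ 1 := by
  have h := Matrix.l2_opNorm_conjTranspose_mul_self X
  rw [hX] at h
  have h1 : ‖(1 : Matrix (Fin n) (Fin n) ℂ)‖ ≤ 1 := by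
    rcases subsingleton_or_nontrivial (Matrix (Fin n) (Fin n) ℂ) with h | h
    · rw [Subsingleton.elim (1 : Matrix (Fin n) (Fin n) ℂ) 0]; simp
    · rw [CStarRing.norm_one]
  rw [h] at h1
  nlinarith [norm_nonneg X]

/-- inverses in compact semigroups of matrices -/
theorem inv_mem {S : Set (Matrix (Fin n) (Fin n) ℂ)} (hS : IsCompact S)
    (hmul : ∀ M ∈ S, ∀ N ∈ S, M * N ∈ S) (h1 : (1 : Matrix (Fin n) (Fin n) ℂ) ∈ S)
    {X : Matrix (Fin n) (Fin n) ℂ} (hX : X ∈ S) (hXu : Xᴴ * X = 1) : Xᴴ ∈ S := by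
  have hpow : ∀ k, X ^ k ∈ S := by
    intro k
    induction k with
    | zero => rw [pow_zero]; exact h1
    | succ k ih => rw [pow_succ]; exact hmul _ ih _ hX
  have hu : ∀ k, (X ^ k)ᴴ * X ^ k = 1 := by
    intro k
    induction k with
    | zero => simp
    | succ k ih =>
      rw [pow_succ, Matrix.conjTranspose_mul]
      calc Xᴴ * (X ^ k)ᴴ * (X ^ k * X) = Xᴴ * ((X ^ k)ᴴ * X ^ k) * X := by noncomm_ring
        _ = 1 := by rw [ih, mul_one, hXu]
  obtain ⟨Y, -, φ, hφ, hlim⟩ := hS.tendsto_subseq hpow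
  have hYu : Yᴴ * Y = 1 := by
    have h2 : Tendsto (fun k => (X ^ φ k)ᴴ * X ^ φ k) atTop (𝓝 (Yᴴ * Y)) :=
      ((continuous_id.matrix_conjTranspose.tendsto Y).comp hlim).mul hlim
    have h3 : (fun k => (X ^ φ k)ᴴ * X ^ φ k) = fun _ => 1 := funext fun k => hu _
    rw [h3] at h2
    exact (tendsto_nhds_unique tendsto_const_nhds h2).symm
  have hlim1 : Tendsto (fun k => X ^ φ (k + 1)) atTop (𝓝 Y) :=
    hlim.comp (tendsto_add_atTop_nat 1)
  have hA : Tendsto (fun k => (X ^ φ k * X)ᴴ * X ^ φ (k + 1)) atTop (𝓝 ((Y * X)ᴴ * Y)) := by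
    have h2 : Tendsto (fun k => X ^ φ k * X) atTop (𝓝 (Y * X)) := hlim.mul tendsto_const_nhds
    exact ((continuous_id.matrix_conjTranspose.tendsto _).comp h2).mul hlim1
  have hB : (Y * X)ᴴ * Y = Xᴴ := by
    rw [Matrix.conjTranspose_mul, mul_assoc, hYu, mul_one]
  rw [hB] at hA
  refine hS.isClosed.mem_of_tendsto hA (Eventually.of_forall fun k => ?_)
  have hlt : φ k + 1 ≤ φ (k + 1) := hφ (Nat.lt_succ_self k)
  have e : (X ^ φ k * X)ᴴ * X ^ φ (k + 1) = X ^ (φ (k + 1) - (φ k + 1)) := by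
    have h2 : X ^ φ (k + 1) = X ^ (φ k + 1) * X ^ (φ (k + 1) - (φ k + 1)) := by
      rw [← pow_add, Nat.add_sub_cancel' hlt]
    rw [← pow_succ, h2, ← mul_assoc, hu, one_mul]
  rw [e]
  exact hpow _

/-- `U diag(exp(i f)) U*` -/
noncomputable def circ (U : Matrix (Fin n) (Fin n) ℂ) (f : Fin n → ℝ) :
    Matrix (Fin n) (Fin n) ℂ :=
  U * Matrix.diagonal (fun j => Complex.exp (f j * Complex.I)) * Uᴴ

theorem circ_mul {U : Matrix (Fin n) (Fin n) ℂ} (hU : Uᴴ * U = 1) (f g : Fin n → ℝ) :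
    circ U f * circ U g = circ U (f + g) := by
  unfold circ
  calc _ = U * Matrix.diagonal (fun j => Complex.exp (f j * Complex.I)) * (Uᴴ * U) *
        Matrix.diagonal (fun j => Complex.exp (g j * Complex.I)) * Uᴴ := by noncomm_ring
    _ = U * (Matrix.diagonal (fun j => Complex.exp (f j * Complex.I)) *
        Matrix.diagonal (fun j => Complex.exp (g j * Complex.I))) * Uᴴ := by
      rw [hU, mul_one]; noncomm_ring
    _ = _ := by
      rw [Matrix.diagonal_mul_diagonal]
      congr 3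
      ext j
      rw [← Complex.exp_add]
      congr 1
      simp
      ring

theorem circ_zero {U : Matrix (Fin n) (Fin n) ℂ} (hU' : U * Uᴴ = 1) :
    circ U 0 = 1 := by
  unfold circ
  simp [hU']

theorem circ_conj {U : Matrix (Fin n) (Fin n) ℂ} (f : Fin n → ℝ) :
    (circ U f)ᴴ = circ U (-f) := by
  unfold circ
  rw [Matrix.conjTranspose_mul, Matrix.conjTranspose_mul, Matrix.conjTranspose_conjTranspose,
    Matrix.diagonal_conjTranspose, mul_assoc]
  congr 3
  funext j
  simp only [Pi.star_apply, Pi.neg_apply, Complex.star_def, ← Complex.exp_conj]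
  congr 1
  simp

theorem circ_star_mul {U : Matrix (Fin n) (Fin n) ℂ} (hU : Uᴴ * U = 1) (hU' : U * Uᴴ = 1)
    (f : Fin n → ℝ) : (circ U f)ᴴ * circ U f = 1 := by
  rw [circ_conj, circ_mul hU, neg_add_cancel, circ_zero hU']

theorem circ_mul_star {U : Matrix (Fin n) (Fin n) ℂ} (hU : Uᴴ * U = 1) (hU' : U * Uᴴ = 1)
    (f : Fin n → ℝ) : circ U f * (circ U f)ᴴ = 1 := by
  rw [circ_conj, circ_mul hU, add_neg_cancel, circ_zero hU']

theorem circ_pow {U : Matrix (Fin n) (Fin n) ℂ} (hU : Uᴴ * U = 1) (hU' : U * Uᴴ = 1)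
    (f : Fin n → ℝ) (k : ℕ) : circ U f ^ k = circ U (k • f) := by
  induction k with
  | zero => simp [circ_zero hU']
  | succ k ih => rw [pow_succ, ih, circ_mul hU, succ_nsmul]

theorem circ_eq_one_iff {U : Matrix (Fin n) (Fin n) ℂ} (hU : Uᴴ * U = 1) (hU' : U * Uᴴ = 1)
    (f : Fin n → ℝ) : circ U f = 1 ↔ ∀ j, Complex.exp (f j * Complex.I) = 1 := by
  constructor
  · intro h j
    have h1 : Uᴴ * circ U f * U = 1 := by rw [h, mul_one, hU]
    have h2 : Uᴴ * circ U f * U = Matrix.diagonal (fun j => Complex.exp (f j * Complex.I)) := by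
      unfold circ
      calc _ = (Uᴴ * U) * Matrix.diagonal (fun j => Complex.exp (f j * Complex.I)) *
            (Uᴴ * U) := by noncomm_ring
        _ = _ := by rw [hU, one_mul, mul_one]
    rw [h2] at h1
    have := congrFun (congrFun h1 j) j
    simpa using this
  · intro h
    unfold circ
    have : (fun j => Complex.exp (f j * Complex.I)) = fun _ => (1 : ℂ) := funext h
    rw [this]
    rw [Matrix.diagonal_one, mul_one, hU']

theorem continuous_circ (U : Matrix (Fin n) (Fin n) ℂ) : Continuous (circ U) := by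
  unfold circ
  refine Continuous.mul (Continuous.mul continuous_const ?_) continuous_const
  refine Continuous.matrix_diagonal ?_
  fun_prop

/-- limits of powers of elements close to the identity -/
theorem one_param_mem {S : Set (Matrix (Fin n) (Fin n) ℂ)} (hS : IsClosed S)
    (hmul : ∀ M ∈ S, ∀ N ∈ S, M * N ∈ S) (h1 : (1 : Matrix (Fin n) (Fin n) ℂ) ∈ S)
    {M : ℕ → Matrix (Fin n) (Fin n) ℂ} (hM : ∀ k, M k ∈ S) {η : ℕ → ℝ} (hη : ∀ k, 0 < η k)
    (hη0 : Tendsto η atTop (𝓝 0)) {U : Matrix (Fin n) (Fin n) ℂ} (hU : Uᴴ * U = 1)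
    (hU' : U * Uᴴ = 1) {lam : Fin n → ℝ}
    (hD : Tendsto (fun k => ((η k)⁻¹ : ℂ) • (M k - 1)) atTop
      (𝓝 (U * Matrix.diagonal (fun j => (lam j : ℂ) * Complex.I) * Uᴴ)))
    {s : ℝ} (hs : 0 ≤ s) : circ U (s • lam) ∈ S := by
  set m : ℕ → ℕ := fun k => ⌊s / η k⌋₊ with hm
  have hfl : ∀ k, (m k : ℝ) = ((⌊s / η k⌋ : ℤ) : ℝ) := fun k => by
    rw [hm]
    simp only
    rw [natCast_floor_eq_intCast_floor (by have := hη k; positivity)]
  have hmη : Tendsto (fun k => (m k : ℝ) * η k) atTop (𝓝 s) := by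
    have := tendsto_floor_mul s hη hη0
    refine this.congr fun k => ?_
    rw [hfl]
  set b : ℕ → Matrix (Fin n) (Fin n) ℂ := fun k => circ U (η k • lam) with hb
  have hbn : ∀ k, ‖b k‖ ≤ 1 := fun k => norm_le_one_of_unitary (circ_star_mul hU hU' _)
  have hbD : Tendsto (fun k => ((η k)⁻¹ : ℂ) • (b k - 1)) atTop
      (𝓝 (U * Matrix.diagonal (fun j => (lam j : ℂ) * Complex.I) * Uᴴ)) := by
    have e : ∀ k, ((η k)⁻¹ : ℂ) • (b k - 1) = U * Matrix.diagonal (fun j =>
        ((η k)⁻¹ : ℂ) * (Complex.exp ((η k * lam j : ℝ) * Complex.I) - 1)) * Uᴴ := by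
      intro k
      have e1 : b k - 1 = U * Matrix.diagonal (fun j =>
          (Complex.exp ((η k * lam j : ℝ) * Complex.I) - 1)) * Uᴴ := by
        have : (Matrix.diagonal (fun j => (Complex.exp ((η k * lam j : ℝ) * Complex.I) - 1)) :
            Matrix (Fin n) (Fin n) ℂ) =
            Matrix.diagonal (fun j => Complex.exp ((η k * lam j : ℝ) * Complex.I)) - 1 := by
          rw [← Matrix.diagonal_one, Matrix.diagonal_sub]
        rw [this, mul_sub, sub_mul, mul_one, hU']
        rfl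
      rw [e1]
      have e2 : (Matrix.diagonal (fun j =>
        ((η k)⁻¹ : ℂ) * (Complex.exp ((η k * lam j : ℝ) * Complex.I) - 1)) :
            Matrix (Fin n) (Fin n) ℂ) = ((η k)⁻¹ : ℂ) • Matrix.diagonal (fun j =>
          (Complex.exp ((η k * lam j : ℝ) * Complex.I) - 1)) := by
        ext i j
        simp [Matrix.diagonal_apply]
      rw [e2, Matrix.mul_smul, Matrix.smul_mul]
    simp only [e]
    have hdiag : Tendsto (fun k => (Matrix.diagonal (fun j =>
        ((η k)⁻¹ : ℂ) * (Complex.exp ((η k * lam j : ℝ) * Complex.I) - 1)) :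
            Matrix (Fin n) (Fin n) ℂ)) atTop
        (𝓝 (Matrix.diagonal (fun j => (lam j : ℂ) * Complex.I))) := by
      have hcont : Continuous (fun v : Fin n → ℂ => (Matrix.diagonal v : Matrix (Fin n) (Fin n) ℂ)) :=
        Continuous.matrix_diagonal continuous_id
      refine (hcont.tendsto _).comp ?_
      rw [tendsto_pi_nhds]
      intro j
      have hder : HasDerivAt (fun x : ℝ => Complex.exp ((x * lam j : ℝ) * Complex.I))
          ((lam j : ℂ) * Complex.I) 0 := by
        have h1 : HasDerivAt (fun x : ℝ => ((x * lam j : ℝ) : ℂ) * Complex.I)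
            ((lam j : ℂ) * Complex.I) 0 := by
          have h2 : HasDerivAt (fun x : ℝ => ((x * lam j : ℝ) : ℂ)) ((lam j : ℂ)) 0 := by
            have h3 : HasDerivAt (fun x : ℝ => x * lam j) (lam j) 0 := by
              simpa using (hasDerivAt_id (0 : ℝ)).mul_const (lam j)
            exact h3.ofReal_comp
          exact h2.mul_const Complex.I
        have h4 := h1.cexp
        simpa using h4
      have h5 := hder.tendsto_slope_zero
      have h6 : Tendsto η atTop (𝓝[≠] 0) := by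
        rw [tendsto_nhdsWithin_iff]
        exact ⟨hη0, Eventually.of_forall fun k => (hη k).ne'⟩
      have h7 := h5.comp h6
      refine h7.congr fun k => ?_
      simp only [Function.comp_apply, zero_add, zero_mul, Complex.ofReal_zero, Complex.exp_zero]
      rw [Complex.real_smul]
      push_cast
      rfl
    exact (tendsto_const_nhds.mul hdiag).mul tendsto_const_nhds
  have hdiff : Tendsto (fun k => (m k : ℝ) * ‖M k - b k‖) atTop (𝓝 0) := by
    have h3 := hD.sub hbD
    rw [sub_self] at h3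
    have h4 : Tendsto (fun k => ((m k : ℝ) * η k) *
        ‖((η k)⁻¹ : ℂ) • (M k - 1) - ((η k)⁻¹ : ℂ) • (b k - 1)‖) atTop (𝓝 (s * 0)) := by
      refine hmη.mul ?_
      have := h3.norm
      simpa using this
    rw [mul_zero] at h4
    refine h4.congr fun k => ?_
    rw [← smul_sub, sub_sub_sub_cancel_right, norm_smul]
    have : ‖((η k)⁻¹ : ℂ)‖ = (η k)⁻¹ := by
      rw [norm_inv, Complex.norm_real, Real.norm_of_nonneg (hη k).le]
    rw [this]
    have := (hη k).ne'
    field_simp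
  have hone : ‖(1 : Matrix (Fin n) (Fin n) ℂ)‖ ≤ 1 := norm_le_one_of_unitary (by simp)
  have h5 := tendsto_pow_sub_pow hone hbn hdiff
  have h6 : Tendsto (fun k => b k ^ m k) atTop (𝓝 (circ U (s • lam))) := by
    have e : ∀ k, b k ^ m k = circ U (((m k : ℝ) * η k) • lam) := fun k => by
      rw [hb]
      simp only
      rw [circ_pow hU hU']
      congr 1
      ext j
      simp
      ring
    simp only [e]
    exact ((continuous_circ U).tendsto _).comp (hmη.smul tendsto_const_nhds)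
  have h7 : Tendsto (fun k => M k ^ m k) atTop (𝓝 (circ U (s • lam))) := by
    have := h5.add h6
    simpa using this
  have hpow : ∀ X ∈ S, ∀ k : ℕ, X ^ k ∈ S := by
    intro X hX k
    induction k with
    | zero => rw [pow_zero]; exact h1
    | succ k ih => rw [pow_succ]; exact hmul _ ih _ hX
  exact hS.mem_of_tendsto h7 (Eventually.of_forall fun k => hpow _ (hM k) _)

end Pool.Agent.MP_b3a7e3_al
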