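import Mathlib
import Pool.Agent.Lib.MP_b3a7e3_al.MatLie

set_option autoImplicit false
set_option maxHeartbeats 4000000

open scoped Matrix Topology
open Filter

namespace Pool.Agent.MP_b3a7e3_al

variable {n : ℕ}

/-- elements of all finite orders from a one-parameter group -/
theorem exists_order_of_circ {S : Set (Matrix (Fin n) (Fin n) ℂ)} (hS : IsCompact S)
    (hmul : ∀ M ∈ S, ∀ N ∈ S, M * N ∈ S) (h1 : (1 : Matrix (Fin n) (Fin n) ℂ) ∈ S)
    {U : Matrix (Fin n) (Fin n) ℂ} (hU : Uᴴ * U = 1) (hU' : U * Uᴴ = 1) {lam : Fin n → ℝ}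
    (hlam : lam ≠ 0) (hmem : ∀ s : ℝ, 0 ≤ s → circ U (s • lam) ∈ S) {m : ℕ} (hm : 0 < m) :
    ∃ X ∈ S, Xᴴ * X = 1 ∧ X * Xᴴ = 1 ∧ orderOf X = m := by
  have hneg : ∀ f, circ U f ∈ S → circ U (-f) ∈ S := fun f hf => by
    rw [← circ_conj]
    exact inv_mem hS hmul h1 hf (circ_star_mul hU hU' f)
  let Γ : AddSubgroup (EuclideanSpace ℝ (Fin n)) :=
    { carrier := {v | circ U v.ofLp ∈ S}
      add_mem' := fun {v w} hv hw => by
        change circ U (v + w).ofLp ∈ S
        rw [WithLp.ofLp_add, ← circ_mul hU]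
        exact hmul _ hv _ hw
      zero_mem' := by
        change circ U (0 : EuclideanSpace ℝ (Fin n)).ofLp ∈ S
        rw [WithLp.ofLp_zero, circ_zero hU']
        exact h1
      neg_mem' := fun {v} hv => by
        change circ U (-v).ofLp ∈ S
        rw [WithLp.ofLp_neg]
        exact hneg _ hv }
  have hΓ : IsClosed (Γ : Set (EuclideanSpace ℝ (Fin n))) := by
    have : (Γ : Set (EuclideanSpace ℝ (Fin n))) = (fun v => circ U v.ofLp) ⁻¹' S := rfl
    rw [this]
    exact hS.isClosed.preimage ((continuous_circ U).comp (PiLp.continuous_ofLp 2 _))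
  have hZ : ∀ p : Fin n → ℤ, vec (fun j => 2 * Real.pi * (p j : ℝ)) ∈ Γ := by
    intro p
    change circ U (fun j => 2 * Real.pi * (p j : ℝ)) ∈ S
    have : circ U (fun j => 2 * Real.pi * (p j : ℝ)) = 1 := by
      rw [circ_eq_one_iff hU hU']
      intro j
      rw [Complex.exp_eq_one_iff]
      exact ⟨p j, by push_cast; ring⟩
    rw [this]; exact h1
  let V : Submodule ℝ (EuclideanSpace ℝ (Fin n)) :=
    { carrier := {v | ∀ s : ℝ, s • v ∈ Γ}
      add_mem' := fun {v w} hv hw s => by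
        rw [smul_add]; exact Γ.add_mem (hv s) (hw s)
      zero_mem' := fun s => by rw [smul_zero]; exact Γ.zero_mem
      smul_mem' := fun c v hv s => by rw [smul_smul]; exact hv _ }
  have hV : ∀ v, v ∈ V ↔ ∀ s : ℝ, s • v ∈ Γ := fun v => Iff.rfl
  have hvV : vec lam ∈ V := by
    intro s
    rcases le_total 0 s with hs | hs
    · exact hmem s hs
    · have := hneg _ (hmem (-s) (by linarith))
      change circ U (s • lam) ∈ S
      rw [neg_smul, neg_neg] at this
      exact this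
  have hv0 : vec lam ≠ 0 := fun h => hlam (by
    have := congrArg (fun v : EuclideanSpace ℝ (Fin n) => v.ofLp) h
    exact this)
  obtain ⟨p₀, hp₀, hp₀V⟩ := exists_int_vector Γ hΓ hZ V hV hvV hv0
  obtain ⟨p, hp, hpV⟩ := exists_primitive_vector V hp₀ hp₀V
  have hm' : (m : ℝ) ≠ 0 := by exact_mod_cast hm.ne'
  have hm'' : (m : ℂ) ≠ 0 := by exact_mod_cast hm.ne'
  set f : Fin n → ℝ := fun j => (2 * Real.pi / m) * (p j : ℝ) with hf
  have hfS : circ U f ∈ S := hpV (2 * Real.pi / m)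
  have hpi : (2 * Real.pi * Complex.I : ℂ) ≠ 0 := by
    simp [Real.pi_ne_zero]
  refine ⟨circ U f, hfS, circ_star_mul hU hU' f, circ_mul_star hU hU' f, ?_⟩
  rw [orderOf_eq_iff hm]
  constructor
  · rw [circ_pow hU hU', circ_eq_one_iff hU hU']
    intro j
    rw [Complex.exp_eq_one_iff]
    refine ⟨p j, ?_⟩
    simp only [hf, Pi.smul_apply, nsmul_eq_mul]
    push_cast
    field_simp
  · intro k hkm hk0 hX
    rw [circ_pow hU hU', circ_eq_one_iff hU hU'] at hX
    have hdvd : ∀ j, (m : ℤ) ∣ (k : ℤ) * p j := by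
      intro j
      obtain ⟨q, hq⟩ := Complex.exp_eq_one_iff.mp (hX j)
      refine ⟨q, ?_⟩
      simp only [hf, Pi.smul_apply, nsmul_eq_mul] at hq
      push_cast at hq
      have h3 : ((k : ℂ) * (p j : ℂ)) * (2 * Real.pi * Complex.I) =
          ((m : ℂ) * (q : ℂ)) * (2 * Real.pi * Complex.I) := by
        calc _ = (m : ℂ) * ((k : ℂ) * (2 * Real.pi / m * p j) * Complex.I) := by
              field_simp
          _ = _ := by rw [hq]; ring
      have h4 := mul_right_cancel₀ hpi h3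
      exact_mod_cast h4
    have h5 : (m : ℤ) ∣ Finset.univ.gcd (fun j => (k : ℤ) * p j) :=
      Finset.dvd_gcd fun j _ => hdvd j
    rw [Finset.gcd_mul_left, hp, mul_one] at h5
    have h6 : (m : ℤ) ∣ (k : ℤ) := by simpa using h5
    have h7 : m ∣ k := by exact_mod_cast h6
    exact absurd (Nat.le_of_dvd hk0 h7) (by omega)

theorem exists_order_of_tendsto {S : Set (Matrix (Fin n) (Fin n) ℂ)} (hS : IsCompact S)
    (hmul : ∀ M ∈ S, ∀ N ∈ S, M * N ∈ S) (h1 : (1 : Matrix (Fin n) (Fin n) ℂ) ∈ S)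
    {M : ℕ → Matrix (Fin n) (Fin n) ℂ} (hM : ∀ k, M k ∈ S) {η : ℕ → ℝ} (hη : ∀ k, 0 < η k)
    (hη0 : Tendsto η atTop (𝓝 0)) {D : Matrix (Fin n) (Fin n) ℂ}
    (hD : Tendsto (fun k => ((η k)⁻¹ : ℂ) • (M k - 1)) atTop (𝓝 D))
    (hskew : Dᴴ = -D) (hD0 : D ≠ 0) {m : ℕ} (hm : 0 < m) :
    ∃ X ∈ S, Xᴴ * X = 1 ∧ X * Xᴴ = 1 ∧ orderOf X = m := by
  set K : Matrix (Fin n) (Fin n) ℂ := (-Complex.I) • D with hK
  have hKh : K.IsHermitian := by
    rw [Matrix.IsHermitian, hK, Matrix.conjTranspose_smul, hskew]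
    simp
  have hDK : D = Complex.I • K := by
    rw [hK, smul_smul]; simp
  set U : Matrix (Fin n) (Fin n) ℂ := (hKh.eigenvectorUnitary : Matrix (Fin n) (Fin n) ℂ) with hUdef
  have hU : Uᴴ * U = 1 := by
    rw [← Matrix.star_eq_conjTranspose]
    exact Unitary.coe_star_mul_self _
  have hU' : U * Uᴴ = 1 := by
    rw [← Matrix.star_eq_conjTranspose]
    exact Unitary.coe_mul_star_self _
  have hspec : K = U * Matrix.diagonal (fun j => (hKh.eigenvalues j : ℂ)) * Uᴴ := by
    have h := hKh.spectral_theorem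
    rw [Unitary.conjStarAlgAut_apply] at h
    rw [← Matrix.star_eq_conjTranspose]
    exact h
  have hDspec : D = U * Matrix.diagonal (fun j => (hKh.eigenvalues j : ℂ) * Complex.I) * Uᴴ := by
    have e : (Matrix.diagonal (fun j => (hKh.eigenvalues j : ℂ) * Complex.I) :
        Matrix (Fin n) (Fin n) ℂ) =
        Complex.I • Matrix.diagonal (fun j => (hKh.eigenvalues j : ℂ)) := by
      ext i j
      by_cases hij : i = j
      · subst hij; simp [mul_comm]
      · simp [hij]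
    rw [hDK, e, Matrix.mul_smul, Matrix.smul_mul]
    exact congrArg _ hspec
  have hlam : hKh.eigenvalues ≠ 0 := by
    intro h
    apply hD0
    rw [hDspec, h]
    simp
  rw [hDspec] at hD
  exact exists_order_of_circ hS hmul h1 hU hU' hlam
    (fun s hs => one_param_mem hS.isClosed hmul h1 hM hη hη0 hU hU' hD hs) hm

end Pool.Agent.MP_b3a7e3_al
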