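import Mathlib
import Pool.Agent.Lib.MP_b3a7e3_al.Conv
import Pool.Agent.Lib.MP_b3a7e3_al.Order

set_option autoImplicit false
set_option maxHeartbeats 4000000

open scoped ComplexOrder Matrix Topology
open ComplexConjugate Filter

namespace Pool.Agent.MP_b3a7e3_al

universe u

variable {A H HH HHH AH AHH : Type u} [CStarAlgebra A]
  [CStarAlgebra H]
  [CStarAlgebra HH] [CStarAlgebra HHH] [CStarAlgebra AH] [CStarAlgebra AHH] {n : ℕ}

/-- matrix of values of a state -/
noncomputable def val (f : StateSp H) (u : Matrix (Fin n) (Fin n) H) :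
    Matrix (Fin n) (Fin n) ℂ := Matrix.of fun i j => f (u i j)

theorem val_apply (f : StateSp H) (u : Matrix (Fin n) (Fin n) H) (i j : Fin n) :
    val f u i j = f (u i j) := rfl

theorem val_conv (𝔾 : CompactQuantumGroup H HH HHH) {u : Matrix (Fin n) (Fin n) H}
    (hu : IsCorep 𝔾 u) (φ ψ : StateSp H) : val (𝔾.conv φ ψ) u = val φ u * val ψ u := by
  ext i j
  rw [val_apply, 𝔾.conv_apply, hu.comul, map_sum, Matrix.mul_apply]
  refine Finset.sum_congr rfl fun k _ => ?_
  rw [𝔾.t₂.prod_apply, val_apply, val_apply]

/-- compactness of the set of values -/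
theorem isCompact_val (u : Matrix (Fin n) (Fin n) H) :
    IsCompact {M : Matrix (Fin n) (Fin n) ℂ | ∃ f : StateSp H, M = val f u} := by
  let K : Set (WeakDual ℂ H) := {f | f 1 = 1 ∧ ∀ b, 0 ≤ f (star b * b)}
  have hKc : IsClosed K := by
    have e : K = {f | f 1 = 1} ∩ ⋂ b : H, {f : WeakDual ℂ H | 0 ≤ f (star b * b)} := by
      ext f; simp [K]
    rw [e]
    refine IsClosed.inter (isClosed_eq (WeakDual.eval_continuous _) continuous_const) ?_
    refine isClosed_iInter fun b => ?_
    have e2 : {f : WeakDual ℂ H | 0 ≤ f (star b * b)} =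
        {f | 0 ≤ (f (star b * b)).re} ∩ {f | 0 = (f (star b * b)).im} := by
      ext f; exact Complex.nonneg_iff
    rw [e2]
    refine IsClosed.inter (isClosed_le continuous_const
      (Complex.continuous_re.comp (WeakDual.eval_continuous _))) (isClosed_eq continuous_const
      (Complex.continuous_im.comp (WeakDual.eval_continuous _)))
  have hKs : K ⊆ WeakDual.toStrongDual ⁻¹' Metric.closedBall (0 : StrongDual ℂ H) 1 := by
    intro f hf
    have hst : IsState (WeakDual.toStrongDual f) := ⟨hf.1, hf.2⟩
    rw [Set.mem_preimage, mem_closedBall_zero_iff]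
    refine ContinuousLinearMap.opNorm_le_bound _ zero_le_one fun x => ?_
    rw [one_mul]
    exact hst.norm_le x
  have hK : IsCompact K :=
    (WeakDual.isCompact_closedBall (𝕜 := ℂ) (0 : StrongDual ℂ H) 1).of_isClosed_subset hKc hKs
  have hcont : Continuous (fun f : WeakDual ℂ H =>
      (Matrix.of fun i j => f (u i j) : Matrix (Fin n) (Fin n) ℂ)) := by
    refine continuous_matrix fun i j => ?_
    exact WeakDual.eval_continuous _
  have himg := hK.image hcont
  convert himg using 1
  ext M
  constructor
  · rintro ⟨f, rfl⟩
    exact ⟨StrongDual.toWeakDual f.toCLM, ⟨f.isState.map_one, f.isState.nonneg⟩, rfl⟩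
  · rintro ⟨f, hf, rfl⟩
    exact ⟨⟨WeakDual.toStrongDual f, ⟨hf.1, hf.2⟩⟩, rfl⟩

theorem cauchy_apply (f : StateSp H) (x : H) : ‖f x‖ ^ 2 ≤ (f (star x * x)).re := by
  have := f.isState.cauchy 1 x
  simp only [star_one, one_mul, f.isState.map_one, Complex.one_re] at this
  exact this

theorem cauchy_apply' (f : StateSp H) (x : H) : ‖f x‖ ^ 2 ≤ (f (x * star x)).re := by
  have := cauchy_apply f (star x)
  rw [f.map_star, star_star, Complex.norm_conj] at this
  exact this

theorem re_le_of_unitary (f : StateSp H) {u : Matrix (Fin n) (Fin n) H} (hu : uᴴ * u = 1)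
    (hX : (val f u)ᴴ * val f u = 1) (i j : Fin n) :
    (f (star (u i j) * u i j)).re ≤ ‖f (u i j)‖ ^ 2 := by
  have h1 : ∑ k, (f (star (u k j) * u k j)).re = 1 := by
    have := congrFun (congrFun hu j) j
    rw [Matrix.mul_apply, Matrix.one_apply_eq] at this
    simp only [Matrix.conjTranspose_apply] at this
    have h2 := congrArg f this
    rw [map_sum, f.map_one] at h2
    have h3 := congrArg Complex.re h2
    rwa [Complex.re_sum, Complex.one_re] at h3
  have h2 : ∑ k, ‖f (u k j)‖ ^ 2 = 1 := by
    have := congrFun (congrFun hX j) j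
    rw [Matrix.mul_apply, Matrix.one_apply_eq] at this
    simp only [Matrix.conjTranspose_apply, val_apply] at this
    have h3 := congrArg Complex.re this
    rw [Complex.re_sum, Complex.one_re] at h3
    rw [← h3]
    refine Finset.sum_congr rfl fun k _ => ?_
    rw [Complex.star_def, mul_comm, Complex.mul_conj, Complex.normSq_eq_norm_sq, Complex.ofReal_re]
  have h3 : ∑ k, ‖f (u k j)‖ ^ 2 = ∑ k, (f (star (u k j) * u k j)).re := by rw [h1, h2]
  have h4 := (Finset.sum_eq_sum_iff_of_le (fun k _ => cauchy_apply f (u k j))).mp h3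
  exact (h4 i (Finset.mem_univ i)).ge

theorem re_le_of_unitary' (f : StateSp H) {u : Matrix (Fin n) (Fin n) H} (hu : u * uᴴ = 1)
    (hX : val f u * (val f u)ᴴ = 1) (i j : Fin n) :
    (f (u i j * star (u i j))).re ≤ ‖f (u i j)‖ ^ 2 := by
  have h1 : ∑ k, (f (u i k * star (u i k))).re = 1 := by
    have := congrFun (congrFun hu i) i
    rw [Matrix.mul_apply, Matrix.one_apply_eq] at this
    simp only [Matrix.conjTranspose_apply] at this
    have h2 := congrArg f this
    rw [map_sum, f.map_one] at h2
    have h3 := congrArg Complex.re h2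
    rwa [Complex.re_sum, Complex.one_re] at h3
  have h2 : ∑ k, ‖f (u i k)‖ ^ 2 = 1 := by
    have := congrFun (congrFun hX i) i
    rw [Matrix.mul_apply, Matrix.one_apply_eq] at this
    simp only [Matrix.conjTranspose_apply, val_apply] at this
    have h3 := congrArg Complex.re this
    rw [Complex.re_sum, Complex.one_re] at h3
    rw [← h3]
    refine Finset.sum_congr rfl fun k _ => ?_
    rw [Complex.star_def, Complex.mul_conj, Complex.normSq_eq_norm_sq, Complex.ofReal_re]
  have h3 : ∑ k, ‖f (u i k)‖ ^ 2 = ∑ k, (f (u i k * star (u i k))).re := by rw [h1, h2]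
  have h4 := (Finset.sum_eq_sum_iff_of_le (fun k _ => cauchy_apply' f (u i k))).mp h3
  exact (h4 j (Finset.mem_univ j)).ge

/-- A state with unitary values restricts to a character of the coefficient algebra. -/
theorem exists_char_of_state (f : StateSp H) {u : Matrix (Fin n) (Fin n) H}
    (hu : uᴴ * u = 1) (hu' : u * uᴴ = 1) (hX : (val f u)ᴴ * val f u = 1)
    (hX' : val f u * (val f u)ᴴ = 1) :
    ∃ χ : coeffAlgebra u →⋆ₐ[ℂ] ℂ, ∀ c, χ c = f (c : H) := by
  let M : StarSubalgebra ℂ H :=
    { carrier := {a | ∀ y, f (a * y) = f a * f y ∧ f (y * a) = f y * f a}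
      mul_mem' := fun {a b} ha hb y => by
        have e : f (a * b) = f a * f b := (ha b).1
        constructor
        · rw [mul_assoc, (ha _).1, (hb _).1, e, mul_assoc]
        · rw [← mul_assoc, (hb _).2, (ha _).2, e, mul_assoc]
      one_mem' := fun y => by simp [f.map_one]
      add_mem' := fun {a b} ha hb y => by
        constructor
        · rw [add_mul, map_add, map_add, (ha y).1, (hb y).1, add_mul]
        · rw [mul_add, map_add, map_add, (ha y).2, (hb y).2, mul_add]
      zero_mem' := fun y => by simp
      algebraMap_mem' := fun r y => by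
        rw [Algebra.algebraMap_eq_smul_one]
        simp [f.map_one, mul_comm]
      star_mem' := fun {a} ha y => by
        have h1 := ha (star y)
        constructor
        · have := congrArg conj h1.2
          rw [← f.map_star, map_mul, ← f.map_star, ← f.map_star] at this
          simp only [star_mul, star_star] at this
          rw [this, mul_comm]
        · have := congrArg conj h1.1
          rw [← f.map_star, map_mul, ← f.map_star, ← f.map_star] at this
          simp only [star_mul, star_star] at this
          rw [this, mul_comm] }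
  have hMc : IsClosed (M : Set H) := by
    have e : (M : Set H) = ⋂ y : H, {a | f (a * y) = f a * f y ∧ f (y * a) = f y * f a} := by
      ext a
      simp only [Set.mem_iInter]
      rfl
    rw [e]
    refine isClosed_iInter fun y => ?_
    have hf : Continuous f := f.toCLM.continuous
    exact (isClosed_eq (hf.comp (continuous_id.mul continuous_const))
      (hf.mul continuous_const)).inter
      (isClosed_eq (hf.comp (continuous_const.mul continuous_id)) (continuous_const.mul hf))
  have hle : coeffAlgebra u ≤ M := by
    unfold coeffAlgebra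
    refine StarSubalgebra.topologicalClosure_minimal ?_ hMc
    rw [StarAlgebra.adjoin_le_iff]
    rintro _ ⟨i, j, rfl⟩
    intro y
    exact ⟨f.mul_left_of (re_le_of_unitary' f hu' hX' i j) y,
      f.mul_right_of (re_le_of_unitary f hu hX i j) y⟩
  refine ⟨{ toFun := fun c => f (c : H), map_one' := f.map_one,
            map_mul' := fun x y => ((hle x.2) (y : H)).1, map_zero' := map_zero f,
            map_add' := fun x y => map_add f _ _,
            commutes' := fun r => by
              change f (algebraMap ℂ H r) = _
              rw [Algebra.algebraMap_eq_smul_one, map_smul, f.map_one]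
              simp
            map_star' := fun x => f.map_star _ }, fun c => rfl⟩

end Pool.Agent.MP_b3a7e3_al
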