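import Mathlib
import Pool.Agent.Lib.MP_b3a7e3_al.Val

set_option autoImplicit false
set_option maxHeartbeats 4000000

open scoped ComplexOrder Matrix Topology
open ComplexConjugate Filter

namespace Pool.Agent.MP_b3a7e3_al

universe u

variable {A H HH HHH AH AHH : Type u} [CStarAlgebra A]
  [CStarAlgebra H]
  [CStarAlgebra HH] [CStarAlgebra HHH] [CStarAlgebra AH] [CStarAlgebra AHH] {n : ℕ}

theorem nontrivial_of_state (f : StateSp H) : Nontrivial H := by
  refine ⟨⟨1, 0, fun h => ?_⟩⟩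
  have h1 := f.map_one
  rw [h, map_zero] at h1
  exact zero_ne_one h1

theorem exists_character {δ : A →⋆ₐ[ℂ] AH} (hδ : Function.Injective δ)
    {θ : H →⋆ₐ[ℂ] AH} (h1 : ∀ h, ∃ a, θ h = δ a)
    (α : A →⋆ₐ[ℂ] ℂ) : Nonempty (WeakDual.characterSpace ℂ H) := by
  choose a ha using h1
  let χ : H →⋆ₐ[ℂ] ℂ :=
    { toFun := fun h => α (a h)
      map_one' := by
        have : a 1 = 1 := hδ (by rw [← ha, map_one, map_one])
        rw [this, map_one]
      map_mul' := fun x y => by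
        have : a (x * y) = a x * a y := hδ (by rw [← ha, map_mul, map_mul, ← ha, ← ha])
        rw [this, map_mul]
      map_zero' := by
        have : a 0 = 0 := hδ (by rw [← ha, map_zero, map_zero])
        rw [this, map_zero]
      map_add' := fun x y => by
        have : a (x + y) = a x + a y := hδ (by rw [← ha, map_add, map_add, ← ha, ← ha])
        rw [this, map_add]
      commutes' := fun r => by
        have : a (algebraMap ℂ H r) = algebraMap ℂ A r :=
          hδ (by rw [← ha, AlgHomClass.commutes, AlgHomClass.commutes])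
        rw [this, AlgHomClass.commutes]
      map_star' := fun x => by
        have : a (star x) = star (a x) := hδ (by rw [← ha, map_star, map_star, ← ha])
        rw [this, map_star] }
  obtain ⟨f, hf, hfχ⟩ := isState_of_char χ
  exact ⟨ofMul ⟨f, hf⟩ fun x y => by
    change f (x * y) = f x * f y
    rw [hfχ, hfχ, hfχ, map_mul]⟩

theorem val_counit (𝔾 : CompactQuantumGroup H HH HHH) {u : Matrix (Fin n) (Fin n) H}
    (hu : IsCorep 𝔾 u) {e : StateSp H} (he : e.IsMul) (hee : 𝔾.conv e e = e) : val e u = 1 := by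
  have h1 : val e u * val e u = val e u := by rw [← val_conv 𝔾 hu, hee]
  have h2 : (val e u)ᴴ * val e u = 1 := by
    ext i j
    have h3 := congrArg e (congrFun (congrFun hu.star_mul i) j)
    rw [Matrix.mul_apply, map_sum] at h3
    rw [Matrix.mul_apply]
    simp only [Matrix.conjTranspose_apply, val_apply] at h3 ⊢
    have h4 : ∀ k, star (e (u k i)) * e (u k j) = e (star (u k i) * u k j) := fun k => by
      rw [he, e.map_star]; rfl
    simp only [h4]
    rw [h3]
    by_cases hij : i = j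
    · subst hij; simp [e.map_one]
    · simp [hij]
  calc val e u = ((val e u)ᴴ * val e u) * val e u := by rw [h2, one_mul]
    _ = (val e u)ᴴ * (val e u * val e u) := by rw [mul_assoc]
    _ = 1 := by rw [h1, h2]

/-- fixed points of `id ⊗ Δ` -/
theorem fixed_point [Nontrivial A] (𝔾 : CompactQuantumGroup H HH HHH) {P : MinTensor A H AH}
    {Q : MinTensor AH H AHH} {G : AH →⋆ₐ[ℂ] AHH} (hG : IsIdTensorMap P 𝔾.t₂ Q 𝔾.Δ G)
    {e : StateSp H} (he : ∀ ψ, 𝔾.conv e ψ = ψ) {S : AH →L[ℂ] A}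
    (hS : ∀ (φ : StateSp A) t, P.prod φ e t = φ (S t)) {x : AH} (hx : G x = Q.l x) :
    x = P.l (S x) := by
  refine P.eq_of_prod fun φ ψ => ?_
  have h1 : (Q.prod (P.prod φ e) ψ).comp G = P.prod φ (𝔾.conv e ψ) := prod_comp_G hG φ e ψ
  rw [he] at h1
  rw [← h1, StateSp.comp_apply, StateSp.comp_apply, hx, Q.prod_l, hS]
  have h2 : (Q.prod (P.prod φ e) ψ) (G (P.l (S x))) = P.prod φ ψ (P.l (S x)) := by
    rw [← h1, StateSp.comp_apply]
  rw [h2, P.prod_l]

/-- evaluation at `t` -/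
noncomputable def ev (Φ : H →⋆ₐ[ℂ] C(unitInterval, AH)) (t : unitInterval) : H →⋆ₐ[ℂ] AH where
  toFun h := Φ h t
  map_one' := by rw [map_one]; rfl
  map_mul' x y := by rw [map_mul]; rfl
  map_zero' := by rw [map_zero]; rfl
  map_add' x y := by rw [map_add]; rfl
  commutes' r := by rw [AlgHomClass.commutes]; rfl
  map_star' x := by rw [map_star]; rfl

theorem ev_apply (Φ : H →⋆ₐ[ℂ] C(unitInterval, AH)) (t : unitInterval) (h : H) :
    ev Φ t h = Φ h t := rfl

theorem map_mul_conjTranspose {B C : Type u} [CStarAlgebra B] [CStarAlgebra C] (π : B →⋆ₐ[ℂ] C)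
    {u : Matrix (Fin n) (Fin n) B} (hu : u * uᴴ = 1) : u.map π * (u.map π)ᴴ = 1 := by
  rw [← Matrix.conjTranspose_map _ (fun x => (map_star π x)), ← Matrix.map_mul, hu]
  exact Matrix.map_one _ (map_zero π) (map_one π)

theorem map_conjTranspose_mul {B C : Type u} [CStarAlgebra B] [CStarAlgebra C] (π : B →⋆ₐ[ℂ] C)
    {u : Matrix (Fin n) (Fin n) B} (hu : uᴴ * u = 1) : (u.map π)ᴴ * u.map π = 1 := by
  rw [← Matrix.conjTranspose_map _ (fun x => (map_star π x)), ← Matrix.map_mul, hu]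
  exact Matrix.map_one _ (map_zero π) (map_one π)

/-- `W_t = Φ_t(u) (1 ⊗ u)*` -/
noncomputable def W (P : MinTensor A H AH) (Φ : H →⋆ₐ[ℂ] C(unitInterval, AH))
    (u : Matrix (Fin n) (Fin n) H) (t : unitInterval) : Matrix (Fin n) (Fin n) AH :=
  u.map (ev Φ t) * (u.map P.r)ᴴ

theorem W_fixed {𝔾 : CompactQuantumGroup H HH HHH} {P : MinTensor A H AH}
    {Q : MinTensor AH H AHH} {Φ : H →⋆ₐ[ℂ] C(unitInterval, AH)} {G : AH →⋆ₐ[ℂ] AHH}
    (hG : IsIdTensorMap P 𝔾.t₂ Q 𝔾.Δ G) {t : unitInterval}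
    {F : HH →⋆ₐ[ℂ] AHH} (hF : (∀ h, F (𝔾.t₂.l h) = Q.l (Φ h t)) ∧ (∀ h, F (𝔾.t₂.r h) = Q.r h) ∧
      ∀ h, G (Φ h t) = F (𝔾.Δ h)) {u : Matrix (Fin n) (Fin n) H} (hu : IsCorep 𝔾 u) :
    (W P Φ u t).map G = (W P Φ u t).map Q.l := by
  obtain ⟨κ, hκl, hκr, -, hGr⟩ := hG
  obtain ⟨hFl, hFr, hGF⟩ := hF
  have e1 : (u.map (ev Φ t)).map G = (u.map (ev Φ t)).map Q.l * u.map Q.r := by
    ext i j
    rw [Matrix.map_apply, Matrix.map_apply, ev_apply, hGF, hu.comul, map_sum, Matrix.mul_apply]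
    refine Finset.sum_congr rfl fun k _ => ?_
    rw [map_mul, hFl, hFr]
    rfl
  have e2 : (u.map P.r).map G = (u.map P.r).map Q.l * u.map Q.r := by
    ext i j
    rw [Matrix.map_apply, Matrix.map_apply, hGr, hu.comul, map_sum, Matrix.mul_apply]
    refine Finset.sum_congr rfl fun k _ => ?_
    rw [map_mul, hκl, hκr]
    rfl
  have e3 : u.map Q.r * (u.map Q.r)ᴴ = 1 := map_mul_conjTranspose Q.r hu.mul_star
  have e4 : ∀ (π : AH →⋆ₐ[ℂ] AHH) (M : Matrix (Fin n) (Fin n) AH),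
      (Mᴴ).map π = (M.map π)ᴴ := fun π M => Matrix.conjTranspose_map _ (fun x => (map_star π x))
  unfold W
  rw [Matrix.map_mul, Matrix.map_mul, e4, e4, e1, e2, Matrix.conjTranspose_mul]
  calc _ = (u.map (ev Φ t)).map Q.l * (u.map Q.r * (u.map Q.r)ᴴ) * ((u.map P.r).map Q.l)ᴴ := by
        noncomm_ring
    _ = _ := by rw [e3, mul_one]

theorem W_mul_star {P : MinTensor A H AH} {Φ : H →⋆ₐ[ℂ] C(unitInterval, AH)} {t : unitInterval}
    {u : Matrix (Fin n) (Fin n) H} (hu : uᴴ * u = 1) (hu' : u * uᴴ = 1) :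
    W P Φ u t * (W P Φ u t)ᴴ = 1 := by
  unfold W
  rw [Matrix.conjTranspose_mul, Matrix.conjTranspose_conjTranspose]
  calc _ = u.map (ev Φ t) * ((u.map P.r)ᴴ * u.map P.r) * (u.map (ev Φ t))ᴴ := by noncomm_ring
    _ = 1 := by
      rw [map_conjTranspose_mul P.r hu, mul_one, map_mul_conjTranspose (ev Φ t) hu']

theorem W_mul_r {P : MinTensor A H AH} {Φ : H →⋆ₐ[ℂ] C(unitInterval, AH)} {t : unitInterval}
    {u : Matrix (Fin n) (Fin n) H} (hu : uᴴ * u = 1) :
    W P Φ u t * u.map P.r = u.map (ev Φ t) := by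
  unfold W
  rw [mul_assoc, map_conjTranspose_mul P.r hu, mul_one]

theorem continuous_W (P : MinTensor A H AH) (Φ : H →⋆ₐ[ℂ] C(unitInterval, AH))
    (u : Matrix (Fin n) (Fin n) H) (i j : Fin n) : Continuous fun t => W P Φ u t i j := by
  unfold W
  simp only [Matrix.mul_apply, Matrix.map_apply, ev_apply]
  exact continuous_finsetSum _ fun k _ => ((Φ (u i k)).continuous).mul continuous_const

end Pool.Agent.MP_b3a7e3_al
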