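import Mathlib
import Pool.Agent.Lib.MP_b3a7e3_al.Main
import Pool.Agent.Lib.MP_b3a7e3_al.BU

set_option autoImplicit false
set_option maxHeartbeats 4000000

open scoped ComplexOrder Matrix Topology
open ComplexConjugate Filter

namespace Pool.Agent.MP_b3a7e3_al

universe u

variable {A B C H HH HHH AH AHH : Type u} [CStarAlgebra A] [CStarAlgebra B] [CStarAlgebra C]
  [CStarAlgebra H]
  [CStarAlgebra HH] [CStarAlgebra HHH] [CStarAlgebra AH] [CStarAlgebra AHH] {n : ℕ}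

theorem StateSp.IsMul.comp {f : StateSp B} (hf : f.IsMul) (π : C →⋆ₐ[ℂ] B) : (f.comp π).IsMul := by
  intro x y
  rw [StateSp.comp_apply, StateSp.comp_apply, StateSp.comp_apply, map_mul, hf]

/-- the action on states of `A` -/
noncomputable def act (P : MinTensor A H AH) (δ : A →⋆ₐ[ℂ] AH) (φ : StateSp A) (x : StateSp H) :
    StateSp A := (P.prod φ x).comp δ

theorem act_apply (P : MinTensor A H AH) (δ : A →⋆ₐ[ℂ] AH) (φ : StateSp A) (x : StateSp H) (a : A) :
    act P δ φ x a = P.prod φ x (δ a) := StateSp.comp_apply _ _ _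

theorem act_isMul {P : MinTensor A H AH} {δ : A →⋆ₐ[ℂ] AH} {φ : StateSp A} {x : StateSp H}
    (hφ : φ.IsMul) (hx : x.IsMul) : (act P δ φ x).IsMul := (P.prod_isMul hφ hx).comp δ

theorem act_act {𝔾 : CompactQuantumGroup H HH HHH} {P : MinTensor A H AH}
    {Q : MinTensor AH H AHH} {δ : A →⋆ₐ[ℂ] AH} (hδ : IsAction 𝔾 P Q δ) (φ : StateSp A)
    (x y : StateSp H) : act P δ (act P δ φ x) y = act P δ φ (𝔾.conv x y) :=
  coaction_assoc hδ.coaction φ x y

theorem act_counit [Nontrivial A] {𝔾 : CompactQuantumGroup H HH HHH} {P : MinTensor A H AH}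
    {Q : MinTensor AH H AHH} {δ : A →⋆ₐ[ℂ] AH} (hδ : IsAction 𝔾 P Q δ) {e : StateSp H}
    (he : ∀ ψ, 𝔾.conv ψ e = ψ) (φ : StateSp A) : act P δ φ e = φ := by
  obtain ⟨S, hS, -⟩ := P.exists_slice' e
  have h1 : ∀ a, δ (S (δ a)) = δ a := by
    intro a
    refine P.eq_of_prod fun φ ψ => ?_
    rw [← act_apply, ← hS, ← act_apply P δ (act P δ φ ψ) e, act_act hδ, he, act_apply]
  apply StateSp.ext
  intro a
  rw [act_apply, hS, hδ.injective (h1 a)]

theorem act_free {P : MinTensor A H AH} {δ : A →⋆ₐ[ℂ] AH} (hfree : IsFree P δ)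
    {φ : StateSp A} (hφ : φ.IsMul) {x y : StateSp H} (hx : x.IsMul) (hy : y.IsMul)
    (h : act P δ φ x = act P δ φ y) : x = y := by
  have h1 : (P.prod φ x).toCLM = (P.prod φ y).toCLM := by
    refine ContinuousLinearMap.ext_on hfree ?_
    rintro _ ⟨a, b, rfl⟩
    change P.prod φ x (P.l a * δ b) = P.prod φ y (P.l a * δ b)
    rw [P.prod_isMul hφ hx, P.prod_isMul hφ hy, P.prod_l, P.prod_l, ← act_apply, ← act_apply, h]
  apply StateSp.ext
  intro b
  rw [← P.prod_r φ x, ← P.prod_r φ y]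
  exact congrArg (fun f : AH →L[ℂ] ℂ => f (P.r b)) h1

/-- the path of states of `H` -/
noncomputable def stp (P : MinTensor A H AH) (Φ : H →⋆ₐ[ℂ] C(unitInterval, AH)) (e : StateSp H)
    (φ : StateSp A) (t : unitInterval) : StateSp H := (P.prod φ e).comp (ev Φ t)

theorem stp_apply (P : MinTensor A H AH) (Φ : H →⋆ₐ[ℂ] C(unitInterval, AH)) (e : StateSp H)
    (φ : StateSp A) (t : unitInterval) (h : H) : stp P Φ e φ t h = P.prod φ e (Φ h t) :=
  StateSp.comp_apply _ _ _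

theorem stp_isMul {P : MinTensor A H AH} {Φ : H →⋆ₐ[ℂ] C(unitInterval, AH)} {e : StateSp H}
    (he : e.IsMul) {φ : StateSp A} (hφ : φ.IsMul) (t : unitInterval) : (stp P Φ e φ t).IsMul :=
  (P.prod_isMul hφ he).comp _

theorem prod_ev {𝔾 : CompactQuantumGroup H HH HHH} {P : MinTensor A H AH}
    {Q : MinTensor AH H AHH} {δ : A →⋆ₐ[ℂ] AH} {Φ : H →⋆ₐ[ℂ] C(unitInterval, AH)}
    (hΦ : IsEquivariantToJoin 𝔾 P Q δ Φ) {e : StateSp H} (he : ∀ ψ, 𝔾.conv e ψ = ψ)
    (φ : StateSp A) (c : StateSp H) (t : unitInterval) (h : H) :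
    P.prod φ c (Φ h t) = 𝔾.conv (stp P Φ e φ t) c h := by
  obtain ⟨G, hG, hF⟩ := hΦ.equivariant
  obtain ⟨F, hFl, hFr, hGF⟩ := hF t
  have h1 : (Q.prod (P.prod φ e) c).comp G = P.prod φ (𝔾.conv e c) := prod_comp_G hG φ e c
  rw [he] at h1
  have h2 : (Q.prod (P.prod φ e) c).comp F = 𝔾.t₂.prod (stp P Φ e φ t) c := by
    refine 𝔾.t₂.eq_prod fun a b => ?_
    rw [StateSp.comp_apply, map_mul, hFl, hFr, Q.prod_apply, stp_apply]
  rw [← h1, StateSp.comp_apply, hGF, 𝔾.conv_apply, ← h2, StateSp.comp_apply]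

theorem stp_act [Nontrivial A] {𝔾 : CompactQuantumGroup H HH HHH} {P : MinTensor A H AH}
    {Q : MinTensor AH H AHH} {δ : A →⋆ₐ[ℂ] AH} (hδ : IsAction 𝔾 P Q δ)
    {Φ : H →⋆ₐ[ℂ] C(unitInterval, AH)}
    (hΦ : IsEquivariantToJoin 𝔾 P Q δ Φ) {e : StateSp H} (he : ∀ ψ, 𝔾.conv e ψ = ψ)
    (he' : ∀ ψ, 𝔾.conv ψ e = ψ) (φ : StateSp A) (x : StateSp H) :
    stp P Φ e (act P δ φ x) 1 = 𝔾.conv (stp P Φ e φ 1) x := by
  apply StateSp.ext
  intro h
  obtain ⟨a, ha⟩ := hΦ.at_one h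
  rw [← prod_ev hΦ he, ha, stp_apply, ha, ← act_apply, ← act_apply, act_counit hδ he']

theorem stp_zero {𝔾 : CompactQuantumGroup H HH HHH} {P : MinTensor A H AH}
    {Q : MinTensor AH H AHH} {δ : A →⋆ₐ[ℂ] AH} {Φ : H →⋆ₐ[ℂ] C(unitInterval, AH)}
    (hΦ : IsEquivariantToJoin 𝔾 P Q δ Φ) (e : StateSp H) (φ φ' : StateSp A) :
    stp P Φ e φ 0 = stp P Φ e φ' 0 := by
  apply StateSp.ext
  intro h
  obtain ⟨h', hh⟩ := hΦ.at_zero h
  rw [stp_apply, stp_apply, hh, P.prod_r, P.prod_r]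

/-- joint continuity of evaluation -/
theorem continuous_eval_path {K : Type*} [TopologicalSpace K] {g : K → A} (hg : Continuous g)
    {y : K → WeakDual.characterSpace ℂ A} (hy : Continuous y) :
    Continuous fun k => (y k) (g k) := by
  rw [continuous_iff_continuousAt]
  intro k₀
  have h1 : Tendsto (fun k => (y k) (g k₀)) (𝓝 k₀) (𝓝 ((y k₀) (g k₀))) := by
    have : Continuous fun k => (y k) (g k₀) :=
      (WeakDual.eval_continuous (g k₀)).comp (continuous_subtype_val.comp hy)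
    exact this.continuousAt
  have h2 : Tendsto (fun k => (y k) (g k - g k₀)) (𝓝 k₀) (𝓝 0) := by
    have h3 : Tendsto (fun k => ‖g k - g k₀‖) (𝓝 k₀) (𝓝 0) := by
      have h4 : Tendsto (fun k => g k - g k₀) (𝓝 k₀) (𝓝 (g k₀ - g k₀)) :=
        (hg.sub continuous_const).continuousAt
      rw [sub_self] at h4
      simpa using h4.norm
    refine squeeze_zero_norm (fun k => ?_) h3
    rw [← charState_apply]
    exact (charState (y k)).norm_le _
  have h5 := h2.add h1
  rw [zero_add] at h5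
  refine h5.congr fun k => ?_
  rw [map_sub, sub_add_cancel]

theorem charState_injective {χ η : WeakDual.characterSpace ℂ H} (h : charState χ = charState η) :
    χ = η := by
  apply WeakDual.CharacterSpace.ext
  intro x
  rw [← charState_apply, h, charState_apply]

theorem continuous_to_char {K : Type*} [TopologicalSpace K] {y : K → WeakDual.characterSpace ℂ A}
    (h : ∀ a, Continuous fun k => (y k) a) : Continuous y :=
  Continuous.subtype_mk (WeakDual.continuous_of_continuous_eval h) _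

end Pool.Agent.MP_b3a7e3_al
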