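import Mathlib

set_option autoImplicit false
set_option maxHeartbeats 4000000

open scoped Topology
open Complex

namespace Pool.Agent.MP_b3a7e3_al

theorem exists_lift {K : Type*} [TopologicalSpace K] [CompactSpace K] {d : unitInterval → K → ℂ}
    (hd : Continuous fun p : unitInterval × K => d p.1 p.2) (hn : ∀ t y, ‖d t y‖ = 1) :
    ∃ θ : K → ℝ, Continuous θ ∧ ∀ y, d 1 y = d 0 y * Complex.exp (θ y * I) := by
  let F : C(unitInterval × K, ℂ) := ⟨fun p => d p.1 p.2, hd⟩
  have hUC := CompactSpace.uniformContinuous_of_continuous F.curry.continuous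
  obtain ⟨ε, hε, hεd⟩ := Metric.uniformContinuous_iff.mp hUC 1 one_pos
  obtain ⟨M, hM⟩ := exists_nat_one_div_lt hε
  set p : ℕ → unitInterval := fun k => Set.projIcc 0 1 zero_le_one ((k : ℝ) / ((M : ℝ) + 1)) with hp
  have hp0 : p 0 = 0 := by
    simp only [hp, Nat.cast_zero, zero_div]
    rw [Set.projIcc_left]
    rfl
  have hpM : p (M + 1) = 1 := by
    have h0 : ((M : ℝ) + 1) ≠ 0 := by positivity
    simp only [hp, Nat.cast_add, Nat.cast_one]
    rw [div_self h0, Set.projIcc_right]
    rfl
  have hclose : ∀ k < M + 1, ∀ y, ‖d (p (k + 1)) y - d (p k) y‖ < 1 := by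
    intro k hk y
    have hpos : (0 : ℝ) < (M : ℝ) + 1 := by positivity
    have hkM : (k : ℝ) + 1 ≤ (M : ℝ) + 1 := by exact_mod_cast hk
    have m1 : (k : ℝ) / ((M : ℝ) + 1) ∈ Set.Icc (0 : ℝ) 1 := by
      refine ⟨by positivity, ?_⟩
      rw [div_le_one hpos]; linarith
    have m2 : ((k + 1 : ℕ) : ℝ) / ((M : ℝ) + 1) ∈ Set.Icc (0 : ℝ) 1 := by
      refine ⟨by positivity, ?_⟩
      rw [div_le_one hpos]; push_cast; linarith
    have hdist : dist (p (k + 1)) (p k) < ε := by
      simp only [hp]
      rw [Set.projIcc_of_mem _ m1, Set.projIcc_of_mem _ m2, Subtype.dist_eq, Real.dist_eq,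
        ← sub_div]
      push_cast
      have : ((k : ℝ) + 1 - (k : ℝ)) / ((M : ℝ) + 1) = 1 / ((M : ℝ) + 1) := by ring
      rw [this, abs_of_pos (by positivity)]
      exact hM
    have h1 := hεd hdist
    have h2 := ContinuousMap.dist_apply_le_dist (f := F.curry (p (k + 1))) (g := F.curry (p k)) y
    rw [dist_eq_norm] at h2
    exact lt_of_le_of_lt h2 h1
  have hne : ∀ t y, d t y ≠ 0 := fun t y h => by
    have := hn t y
    rw [h, norm_zero] at this
    exact zero_ne_one this
  have hslit : ∀ k < M + 1, ∀ y, d (p (k + 1)) y / d (p k) y ∈ Complex.slitPlane := by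
    intro k hk y
    have h1 : ‖d (p (k + 1)) y / d (p k) y - 1‖ < 1 := by
      have : d (p (k + 1)) y / d (p k) y - 1 = (d (p (k + 1)) y - d (p k) y) / d (p k) y := by
        rw [sub_div, div_self (hne _ _)]
      rw [this, norm_div, hn, div_one]
      exact hclose k hk y
    left
    have h2 := Complex.abs_re_le_norm (d (p (k + 1)) y / d (p k) y - 1)
    rw [Complex.sub_re, Complex.one_re] at h2
    have h3 := abs_lt.mp (lt_of_le_of_lt h2 h1)
    linarith [h3.1]
  have hcont : ∀ t, Continuous (d t) := fun t => hd.comp (continuous_const.prodMk continuous_id)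
  refine ⟨fun y => ∑ k ∈ Finset.range (M + 1), (d (p (k + 1)) y / d (p k) y).arg, ?_, fun y => ?_⟩
  · refine continuous_finsetSum _ fun k hk => ?_
    rw [continuous_iff_continuousAt]
    intro y
    have h1 : ContinuousAt (fun y => d (p (k + 1)) y / d (p k) y) y :=
      ((hcont _).continuousAt).div ((hcont _).continuousAt) (hne _ _)
    exact ContinuousAt.comp (f := fun y => d (p (k + 1)) y / d (p k) y)
      (Complex.continuousAt_arg (hslit k (Finset.mem_range.mp hk) y)) h1
  · have key : ∀ m, d (p m) y = d 0 y *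
        Complex.exp ((∑ k ∈ Finset.range m, (d (p (k + 1)) y / d (p k) y).arg : ℝ) * I) := by
      intro m
      induction m with
      | zero => simp [hp0]
      | succ m ih =>
        rw [Finset.sum_range_succ]
        push_cast
        rw [add_mul, Complex.exp_add, ← mul_assoc]
        have h1 : Complex.exp (((d (p (m + 1)) y / d (p m) y).arg : ℂ) * I) =
            d (p (m + 1)) y / d (p m) y := by
          have := Complex.norm_mul_exp_arg_mul_I (d (p (m + 1)) y / d (p m) y)
          rw [norm_div, hn, hn, div_one, Complex.ofReal_one, one_mul] at this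
          exact this
        rw [h1]
        have h2 : d 0 y * Complex.exp ((∑ k ∈ Finset.range m,
            ((d (p (k + 1)) y / d (p k) y).arg : ℂ)) * I) = d (p m) y := by
          rw [ih]; push_cast; rfl
        rw [h2, mul_div_cancel₀ _ (hne _ _)]
    have := key (M + 1)
    rw [hpM] at this
    exact this

/-- a continuous real function on a connected space with values in `2πℤ` and a zero vanishes -/
theorem eq_zero_of_exp {K : Type*} [TopologicalSpace K] [PreconnectedSpace K] {g : K → ℝ}
    (hg : Continuous g) (h : ∀ y, Complex.exp (g y * I) = 1) {y₀ : K} (h0 : g y₀ = 0) (y : K) :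
    g y = 0 := by
  have hval : ∀ y, ∃ n : ℤ, g y = n * (2 * Real.pi) := by
    intro y
    obtain ⟨n, hn⟩ := Complex.exp_eq_one_iff.mp (h y)
    refine ⟨n, ?_⟩
    have h1 : (g y : ℂ) * I = ((n * (2 * Real.pi) : ℝ) : ℂ) * I := by
      rw [hn]; push_cast; ring
    have h2 := mul_right_cancel₀ Complex.I_ne_zero h1
    exact_mod_cast h2
  have hpi := Real.pi_pos
  have hno : ∀ y, g y ≠ Real.pi ∧ g y ≠ -Real.pi := by
    intro y
    obtain ⟨n, hn⟩ := hval y
    constructor
    · intro h1
      rw [h1] at hn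
      have h2 : (n : ℝ) * 2 = 1 := by
        have : Real.pi * ((n : ℝ) * 2) = Real.pi * 1 := by linarith
        exact mul_left_cancel₀ hpi.ne' this
      have h3 : n * 2 = 1 := by exact_mod_cast h2
      omega
    · intro h1
      rw [h1] at hn
      have h2 : (n : ℝ) * 2 = -1 := by
        have : Real.pi * ((n : ℝ) * 2) = Real.pi * (-1) := by linarith
        exact mul_left_cancel₀ hpi.ne' this
      have h3 : n * 2 = -1 := by exact_mod_cast h2
      omega
  obtain ⟨n, hn⟩ := hval y
  rcases lt_trichotomy n 0 with hn0 | hn0 | hn0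
  · have h1 : (n : ℝ) ≤ -1 := by exact_mod_cast (by omega : n ≤ -1)
    have h2 : g y ≤ -Real.pi := by rw [hn]; nlinarith
    obtain ⟨z, hz⟩ := mem_range_of_exists_le_of_exists_ge (c := -Real.pi) hg ⟨y, h2⟩
      ⟨y₀, by rw [h0]; linarith⟩
    exact absurd hz (hno z).2
  · rw [hn, hn0]; simp
  · have h1 : (1 : ℝ) ≤ n := by exact_mod_cast (by omega : 1 ≤ n)
    have h2 : Real.pi ≤ g y := by rw [hn]; nlinarith
    obtain ⟨z, hz⟩ := mem_range_of_exists_le_of_exists_ge (c := Real.pi) hg
      ⟨y₀, by rw [h0]; linarith⟩ ⟨y, h2⟩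
    exact absurd hz (hno z).1

end Pool.Agent.MP_b3a7e3_al
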