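import Mathlib
import Pool.Agent.Lib.MP_b3a7e3_al.Act

set_option autoImplicit false
set_option maxHeartbeats 4000000

open scoped ComplexOrder Matrix Topology
open ComplexConjugate Filter

namespace Pool.Agent.MP_b3a7e3_al

universe u

variable {A B C H HH HHH AH AHH : Type u} [CStarAlgebra A] [CStarAlgebra B] [CStarAlgebra C]
  [CStarAlgebra H]
  [CStarAlgebra HH] [CStarAlgebra HHH] [CStarAlgebra AH] [CStarAlgebra AHH] {n : ℕ}

/-- the induced map on characters of `A` -/
noncomputable def actC (P : MinTensor A H AH) (δ : A →⋆ₐ[ℂ] AH) {x : StateSp H} (hx : x.IsMul)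
    (y : WeakDual.characterSpace ℂ A) : WeakDual.characterSpace ℂ A :=
  ofMul (act P δ (charState y) x) (act_isMul (charState_isMul y) hx)

theorem charState_actC (P : MinTensor A H AH) (δ : A →⋆ₐ[ℂ] AH) {x : StateSp H} (hx : x.IsMul)
    (y : WeakDual.characterSpace ℂ A) : charState (actC P δ hx y) = act P δ (charState y) x :=
  charState_ofMul _ _

theorem continuous_actC [Nontrivial A] (P : MinTensor A H AH) (δ : A →⋆ₐ[ℂ] AH) {x : StateSp H}
    (hx : x.IsMul) : Continuous (actC P δ hx) := by
  obtain ⟨S, hS, -⟩ := P.exists_slice' x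
  refine continuous_to_char fun a => ?_
  have : (fun y => (actC P δ hx y) a) = fun y : WeakDual.characterSpace ℂ A => y (S (δ a)) := by
    funext y
    rw [← charState_apply, charState_actC, act_apply, hS, charState_apply]
  rw [this]
  exact (WeakDual.eval_continuous _).comp continuous_subtype_val

/-- the null-homotopy on characters of `A` -/
noncomputable def homC (P : MinTensor A H AH) (δ : A →⋆ₐ[ℂ] AH)
    (Φ : H →⋆ₐ[ℂ] C(unitInterval, AH)) {e : StateSp H} (he : e.IsMul)
    (α : WeakDual.characterSpace ℂ A) (t : unitInterval)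
    (y : WeakDual.characterSpace ℂ A) : WeakDual.characterSpace ℂ A :=
  ofMul (act P δ (charState α) (stp P Φ e (charState y) t))
    (act_isMul (charState_isMul α) (stp_isMul he (charState_isMul y) t))

theorem charState_homC (P : MinTensor A H AH) (δ : A →⋆ₐ[ℂ] AH)
    (Φ : H →⋆ₐ[ℂ] C(unitInterval, AH)) {e : StateSp H} (he : e.IsMul)
    (α : WeakDual.characterSpace ℂ A) (t : unitInterval) (y : WeakDual.characterSpace ℂ A) :
    charState (homC P δ Φ he α t y) = act P δ (charState α) (stp P Φ e (charState y) t) :=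
  charState_ofMul _ _

theorem stp_eq_eval [Nontrivial A] (P : MinTensor A H AH)
    (Φ : H →⋆ₐ[ℂ] C(unitInterval, AH)) (e : StateSp H) :
    ∃ S : AH →L[ℂ] A, ∀ (y : WeakDual.characterSpace ℂ A) t h,
      stp P Φ e (charState y) t h = y (S (Φ h t)) := by
  obtain ⟨S, hS, -⟩ := P.exists_slice' e
  exact ⟨S, fun y t h => by rw [stp_apply, hS, charState_apply]⟩

theorem continuous_homC [Nontrivial A] [Nontrivial H] (P : MinTensor A H AH) (δ : A →⋆ₐ[ℂ] AH)
    (Φ : H →⋆ₐ[ℂ] C(unitInterval, AH)) {e : StateSp H} (he : e.IsMul)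
    (α : WeakDual.characterSpace ℂ A) :
    Continuous fun p : unitInterval × WeakDual.characterSpace ℂ A =>
      homC P δ Φ he α p.1 p.2 := by
  obtain ⟨S, hS⟩ := stp_eq_eval P Φ e
  obtain ⟨R, hR, -⟩ := P.exists_slice_left (charState α)
  refine continuous_to_char fun a => ?_
  have : (fun p : unitInterval × WeakDual.characterSpace ℂ A => (homC P δ Φ he α p.1 p.2) a) =
      fun p => p.2 (S (Φ (R (δ a)) p.1)) := by
    funext p
    rw [← charState_apply, charState_homC, act_apply, hR, hS]
  rw [this]
  exact continuous_eval_path (S.continuous.comp ((Φ (R (δ a))).continuous.comp continuous_fst))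
    continuous_snd

theorem no_torsion {𝔾 : CompactQuantumGroup H HH HHH} {P : MinTensor A H AH}
    {Q : MinTensor AH H AHH} {δ : A →⋆ₐ[ℂ] AH} (hδ : IsAction 𝔾 P Q δ) (hfree : IsFree P δ)
    (α : WeakDual.characterSpace ℂ A)
    {Φ : H →⋆ₐ[ℂ] C(unitInterval, AH)} (hΦ : IsEquivariantToJoin 𝔾 P Q δ Φ)
    {e : StateSp H} (heM : e.IsMul) (hee : 𝔾.conv e e = e)
    {c : StateSp H} (hcM : c.IsMul) (hcc : 𝔾.conv c c = e) : c = e := by
  by_contra hne
  have : Nontrivial H := nontrivial_of_state e
  have : Nontrivial A := nontrivial_of_state (charState α)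
  have hel := left_counit 𝔾 heM hee
  have her := right_counit 𝔾 heM hee
  have hνν : ∀ y, actC P δ hcM (actC P δ hcM y) = y := by
    intro y
    apply charState_injective
    rw [charState_actC, charState_actC, act_act hδ, hcc, act_counit hδ her]
  refine BU.no_equivariant_null α (continuous_actC P δ hcM) hνν (continuous_homC P δ Φ heM α)
    (fun y => ?_) (fun y => ?_) (fun y => ?_)
  · apply charState_injective
    rw [charState_homC, charState_homC]
    congr 1
    exact stp_zero hΦ e _ _
  · apply charState_injective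
    rw [charState_homC, charState_actC, charState_actC, charState_homC, act_act hδ,
      stp_act hδ hΦ hel her]
  · have h1 : actC P δ hcM y ≠ y := by
      intro h
      apply hne
      have h2 := congrArg charState h
      rw [charState_actC] at h2
      refine act_free hfree (charState_isMul y) hcM heM ?_
      rw [h2, act_counit hδ her]
    obtain ⟨a, ha⟩ : ∃ a, (actC P δ hcM y) a ≠ y a := by
      by_contra hcon
      push Not at hcon
      exact h1 (WeakDual.CharacterSpace.ext hcon)
    set z := conj (y a - (actC P δ hcM y) a) with hz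
    refine ⟨fun x => (z * (x a - (actC P δ hcM x) a)).re, ?_, fun x => ?_, ?_⟩
    · have e1 : Continuous fun x : WeakDual.characterSpace ℂ A => x a :=
        (WeakDual.eval_continuous _).comp continuous_subtype_val
      have e2 : Continuous fun x : WeakDual.characterSpace ℂ A => (actC P δ hcM x) a :=
        e1.comp (continuous_actC P δ hcM)
      exact Complex.continuous_re.comp (continuous_const.mul (e1.sub e2))
    · simp only
      rw [hνν, ← Complex.neg_re]
      congr 1
      ring
    · simp only
      rw [hz, mul_comm, Complex.mul_conj, Complex.ofReal_re]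
      intro h0
      rw [Complex.normSq_eq_zero, sub_eq_zero] at h0
      exact ha h0.symm

/-- multiplicative states which agree on the entries of `u` agree on `C*(u)` -/
theorem eq_of_val_eq {u : Matrix (Fin n) (Fin n) H} (hu : coeffAlgebra u = ⊤) {f g : StateSp H}
    (hf : f.IsMul) (hg : g.IsMul) (h : val f u = val g u) : f = g := by
  let M : StarSubalgebra ℂ H :=
    { carrier := {a | f a = g a}
      mul_mem' := fun {a b} (ha : f a = g a) (hb : f b = g b) => by
        change f (a * b) = g (a * b)
        rw [hf, hg, ha, hb]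
      one_mem' := by
        change f 1 = g 1
        rw [f.map_one, g.map_one]
      add_mem' := fun {a b} (ha : f a = g a) (hb : f b = g b) => by
        change f (a + b) = g (a + b)
        rw [map_add, map_add, ha, hb]
      zero_mem' := by
        change f 0 = g 0
        rw [map_zero, map_zero]
      algebraMap_mem' := fun r => by
        change f (algebraMap ℂ H r) = g (algebraMap ℂ H r)
        rw [Algebra.algebraMap_eq_smul_one, map_smul, map_smul, f.map_one, g.map_one]
      star_mem' := fun {a} (ha : f a = g a) => by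
        change f (star a) = g (star a)
        rw [f.map_star, g.map_star, ha] }
  have hMc : IsClosed (M : Set H) := by
    have hf' : Continuous f := f.toCLM.continuous
    have hg' : Continuous g := g.toCLM.continuous
    exact isClosed_eq hf' hg'
  have hle : coeffAlgebra u ≤ M := by
    unfold coeffAlgebra
    refine StarSubalgebra.topologicalClosure_minimal ?_ hMc
    rw [StarAlgebra.adjoin_le_iff]
    rintro _ ⟨i, j, rfl⟩
    exact congrFun (congrFun h i) j
  apply StateSp.ext
  intro a
  have : a ∈ coeffAlgebra u := by rw [hu]; trivial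
  exact hle this

theorem matrix_case {𝔾 : CompactQuantumGroup H HH HHH} {P : MinTensor A H AH}
    {Q : MinTensor AH H AHH} {δ : A →⋆ₐ[ℂ] AH} (hδ : IsAction 𝔾 P Q δ) (hfree : IsFree P δ)
    (α : A →⋆ₐ[ℂ] ℂ)
    {Φ : H →⋆ₐ[ℂ] C(unitInterval, AH)} (hΦ : IsEquivariantToJoin 𝔾 P Q δ Φ)
    {u : Matrix (Fin n) (Fin n) H} (hu : IsCorep 𝔾 u) (htop : coeffAlgebra u = ⊤) :
    ¬ HasCharacterOfOrder u 2 := by
  rintro ⟨χ, X, hχ, hX⟩
  obtain ⟨fα, hfα, hfα'⟩ := isState_of_char α
  set φ₀ : StateSp A := ⟨fα, hfα⟩ with hφ₀
  have hφ₀M : φ₀.IsMul := fun x y => by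
    change fα (x * y) = fα x * fα y
    rw [hfα', hfα', hfα', map_mul]
  obtain ⟨χ₀⟩ : Nonempty (WeakDual.characterSpace ℂ H) :=
    exists_character (θ := ev Φ 1) hδ.injective (fun h => hΦ.at_one h) α
  have : Nontrivial H := nontrivial_of_state (charState χ₀)
  obtain ⟨e, heM, hee⟩ := exists_idempotent 𝔾 ⟨χ₀⟩
  have heu : val e u = 1 := val_counit 𝔾 hu heM hee
  -- the character of `H`
  have hmem : ∀ h : H, h ∈ coeffAlgebra u := fun h => by rw [htop]; trivial
  let χ' : H →⋆ₐ[ℂ] ℂ :=
    { toFun := fun h => χ ⟨h, hmem h⟩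
      map_one' := map_one χ
      map_mul' := fun x y => map_mul χ ⟨x, hmem x⟩ ⟨y, hmem y⟩
      map_zero' := map_zero χ
      map_add' := fun x y => map_add χ ⟨x, hmem x⟩ ⟨y, hmem y⟩
      commutes' := fun r => AlgHomClass.commutes χ r
      map_star' := fun x => map_star χ ⟨x, hmem x⟩ }
  obtain ⟨f, hf, hfχ⟩ := isState_of_char χ'
  set c : StateSp H := ⟨f, hf⟩ with hc
  have hcM : c.IsMul := fun x y => by
    change f (x * y) = f x * f y
    rw [hfχ, hfχ, hfχ, map_mul]
  have hcu : val c u = X := by
    ext i j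
    change f (u i j) = X i j
    rw [hfχ]
    exact hχ i j ⟨u i j, hmem _⟩ rfl
  have hX2 : X * X = 1 := by
    have := pow_orderOf_eq_one X
    rw [hX, sq] at this
    exact this
  have hcc : 𝔾.conv c c = e := by
    refine eq_of_val_eq htop (𝔾.conv_isMul hcM hcM) heM ?_
    rw [val_conv 𝔾 hu, hcu, hX2, heu]
  have hce := no_torsion hδ hfree (ofMul φ₀ hφ₀M) hΦ heM hee hcM hcc
  have : X = 1 := by rw [← hcu, hce, heu]
  rw [this, orderOf_one] at hX
  norm_num at hX

end Pool.Agent.MP_b3a7e3_al
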