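import Mathlib
import Pool.Agent.Lib.MP_b3a7e3_al.Torsion
import Pool.Agent.Lib.MP_b3a7e3_al.Lift

set_option autoImplicit false
set_option maxHeartbeats 4000000

open scoped ComplexOrder Matrix Topology
open ComplexConjugate Filter

namespace Pool.Agent.MP_b3a7e3_al

universe u

variable {A B C H HH HHH AH AHH : Type u} [CStarAlgebra A] [CStarAlgebra B] [CStarAlgebra C]
  [CStarAlgebra H]
  [CStarAlgebra HH] [CStarAlgebra HHH] [CStarAlgebra AH] [CStarAlgebra AHH] {n : ℕ}

/-- convolution of characters -/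
noncomputable def mulC (𝔾 : CompactQuantumGroup H HH HHH) (x y : WeakDual.characterSpace ℂ H) :
    WeakDual.characterSpace ℂ H :=
  ofMul (𝔾.conv (charState x) (charState y)) (𝔾.conv_isMul (charState_isMul x) (charState_isMul y))

theorem charState_mulC (𝔾 : CompactQuantumGroup H HH HHH) (x y : WeakDual.characterSpace ℂ H) :
    charState (mulC 𝔾 x y) = 𝔾.conv (charState x) (charState y) := charState_ofMul _ _

theorem continuous_mulC_left [Nontrivial H] (𝔾 : CompactQuantumGroup H HH HHH)
    (r : WeakDual.characterSpace ℂ H) : Continuous fun x => mulC 𝔾 x r := by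
  obtain ⟨S, hS, -⟩ := 𝔾.t₂.exists_slice' (charState r)
  refine continuous_to_char fun h => ?_
  have : (fun x : WeakDual.characterSpace ℂ H => (mulC 𝔾 x r) h) = fun x => x (S (𝔾.Δ h)) := by
    funext x
    rw [← charState_apply, charState_mulC, 𝔾.conv_apply, hS, charState_apply]
  rw [this]
  exact (WeakDual.eval_continuous _).comp continuous_subtype_val

theorem continuous_mulC_right [Nontrivial H] (𝔾 : CompactQuantumGroup H HH HHH)
    (r : WeakDual.characterSpace ℂ H) : Continuous fun x => mulC 𝔾 r x := by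
  obtain ⟨S, hS, -⟩ := 𝔾.t₂.exists_slice_left (charState r)
  refine continuous_to_char fun h => ?_
  have : (fun x : WeakDual.characterSpace ℂ H => (mulC 𝔾 r x) h) = fun x => x (S (𝔾.Δ h)) := by
    funext x
    rw [← charState_apply, charState_mulC, 𝔾.conv_apply, hS, charState_apply]
  rw [this]
  exact (WeakDual.eval_continuous _).comp continuous_subtype_val

theorem exists_right_inverse (𝔾 : CompactQuantumGroup H HH HHH) {e : StateSp H}
    (heM : e.IsMul) (hee : 𝔾.conv e e = e) {w : StateSp H} (hw : w.IsMul) :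
    ∃ a : StateSp H, a.IsMul ∧ 𝔾.conv w a = e := by
  have : Nontrivial H := nontrivial_of_state e
  let _ : Semigroup (WeakDual.characterSpace ℂ H) :=
    { mul := mulC 𝔾
      mul_assoc := fun a b c => charState_injective (by
        change charState (mulC 𝔾 (mulC 𝔾 a b) c) = charState (mulC 𝔾 a (mulC 𝔾 b c))
        rw [charState_mulC, charState_mulC, charState_mulC, charState_mulC, 𝔾.conv_assoc]) }
  set w' := ofMul w hw with hw'
  obtain ⟨i, ⟨a, ha⟩, hi⟩ := exists_idempotent_in_compact_subsemigroup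
    (M := WeakDual.characterSpace ℂ H) (fun r => continuous_mulC_left 𝔾 r)
    (Set.range fun x => mulC 𝔾 w' x) ⟨_, w', rfl⟩
    (isCompact_range (continuous_mulC_right 𝔾 w')) (by
      rintro _ ⟨x, rfl⟩ _ ⟨y, rfl⟩
      refine ⟨mulC 𝔾 x (mulC 𝔾 w' y), ?_⟩
      apply charState_injective
      change charState (mulC 𝔾 w' (mulC 𝔾 x (mulC 𝔾 w' y))) =
        charState (mulC 𝔾 (mulC 𝔾 w' x) (mulC 𝔾 w' y))
      simp only [charState_mulC, 𝔾.conv_assoc])
  have hi' : 𝔾.conv (charState i) (charState i) = charState i := by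
    rw [← charState_mulC]
    exact congrArg charState hi
  have h1 := left_counit 𝔾 (charState_isMul i) hi' e
  have h2 := right_counit 𝔾 heM hee (charState i)
  refine ⟨charState a, charState_isMul a, ?_⟩
  have h3 : charState i = 𝔾.conv w (charState a) := by
    rw [← ha]
    change charState (mulC 𝔾 w' a) = _
    rw [charState_mulC, hw', charState_ofMul]
  rw [← h3, ← h2, h1]

theorem val_unitary {u : Matrix (Fin n) (Fin n) H} (hu : uᴴ * u = 1) {f : StateSp H}
    (hf : f.IsMul) : (val f u)ᴴ * val f u = 1 := by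
  ext i j
  have h3 := congrArg f (congrFun (congrFun hu i) j)
  rw [Matrix.mul_apply, map_sum] at h3
  rw [Matrix.mul_apply]
  simp only [Matrix.conjTranspose_apply, val_apply] at h3 ⊢
  have h4 : ∀ k, star (f (u k i)) * f (u k j) = f (star (u k i) * u k j) := fun k => by
    rw [hf, f.map_star]; rfl
  simp only [h4]
  rw [h3]
  by_cases hij : i = j
  · subst hij; simp [f.map_one]
  · simp [hij]

/-- `val x u` acts on `v` by the scalar `z` of modulus one -/
theorem norm_eigenvalue {u : Matrix (Fin n) (Fin n) H} (hu : uᴴ * u = 1) {f : StateSp H}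
    (hf : f.IsMul) {v : Fin n → ℂ} (hv : star v ⬝ᵥ v ≠ 0) {z : ℂ} (hz : val f u *ᵥ v = z • v) :
    ‖z‖ = 1 := by
  have h1 : star (val f u *ᵥ v) ⬝ᵥ (val f u *ᵥ v) = star v ⬝ᵥ v := by
    rw [Matrix.star_mulVec, ← Matrix.dotProduct_mulVec, Matrix.mulVec_mulVec, val_unitary hu hf,
      Matrix.one_mulVec]
  rw [hz, star_smul, smul_dotProduct, dotProduct_smul, smul_eq_mul, smul_eq_mul, ← mul_assoc,
    Complex.star_def] at h1
  have h2 : (starRingEnd ℂ) z * z = 1 := mul_right_cancel₀ hv (by rw [h1, one_mul])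
  rw [mul_comm, Complex.mul_conj, Complex.normSq_eq_norm_sq] at h2
  have h3 : ‖z‖ ^ 2 = 1 := by exact_mod_cast h2
  have h4 := norm_nonneg z
  nlinarith

theorem line_case {𝔾 : CompactQuantumGroup H HH HHH} {P : MinTensor A H AH}
    {Q : MinTensor AH H AHH} {δ : A →⋆ₐ[ℂ] AH} (hδ : IsAction 𝔾 P Q δ)
    (α : A →⋆ₐ[ℂ] ℂ)
    {Φ : H →⋆ₐ[ℂ] C(unitInterval, AH)} (hΦ : IsEquivariantToJoin 𝔾 P Q δ Φ)
    {u : Matrix (Fin n) (Fin n) H} (hu : IsCorep 𝔾 u) {v : Fin n → ℂ}
    (hv : ∀ f : StateSp H, f.IsMul → ∃ z : ℂ, val f u *ᵥ v = z • v)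
    {c : StateSp H} (hcM : c.IsMul) : val c u *ᵥ v = v := by
  by_cases hv0 : star v ⬝ᵥ v = 0
  · rw [dotProduct_star_self_eq_zero.mp hv0, Matrix.mulVec_zero]
  obtain ⟨fα, hfα, hfα'⟩ := isState_of_char α
  set φ₀ : StateSp A := ⟨fα, hfα⟩ with hφ₀
  have hφ₀M : φ₀.IsMul := fun x y => by
    change fα (x * y) = fα x * fα y
    rw [hfα', hfα', hfα', map_mul]
  have : Nontrivial H := nontrivial_of_state c
  have : Nontrivial A := nontrivial_of_state φ₀
  obtain ⟨e, heM, hee⟩ := exists_idempotent 𝔾 ⟨ofMul c hcM⟩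
  have hel := left_counit 𝔾 heM hee
  have her := right_counit 𝔾 heM hee
  have heu : val e u = 1 := val_counit 𝔾 hu heM hee
  -- a base point
  obtain ⟨y₁, hy₁M, hy₁⟩ : ∃ y₁ : StateSp A, y₁.IsMul ∧ stp P Φ e y₁ 1 = e := by
    obtain ⟨a, haM, ha⟩ := exists_right_inverse 𝔾 heM hee (stp_isMul heM hφ₀M 1 (P := P) (Φ := Φ))
    exact ⟨act P δ φ₀ a, act_isMul hφ₀M haM, by rw [stp_act hδ hΦ hel her, ha]⟩
  -- the path of each character
  obtain ⟨path, hpst⟩ : ∃ path : unitInterval → WeakDual.characterSpace ℂ H →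
      WeakDual.characterSpace ℂ H, ∀ t x, charState (path t x) =
        stp P Φ e (act P δ y₁ (charState x)) t :=
    ⟨fun t x => ofMul (stp P Φ e (act P δ y₁ (charState x)) t)
      (stp_isMul heM (act_isMul hy₁M (charState_isMul x)) t), fun t x => charState_ofMul _ _⟩
  have hpc : Continuous fun p : unitInterval × WeakDual.characterSpace ℂ H => path p.1 p.2 := by
    obtain ⟨S, hS, -⟩ := P.exists_slice' e
    obtain ⟨R, hR, -⟩ := P.exists_slice_left y₁
    refine continuous_to_char fun h => ?_
    have : (fun p : unitInterval × WeakDual.characterSpace ℂ H => (path p.1 p.2) h) =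
        fun p => p.2 (R (δ (S (Φ h p.1)))) := by
      funext p
      rw [← charState_apply, hpst, stp_apply, hS, act_apply, hR, charState_apply]
    rw [this]
    refine continuous_eval_path ?_ continuous_snd
    have h1 : Continuous δ := (δ.toAlgHom.toLinearMap.mkContinuous 1 (fun x => by
        rw [one_mul]; exact NonUnitalStarAlgHom.norm_apply_le δ x)).continuous
    exact R.continuous.comp (h1.comp (S.continuous.comp ((Φ h).continuous.comp continuous_fst)))
  have hp0 : ∀ x y, path 0 x = path 0 y := fun x y => charState_injective (by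
    rw [hpst, hpst]; exact stp_zero hΦ e _ _)
  have hp1 : ∀ x, path 1 x = x := fun x => charState_injective (by
    rw [hpst, stp_act hδ hΦ hel her, hy₁, hel])
  -- connectedness
  obtain ⟨ē, hēs⟩ : ∃ ē : WeakDual.characterSpace ℂ H, charState ē = e :=
    ⟨ofMul e heM, charState_ofMul _ _⟩
  have hconn : PreconnectedSpace (WeakDual.characterSpace ℂ H) := by
    refine ⟨isPreconnected_of_forall (path 0 ē) fun x _ => ?_⟩
    refine ⟨Set.range fun t => path t x, Set.subset_univ _, ⟨0, hp0 _ _⟩, ⟨1, hp1 x⟩, ?_⟩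
    have hpc' : Continuous fun t => path t x :=
      Continuous.comp (g := fun p : unitInterval × WeakDual.characterSpace ℂ H => path p.1 p.2)
        (f := fun t => (t, x)) hpc (continuous_id.prodMk continuous_const)
    exact isPreconnected_range hpc'
  -- the eigenvalue and its lift
  obtain ⟨D, hDdef⟩ : ∃ D : WeakDual.characterSpace ℂ H → ℂ, ∀ x,
      D x = (star v ⬝ᵥ (val (charState x) u *ᵥ v)) / (star v ⬝ᵥ v) := ⟨_, fun x => rfl⟩
  have hDv : ∀ x, val (charState x) u *ᵥ v = D x • v := by
    intro x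
    obtain ⟨z, hz⟩ := hv _ (charState_isMul x)
    rw [hDdef, hz, dotProduct_smul, smul_eq_mul, mul_div_cancel_right₀ _ hv0]
  have hDuniq : ∀ x z, val (charState x) u *ᵥ v = z • v → D x = z := by
    intro x z hz
    rw [hDdef, hz, dotProduct_smul, smul_eq_mul, mul_div_cancel_right₀ _ hv0]
  have hDc : Continuous D := by
    have : D = fun x => (star v ⬝ᵥ (val (charState x) u *ᵥ v)) / (star v ⬝ᵥ v) := funext hDdef
    rw [this]
    refine Continuous.div_const ?_ _
    refine continuous_const.dotProduct (Continuous.matrix_mulVec (continuous_matrix fun i j => ?_)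
      continuous_const)
    simp only [val_apply, charState_apply]
    exact (WeakDual.eval_continuous _).comp continuous_subtype_val
  obtain ⟨θ, hθc, hθ⟩ := exists_lift (d := fun t x => D (path t x)) (hDc.comp hpc)
    (fun t x => norm_eigenvalue hu.star_mul (charState_isMul _) hv0 (hDv _))
  set d₀ := D (path 0 ē) with hd₀
  have hDθ : ∀ x, D x = d₀ * Complex.exp (θ x * Complex.I) := by
    intro x
    have := hθ x
    rw [hp1, hp0 x ē] at this
    exact this
  have hDmul : ∀ x y, D (mulC 𝔾 x y) = D x * D y := by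
    intro x y
    apply hDuniq
    rw [charState_mulC, val_conv 𝔾 hu, ← Matrix.mulVec_mulVec, hDv y, Matrix.mulVec_smul, hDv x,
      smul_smul, mul_comm]
  have hDe : D ē = 1 := by
    apply hDuniq
    rw [hēs, heu, Matrix.one_mulVec, one_smul]
  have hme : ∀ y, mulC 𝔾 ē y = y := fun y => charState_injective (by
    rw [charState_mulC, hēs, hel])
  -- `θ - θ(e)` is additive
  have hadd : ∀ x y, θ (mulC 𝔾 x y) - θ x - θ y + θ ē = 0 := by
    intro x y
    refine eq_zero_of_exp (g := fun x => θ (mulC 𝔾 x y) - θ x - θ y + θ ē) ?_ (fun z => ?_)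
      (y₀ := ē) ?_ x
    · exact (((hθc.comp (continuous_mulC_left 𝔾 y)).sub hθc).sub continuous_const).add
        continuous_const
    · have h1 : Complex.exp (((θ (mulC 𝔾 z y) - θ z - θ y + θ ē : ℝ) : ℂ) * Complex.I) =
          Complex.exp (θ (mulC 𝔾 z y) * Complex.I) * Complex.exp (θ ē * Complex.I) /
            (Complex.exp (θ z * Complex.I) * Complex.exp (θ y * Complex.I)) := by
        rw [← Complex.exp_add, ← Complex.exp_add, ← Complex.exp_sub]
        congr 1
        push_cast
        ring
      rw [h1]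
      have hne : ∀ r : ℝ, Complex.exp (r * Complex.I) ≠ 0 := fun r => Complex.exp_ne_zero _
      have hd : d₀ ≠ 0 := by
        intro h0
        have := hDθ ē
        rw [hDe, h0, zero_mul] at this
        exact one_ne_zero this
      have h2 : d₀ * Complex.exp (θ (mulC 𝔾 z y) * Complex.I) =
          (d₀ * Complex.exp (θ z * Complex.I)) * (d₀ * Complex.exp (θ y * Complex.I)) := by
        rw [← hDθ, ← hDθ, ← hDθ, hDmul]
      have h3 : d₀ * Complex.exp (θ ē * Complex.I) = 1 := by rw [← hDθ, hDe]
      rw [div_eq_one_iff_eq (mul_ne_zero (hne _) (hne _))]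
      have h4 : d₀ * (Complex.exp (θ (mulC 𝔾 z y) * Complex.I) * Complex.exp (θ ē * Complex.I)) =
          d₀ * (Complex.exp (θ z * Complex.I) * Complex.exp (θ y * Complex.I)) := by
        calc _ = (d₀ * Complex.exp (θ (mulC 𝔾 z y) * Complex.I)) * Complex.exp (θ ē * Complex.I) := by
              ring
          _ = (d₀ * Complex.exp (θ ē * Complex.I)) *
              (d₀ * (Complex.exp (θ z * Complex.I) * Complex.exp (θ y * Complex.I))) := by
              rw [h2]; ring
          _ = _ := by rw [h3, one_mul]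
      exact mul_left_cancel₀ hd h4
    · simp only [hme]
      ring
  -- boundedness
  obtain ⟨K, hK⟩ := isCompact_univ.exists_bound_of_continuousOn hθc.continuousOn
  have hzero : ∀ x, θ x = θ ē := by
    intro x
    set pw : ℕ → WeakDual.characterSpace ℂ H := fun m => (fun z => mulC 𝔾 z x)^[m] ē with hpw
    have hpws : ∀ m, pw (m + 1) = mulC 𝔾 (pw m) x := fun m => by
      simp only [hpw, Function.iterate_succ_apply']
    have h1 : ∀ m : ℕ, θ (pw m) - θ ē = m * (θ x - θ ē) := by
      intro m
      induction m with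
      | zero => simp [hpw]
      | succ m ih =>
        have := hadd (pw m) x
        rw [hpws]
        push_cast
        linarith
    by_contra hne
    have hpos : 0 < |θ x - θ ē| := abs_pos.mpr (sub_ne_zero.mpr hne)
    obtain ⟨m, hm⟩ := exists_nat_gt ((K + K) / |θ x - θ ē|)
    rw [div_lt_iff₀ hpos] at hm
    have h2 := h1 m
    have h3 : |θ (pw m) - θ ē| ≤ K + K := by
      refine (abs_sub _ _).trans ?_
      have k1 := hK (pw m) (Set.mem_univ _)
      have k2 := hK ē (Set.mem_univ _)
      rw [Real.norm_eq_abs] at k1 k2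
      linarith
    rw [h2, abs_mul, Nat.abs_cast] at h3
    linarith
  have hfin := hDθ (ofMul c hcM)
  rw [hzero, ← hDθ ē, hDe] at hfin
  have hlast := hDv (ofMul c hcM)
  rw [hfin, one_smul, charState_ofMul] at hlast
  exact hlast

end Pool.Agent.MP_b3a7e3_al
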