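import Mathlib
import Pool.Agent.Lib.MP_b3a7e3_al.Main

set_option autoImplicit false
set_option maxHeartbeats 4000000

open scoped ComplexOrder Matrix Topology
open ComplexConjugate Filter

namespace Pool.Agent.MP_b3a7e3_al

universe u

variable {A H HH HHH AH AHH : Type u} [CStarAlgebra A]
  [CStarAlgebra H]
  [CStarAlgebra HH] [CStarAlgebra HHH] [CStarAlgebra AH] [CStarAlgebra AHH] {n : ℕ}

theorem matrix_map_injective {B C : Type u} [CStarAlgebra B] [CStarAlgebra C] {π : B →⋆ₐ[ℂ] C}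
    (hπ : Function.Injective π) {M N : Matrix (Fin n) (Fin n) B} (h : M.map π = N.map π) :
    M = N := by
  ext i j
  exact hπ (congrFun (congrFun h i) j)

/-- the end `t = 1` of the path is not scalar -/
theorem end_one {𝔾 : CompactQuantumGroup H HH HHH} {P : MinTensor A H AH}
    {Q : MinTensor AH H AHH} {δ : A →⋆ₐ[ℂ] AH} (hδ : IsAction 𝔾 P Q δ)
    {Φ : H →⋆ₐ[ℂ] C(unitInterval, AH)} (hΦ : IsEquivariantToJoin 𝔾 P Q δ Φ)
    {u : Matrix (Fin n) (Fin n) H} (hu : IsCorep 𝔾 u) (hl : Function.Injective Q.l)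
    (hr : Function.Injective P.r) {X : Matrix (Fin n) (Fin n) ℂ} (hX : Xᴴ * X = 1)
    (hW : W P Φ u 1 = X.map (algebraMap ℂ AH)) : u = 1 := by
  obtain ⟨F, G, hF, ⟨κ, hκl, hκr, -, hGr⟩, hFG⟩ := hδ.coaction
  set X' : Matrix (Fin n) (Fin n) H := X.map (algebraMap ℂ H) with hX'
  set v : Matrix (Fin n) (Fin n) H := X' * u with hv
  have hV : u.map (ev Φ 1) = v.map P.r := by
    rw [← W_mul_r (P := P) (Φ := Φ) (t := 1) hu.star_mul, hW, hv, Matrix.map_mul]
    congr 1
    ext i j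
    simp only [hX', Matrix.map_apply]
    exact (AlgHomClass.commutes P.r _).symm
  have h1 : ∀ i j, Q.r (v i j) = κ (𝔾.Δ (v i j)) := by
    intro i j
    obtain ⟨a, ha⟩ := hΦ.at_one (u i j)
    have e1 : P.r (v i j) = δ a := by
      rw [← ha]
      exact (congrFun (congrFun hV i) j).symm
    rw [← hF.2, e1, hFG, ← e1, hGr]
  have h2 : ∀ i j, 𝔾.Δ (v i j) = ∑ k, 𝔾.t₂.l (v i k) * 𝔾.t₂.r (u k j) := by
    intro i j
    have e : v i j = ∑ p, X i p • u p j := by
      rw [hv, Matrix.mul_apply]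
      refine Finset.sum_congr rfl fun p _ => ?_
      rw [hX', Matrix.map_apply, Algebra.smul_def]
    have e' : ∀ k, v i k = ∑ p, X i p • u p k := by
      intro k
      rw [hv, Matrix.mul_apply]
      refine Finset.sum_congr rfl fun p _ => ?_
      rw [hX', Matrix.map_apply, Algebra.smul_def]
    rw [e, map_sum]
    simp only [map_smul, hu.comul, e', map_sum, Finset.sum_mul, Finset.smul_sum, smul_mul_assoc]
    rw [Finset.sum_comm]
  have h3 : v.map Q.r = (v.map P.r).map Q.l * u.map Q.r := by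
    ext i j
    rw [Matrix.map_apply, h1, h2, map_sum, Matrix.mul_apply]
    refine Finset.sum_congr rfl fun k _ => ?_
    rw [map_mul, hκl, hκr]
    rfl
  have h4 : (v * uᴴ).map Q.r = (v.map P.r).map Q.l := by
    have e1 : (uᴴ).map Q.r = (u.map Q.r)ᴴ := Matrix.conjTranspose_map _ (fun x => (map_star Q.r x))
    rw [Matrix.map_mul, h3, e1, mul_assoc, map_mul_conjTranspose Q.r hu.mul_star, mul_one]
  have h5 : v * uᴴ = X' := by rw [hv, mul_assoc, hu.mul_star, mul_one]
  have h6 : v = X' := by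
    refine matrix_map_injective hr (matrix_map_injective hl ?_)
    rw [← h4, h5]
    ext i j
    simp only [hX', Matrix.map_apply]
    rw [AlgHomClass.commutes, AlgHomClass.commutes, AlgHomClass.commutes]
  have h7 : X'ᴴ * X' = 1 := by
    have e1 : X'ᴴ = (Xᴴ).map (algebraMap ℂ H) := by
      ext i j
      simp only [hX', Matrix.conjTranspose_apply, Matrix.map_apply]
      rw [Complex.star_def, ← Complex.star_def, algebraMap_star_comm]
    rw [e1, hX', ← Matrix.map_mul, hX]
    exact Matrix.map_one _ (map_zero _) (map_one _)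
  calc u = (X'ᴴ * X') * u := by rw [h7, one_mul]
    _ = X'ᴴ * v := by rw [hv, mul_assoc]
    _ = 1 := by rw [h6, h7]

theorem main_thm {𝔾 : CompactQuantumGroup H HH HHH} {P : MinTensor A H AH}
    {Q : MinTensor AH H AHH} {δ : A →⋆ₐ[ℂ] AH} (hδ : IsAction 𝔾 P Q δ) (α : A →⋆ₐ[ℂ] ℂ)
    {Φ : H →⋆ₐ[ℂ] C(unitInterval, AH)} (hΦ : IsEquivariantToJoin 𝔾 P Q δ Φ)
    {u : Matrix (Fin n) (Fin n) H} (hu : IsCorep 𝔾 u) (hne : u ≠ 1) {m : ℕ} (hm : 0 < m) :
    HasCharacterOfOrder u m := by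
  -- preliminaries
  obtain ⟨fα, hfα, -⟩ := isState_of_char α
  set φ₀ : StateSp A := ⟨fα, hfα⟩ with hφ₀
  have : Nontrivial A := nontrivial_of_state φ₀
  obtain ⟨χ₀⟩ : Nonempty (WeakDual.characterSpace ℂ H) :=
    exists_character (θ := ev Φ 1) hδ.injective (fun h => hΦ.at_one h) α
  have : Nontrivial H := nontrivial_of_state (charState χ₀)
  obtain ⟨e, heM, he⟩ := exists_counit 𝔾 ⟨χ₀⟩
  have heu : val e u = 1 := val_counit 𝔾 hu heM (he e)
  have : Nontrivial AH := nontrivial_of_state (P.prod φ₀ e)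
  obtain ⟨S, hS, -⟩ := P.exists_slice' e
  obtain ⟨G, hG, hF⟩ := hΦ.equivariant
  have hlP : Function.Injective P.l := P.l_injective
  have hrP : Function.Injective P.r := P.r_injective
  have hlQ : Function.Injective Q.l := Q.l_injective
  -- the path of matrices over `A`
  set b : unitInterval → Matrix (Fin n) (Fin n) A := fun t => Matrix.of fun i j => S (W P Φ u t i j)
    with hb
  have hbW : ∀ t, W P Φ u t = (b t).map P.l := by
    intro t
    obtain ⟨F, hFt⟩ := hF t
    have h1 := W_fixed (u := u) hG hFt hu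
    ext i j
    exact fixed_point 𝔾 hG he hS (congrFun (congrFun h1 i) j)
  have hbu : ∀ t, b t * (b t)ᴴ = 1 := by
    intro t
    refine matrix_map_injective hlP ?_
    have e1 : ((b t)ᴴ).map P.l = ((b t).map P.l)ᴴ :=
      Matrix.conjTranspose_map _ (fun x => (map_star P.l x))
    rw [Matrix.map_mul, e1, ← hbW, W_mul_star hu.star_mul hu.mul_star]
    exact (Matrix.map_one _ (map_zero P.l) (map_one P.l)).symm
  have hbc : ∀ i j, Continuous fun t => b t i j := fun i j =>
    S.continuous.comp (continuous_W P Φ u i j)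
  -- states
  set st : StateSp A → unitInterval → StateSp H := fun φ t => (P.prod φ e).comp (ev Φ t) with hst
  have hval : ∀ φ t i j, val (st φ t) u i j = φ (b t i j) := by
    intro φ t i j
    rw [val_apply, hst]
    simp only
    rw [StateSp.comp_apply]
    have e1 : ev Φ t (u i j) = ∑ k, W P Φ u t i k * P.r (u k j) := by
      have := congrFun (congrFun (W_mul_r (P := P) (Φ := Φ) (t := t) hu.star_mul) i) j
      rw [Matrix.mul_apply] at this
      exact this.symm
    rw [e1, map_sum]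
    have e2 : ∀ k, P.prod φ e (W P Φ u t i k * P.r (u k j)) =
        φ (b t i k) * (1 : Matrix (Fin n) (Fin n) ℂ) k j := by
      intro k
      rw [P.prod_mul_r φ heM, hbW, Matrix.map_apply, P.prod_l, ← heu]
      rfl
    simp only [e2, Matrix.one_apply, mul_ite, mul_one, mul_zero]
    simp
  -- the compact semigroup of values
  set 𝒮 : Set (Matrix (Fin n) (Fin n) ℂ) := {M | ∃ f : StateSp H, M = val f u} with h𝒮
  have hcomp : IsCompact 𝒮 := isCompact_val u
  have hmul : ∀ M ∈ 𝒮, ∀ N ∈ 𝒮, M * N ∈ 𝒮 := by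
    rintro _ ⟨f, rfl⟩ _ ⟨g, rfl⟩
    exact ⟨𝔾.conv f g, (val_conv 𝔾 hu f g).symm⟩
  have hone : (1 : Matrix (Fin n) (Fin n) ℂ) ∈ 𝒮 := ⟨e, heu.symm⟩
  -- the point `t = 0`
  set X₀ : Matrix (Fin n) (Fin n) ℂ := val (st φ₀ 0) u with hX₀
  have hX₀𝒮 : X₀ ∈ 𝒮 := ⟨_, rfl⟩
  have hb0 : ∀ i j, b 0 i j = algebraMap ℂ A (X₀ i j) := by
    choose v hv using hΦ.at_zero
    have e1 : W P Φ u 0 = ((Matrix.of fun i j => v (u i j)) * uᴴ).map P.r := by
      have e2 : (uᴴ).map P.r = (u.map P.r)ᴴ :=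
        Matrix.conjTranspose_map _ (fun x => (map_star P.r x))
      rw [Matrix.map_mul, e2]
      unfold W
      congr 1
      ext i j
      exact hv (u i j)
    intro i j
    have h2 : ∀ φ : StateSp A, φ (b 0 i j) = e (((Matrix.of fun i j => v (u i j)) * uᴴ) i j) := by
      intro φ
      have h3 : P.l (b 0 i j) = P.r (((Matrix.of fun i j => v (u i j)) * uᴴ) i j) := by
        have h4 := congrFun (congrFun (hbW 0) i) j
        have h5 := congrFun (congrFun e1 i) j
        rw [Matrix.map_apply] at h4 h5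
        rw [← h4, h5]
      rw [← P.prod_l φ e, h3, P.prod_r]
    rw [← sub_eq_zero]
    refine eq_zero_of_states fun f hf => ?_
    have h6 := h2 ⟨f, hf⟩
    have h7 := h2 φ₀
    rw [← h6] at h7
    have h8 : X₀ i j = φ₀ (b 0 i j) := hval φ₀ 0 i j
    rw [map_sub, h8, h7, Algebra.algebraMap_eq_smul_one, map_smul, hf.map_one, smul_eq_mul, mul_one]
    exact sub_self _
  have hb0' : b 0 = X₀.map (algebraMap ℂ A) := by
    ext i j; exact hb0 i j
  have hmapstar : ∀ M : Matrix (Fin n) (Fin n) ℂ,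
      (M.map (algebraMap ℂ A))ᴴ = (Mᴴ).map (algebraMap ℂ A) := by
    intro M
    ext i j
    simp only [Matrix.conjTranspose_apply, Matrix.map_apply]
    rw [algebraMap_star_comm]
  have hX₀u : X₀ * X₀ᴴ = 1 := by
    have h := hbu 0
    rw [hb0', hmapstar, ← Matrix.map_mul] at h
    ext i j
    have h2 := congrFun (congrFun h i) j
    rw [Matrix.map_apply] at h2
    have h3 : (1 : Matrix (Fin n) (Fin n) A) i j =
        algebraMap ℂ A ((1 : Matrix (Fin n) (Fin n) ℂ) i j) := by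
      by_cases hij : i = j
      · subst hij; simp
      · simp [hij]
    rw [h3] at h2
    exact (FaithfulSMul.algebraMap_injective ℂ A) h2
  have hX₀u' : X₀ᴴ * X₀ = 1 := mul_eq_one_comm.mp hX₀u
  have hX₀inv : X₀ᴴ ∈ 𝒮 := inv_mem hcomp hmul hone hX₀𝒮 hX₀u'
  -- the path is not constant
  set c : unitInterval → (Fin n × Fin n → A) := fun t p => b t p.1 p.2 - b 0 p.1 p.2 with hc
  have hcc : Continuous c := continuous_pi fun p => (hbc _ _).sub continuous_const
  have hc0 : c 0 = 0 := by funext p; simp [hc]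
  have hc1 : c 1 ≠ 0 := by
    intro h
    apply hne
    refine end_one hδ hΦ hu hlQ hrP hX₀u' ?_
    rw [hbW]
    ext i j
    have h1 : b 1 i j - b 0 i j = 0 := congrFun h (i, j)
    rw [sub_eq_zero] at h1
    rw [Matrix.map_apply, h1, hb0, Matrix.map_apply, AlgHomClass.commutes]
  have hpos : 0 < ‖c 1‖ := norm_pos_iff.mpr hc1
  -- points where the path is close to, but different from, its starting value
  set η : ℕ → ℝ := fun k => ‖c 1‖ * (1 / ((k : ℝ) + 1)) with hη
  have hηpos : ∀ k, 0 < η k := fun k => by rw [hη]; positivity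
  have hη0 : Tendsto η atTop (𝓝 0) := by
    have := (tendsto_one_div_add_atTop_nhds_zero_nat (𝕜 := ℝ)).const_mul ‖c 1‖
    rw [mul_zero] at this
    exact this
  have hηle : ∀ k, η k ≤ ‖c 1‖ := fun k => by
    have h1 : 1 / ((k : ℝ) + 1) ≤ 1 := by
      rw [div_le_one (by positivity)]
      have : (0 : ℝ) ≤ k := Nat.cast_nonneg k
      linarith
    exact mul_le_of_le_one_right hpos.le h1
  have hex : ∀ k, ∃ t, ‖c t‖ = η k := by
    intro k
    have := mem_range_of_exists_le_of_exists_ge (f := fun t => ‖c t‖) (c := η k) hcc.norm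
      ⟨0, by simp only [hc0, norm_zero]; exact (hηpos k).le⟩ ⟨1, hηle k⟩
    exact this
  choose t ht using hex
  have hst' : ∀ k, ∃ φ : StateSp A, (1 / 2 : ℝ) * η k ≤ ‖fun p => φ (c (t k) p)‖ := by
    intro k
    obtain ⟨p, hp⟩ : ∃ p, ‖c (t k)‖ ≤ ‖c (t k) p‖ := by
      by_contra hcon
      push Not at hcon
      have h1 : 0 < ‖c (t k)‖ := by rw [ht]; exact hηpos k
      exact lt_irrefl _ ((pi_norm_lt_iff h1).mpr hcon)
    obtain ⟨f, hf, hfp⟩ := exists_state (c (t k) p)
    refine ⟨⟨f, hf⟩, ?_⟩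
    have h2 := norm_le_pi_norm (fun p => (⟨f, hf⟩ : StateSp A) (c (t k) p)) p
    have h3 : ‖(⟨f, hf⟩ : StateSp A) (c (t k) p)‖ = ‖f (c (t k) p)‖ := rfl
    rw [h3] at h2
    rw [ht] at hp
    linarith
  choose φ hφ using hst'
  set E : ℕ → (Fin n × Fin n → ℂ) := fun k p => ((η k)⁻¹ : ℂ) * φ k (c (t k) p) with hE
  have hEn : ∀ k, E k = ((η k)⁻¹ : ℂ) • fun p => φ k (c (t k) p) := fun k => rfl
  have hηn : ∀ k, ‖((η k)⁻¹ : ℂ)‖ = (η k)⁻¹ := fun k => by
    rw [norm_inv, Complex.norm_real, Real.norm_of_nonneg (hηpos k).le]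
  have hE1 : ∀ k, E k ∈ Metric.closedBall (0 : Fin n × Fin n → ℂ) 1 := by
    intro k
    rw [mem_closedBall_zero_iff, hEn, norm_smul, hηn]
    have h1 : ‖fun p => φ k (c (t k) p)‖ ≤ η k := by
      rw [pi_norm_le_iff_of_nonneg (hηpos k).le]
      intro p
      refine ((φ k).norm_le _).trans ?_
      rw [← ht k]
      exact norm_le_pi_norm _ _
    calc (η k)⁻¹ * ‖fun p => φ k (c (t k) p)‖ ≤ (η k)⁻¹ * η k :=
          mul_le_mul_of_nonneg_left h1 (inv_nonneg.mpr (hηpos k).le)
      _ = 1 := inv_mul_cancel₀ (hηpos k).ne'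
  have hE2 : ∀ k, (1 / 2 : ℝ) ≤ ‖E k‖ := by
    intro k
    rw [hEn, norm_smul, hηn]
    calc (1 / 2 : ℝ) = (η k)⁻¹ * ((1 / 2) * η k) := by
          have := (hηpos k).ne'
          field_simp
      _ ≤ (η k)⁻¹ * ‖fun p => φ k (c (t k) p)‖ :=
          mul_le_mul_of_nonneg_left (hφ k) (inv_nonneg.mpr (hηpos k).le)
  obtain ⟨E₀, -, ψ, hψ, hlim⟩ := (isCompact_closedBall (0 : Fin n × Fin n → ℂ) 1).tendsto_subseq hE1
  have hE₀ : E₀ ≠ 0 := by
    intro h
    have h1 : (1 / 2 : ℝ) ≤ ‖E₀‖ := ge_of_tendsto hlim.norm (Eventually.of_forall fun k => hE2 _)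
    rw [h, norm_zero] at h1
    norm_num at h1
  -- matrices
  let toM : (Fin n × Fin n → ℂ) → Matrix (Fin n) (Fin n) ℂ := fun f => Matrix.of fun i j => f (i, j)
  have htoM : Continuous toM := continuous_matrix fun i j => continuous_apply _
  set D : Matrix (Fin n) (Fin n) ℂ := toM E₀ * X₀ᴴ with hD
  set M : ℕ → Matrix (Fin n) (Fin n) ℂ := fun k => val (st (φ (ψ k)) (t (ψ k))) u * X₀ᴴ with hM
  have hM𝒮 : ∀ k, M k ∈ 𝒮 := fun k => hmul _ ⟨_, rfl⟩ _ hX₀inv
  have hval2 : ∀ k, val (st (φ k) (t k)) u = X₀ + toM fun p => φ k (c (t k) p) := by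
    intro k
    ext i j
    rw [hval, Matrix.add_apply]
    change _ = X₀ i j + φ k (b (t k) i j - b 0 i j)
    rw [map_sub, hb0, Algebra.algebraMap_eq_smul_one, map_smul, (φ k).map_one, smul_eq_mul, mul_one]
    ring
  have hM1 : ∀ k, ((η (ψ k))⁻¹ : ℂ) • (M k - 1) = toM (E (ψ k)) * X₀ᴴ := by
    intro k
    rw [hM]
    simp only
    rw [hval2, add_mul, hX₀u, add_sub_cancel_left, ← Matrix.smul_mul]
    congr 1
  have hDlim : Tendsto (fun k => ((η (ψ k))⁻¹ : ℂ) • (M k - 1)) atTop (𝓝 D) := by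
    simp only [hM1]
    exact ((htoM.tendsto _).comp hlim).mul tendsto_const_nhds
  have hD0 : D ≠ 0 := by
    intro h
    apply hE₀
    have h1 : toM E₀ = 0 := by
      calc toM E₀ = toM E₀ * (X₀ᴴ * X₀) := by rw [hX₀u', mul_one]
        _ = D * X₀ := by rw [hD, mul_assoc]
        _ = 0 := by rw [h, zero_mul]
    funext p
    exact congrFun (congrFun h1 p.1) p.2
  -- skew-Hermitian
  have hrel : ∀ k i j, (toM (E k) * X₀ᴴ + (toM (E k) * X₀ᴴ)ᴴ) i j =
      -(((η k)⁻¹ : ℂ) * φ k (∑ l, c (t k) (i, l) * star (c (t k) (j, l)))) := by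
    intro k i j
    set C : Matrix (Fin n) (Fin n) A := Matrix.of fun i j => c (t k) (i, j) with hC
    have hbC : b (t k) = X₀.map (algebraMap ℂ A) + C := by
      ext i j
      rw [Matrix.add_apply, Matrix.map_apply, ← hb0]
      change _ = b 0 i j + (b (t k) i j - b 0 i j)
      abel
    have h1 := hbu (t k)
    rw [hbC, Matrix.conjTranspose_add, add_mul, mul_add, mul_add, hmapstar, ← Matrix.map_mul, hX₀u,
      Matrix.map_one _ (map_zero _) (map_one _)] at h1
    have h2 : C * (X₀ᴴ).map (algebraMap ℂ A) + X₀.map (algebraMap ℂ A) * Cᴴ = -(C * Cᴴ) := by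
      have : (1 : Matrix (Fin n) (Fin n) A) +
          (C * (X₀ᴴ).map (algebraMap ℂ A) + X₀.map (algebraMap ℂ A) * Cᴴ + C * Cᴴ) = 1 := by
        refine Eq.trans ?_ h1
        abel
      have h3 := add_eq_left.mp this
      exact eq_neg_of_add_eq_zero_left h3
    have h3 := congrArg (φ k) (congrFun (congrFun h2 i) j)
    rw [Matrix.add_apply, map_add, Matrix.neg_apply, map_neg, Matrix.mul_apply, Matrix.mul_apply,
      Matrix.mul_apply, map_sum, map_sum] at h3
    simp only [Matrix.map_apply, Matrix.conjTranspose_apply] at h3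
    have e1 : ∀ l, φ k (C i l * algebraMap ℂ A (star (X₀ j l))) = φ k (C i l) * star (X₀ j l) := by
      intro l
      rw [← Algebra.commutes, ← Algebra.smul_def, map_smul, smul_eq_mul, mul_comm]
    have e2 : ∀ l, φ k (algebraMap ℂ A (X₀ i l) * star (C j l)) = X₀ i l * star (φ k (C j l)) := by
      intro l
      rw [← Algebra.smul_def, map_smul, smul_eq_mul, (φ k).map_star]
      rfl
    simp only [e1, e2] at h3
    have e3 : (toM (E k) * X₀ᴴ + (toM (E k) * X₀ᴴ)ᴴ) i j = ((η k)⁻¹ : ℂ) *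
        ((∑ l, φ k (C i l) * star (X₀ j l)) + ∑ l, X₀ i l * star (φ k (C j l))) := by
      rw [Matrix.add_apply, Matrix.conjTranspose_apply, Matrix.mul_apply, Matrix.mul_apply,
        star_sum, mul_add, Finset.mul_sum, Finset.mul_sum]
      congr 1
      · refine Finset.sum_congr rfl fun l _ => ?_
        rw [Matrix.conjTranspose_apply]
        change ((η k)⁻¹ : ℂ) * φ k (C i l) * star (X₀ j l) = _
        ring
      · refine Finset.sum_congr rfl fun l _ => ?_
        rw [Matrix.conjTranspose_apply]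
        change star ((((η k)⁻¹ : ℂ) * φ k (C j l)) * star (X₀ i l)) = _
        rw [star_mul', star_mul', star_star]
        have : star ((η k : ℂ)⁻¹) = ((η k)⁻¹ : ℂ) := by
          rw [Complex.star_def, map_inv₀, Complex.conj_ofReal]
        rw [this]
        ring
    rw [e3, h3, mul_neg]
    rfl
  have hskewlim : Tendsto (fun k => toM (E (ψ k)) * X₀ᴴ + (toM (E (ψ k)) * X₀ᴴ)ᴴ) atTop
      (𝓝 (0 : Matrix (Fin n) (Fin n) ℂ)) := by
    have hbound : ∀ k i j, ‖(toM (E k) * X₀ᴴ + (toM (E k) * X₀ᴴ)ᴴ) i j‖ ≤ n * η k := by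
      intro k i j
      rw [hrel, norm_neg, norm_mul, hηn]
      have h1 : ‖φ k (∑ l, c (t k) (i, l) * star (c (t k) (j, l)))‖ ≤ n * (η k * η k) := by
        refine ((φ k).norm_le _).trans ((norm_sum_le _ _).trans ?_)
        calc ∑ l, ‖c (t k) (i, l) * star (c (t k) (j, l))‖ ≤ ∑ _l : Fin n, η k * η k := by
              refine Finset.sum_le_sum fun l _ => (norm_mul_le _ _).trans ?_
              rw [norm_star]
              have h2 : ∀ p, ‖c (t k) p‖ ≤ η k := fun p => by
                rw [← ht k]; exact norm_le_pi_norm _ _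
              exact mul_le_mul (h2 _) (h2 _) (norm_nonneg _) (hηpos k).le
          _ = n * (η k * η k) := by simp
      calc (η k)⁻¹ * ‖φ k (∑ l, c (t k) (i, l) * star (c (t k) (j, l)))‖
          ≤ (η k)⁻¹ * (n * (η k * η k)) :=
            mul_le_mul_of_nonneg_left h1 (inv_nonneg.mpr (hηpos k).le)
        _ = n * η k := by
            have := (hηpos k).ne'
            field_simp
    refine tendsto_pi_nhds.mpr fun i => tendsto_pi_nhds.mpr fun j => ?_
    rw [Matrix.zero_apply, tendsto_zero_iff_norm_tendsto_zero]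
    refine squeeze_zero (fun k => norm_nonneg _) (fun k => hbound (ψ k) i j) ?_
    have := (hη0.comp hψ.tendsto_atTop).const_mul (n : ℝ)
    simpa using this
  have hskew : Dᴴ = -D := by
    have h1 : Tendsto (fun k => toM (E (ψ k)) * X₀ᴴ) atTop (𝓝 D) := by
      exact ((htoM.tendsto _).comp hlim).mul tendsto_const_nhds
    have h2 : Tendsto (fun k => toM (E (ψ k)) * X₀ᴴ + (toM (E (ψ k)) * X₀ᴴ)ᴴ) atTop
        (𝓝 (D + Dᴴ)) := h1.add ((continuous_id.matrix_conjTranspose.tendsto _).comp h1)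
    have h3 := tendsto_nhds_unique h2 hskewlim
    exact eq_neg_of_add_eq_zero_right h3
  -- conclusion
  obtain ⟨X, ⟨f, hf⟩, hXu, hXu', hord⟩ := exists_order_of_tendsto hcomp hmul hone hM𝒮
    (fun k => hηpos (ψ k)) (hη0.comp hψ.tendsto_atTop) hDlim hskew hD0 hm
  rw [hf] at hXu hXu'
  obtain ⟨χ, hχ⟩ := exists_char_of_state f hu.star_mul hu.mul_star hXu hXu'
  refine ⟨χ, X, fun i j c hc => ?_, hord⟩
  rw [hχ, hc, hf]
  rfl

end Pool.Agent.MP_b3a7e3_al
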