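import Mathlib
import Pool.Agent.Lib.MP_b3a7e3_al.Det
import Pool.Agent.Lib.MP_b3a7e3_al.Final

set_option autoImplicit false
set_option maxHeartbeats 4000000

open scoped ComplexOrder Matrix Topology
open ComplexConjugate Filter

namespace Pool.Agent.MP_b3a7e3_al

universe u

variable {H HH HHH : Type u} [CStarAlgebra H] [CStarAlgebra HH] [CStarAlgebra HHH]

theorem surjective_of_top {n : ℕ} {u : Matrix (Fin n) (Fin n) H} (hu : coeffAlgebra u = ⊤)
    (h1 : u = 1) : Function.Surjective (algebraMap ℂ H) := by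
  let M : StarSubalgebra ℂ H :=
    { carrier := {a | a ∈ Submodule.span ℂ {(1 : H)}}
      mul_mem' := fun {a b} ha hb => by
        obtain ⟨x, rfl⟩ := Submodule.mem_span_singleton.mp ha
        obtain ⟨y, rfl⟩ := Submodule.mem_span_singleton.mp hb
        refine Submodule.mem_span_singleton.mpr ⟨x * y, ?_⟩
        rw [smul_mul_smul_comm, one_mul]
      one_mem' := Submodule.mem_span_singleton_self _
      add_mem' := fun {a b} ha hb => Submodule.add_mem (Submodule.span ℂ {(1 : H)}) ha hb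
      zero_mem' := Submodule.zero_mem (Submodule.span ℂ {(1 : H)})
      algebraMap_mem' := fun r => Submodule.mem_span_singleton.mpr
        ⟨r, (Algebra.algebraMap_eq_smul_one r).symm⟩
      star_mem' := fun {a} ha => by
        obtain ⟨x, rfl⟩ := Submodule.mem_span_singleton.mp ha
        refine Submodule.mem_span_singleton.mpr ⟨star x, ?_⟩
        rw [star_smul, star_one] }
  have hMc : IsClosed (M : Set H) := by
    change IsClosed ((Submodule.span ℂ {(1 : H)} : Submodule ℂ H) : Set H)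
    exact Submodule.closed_of_finiteDimensional _
  have hle : coeffAlgebra u ≤ M := by
    unfold coeffAlgebra
    refine StarSubalgebra.topologicalClosure_minimal ?_ hMc
    rw [StarAlgebra.adjoin_le_iff]
    rintro _ ⟨i, j, rfl⟩
    rw [h1]
    by_cases hij : i = j
    · subst hij
      rw [Matrix.one_apply_eq]
      exact Submodule.mem_span_singleton_self (R := ℂ) (1 : H)
    · rw [Matrix.one_apply_ne hij]
      exact Submodule.zero_mem (Submodule.span ℂ {(1 : H)})
  intro h
  have : h ∈ coeffAlgebra u := by rw [hu]; trivial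
  obtain ⟨z, hz⟩ := Submodule.mem_span_singleton.mp (hle this)
  exact ⟨z, by rw [Algebra.algebraMap_eq_smul_one]; exact hz⟩

theorem case_matrix (𝔾 : CompactQuantumGroup H HH HHH) (hH : ¬ Function.Surjective (algebraMap ℂ H))
    (h𝔾 : IsMatrixQuantumGroup 𝔾) : NoEquivariantMap 𝔾 := by
  obtain ⟨n, u, hu, htop⟩ := h𝔾
  rintro A AH AHH _ _ _ P Q δ hδ hfree ⟨α⟩ ⟨Φ, hΦ⟩
  have hne : u ≠ 1 := fun h => hH (surjective_of_top htop h)
  exact matrix_case hδ hfree α hΦ hu htop (main_thm hδ α hΦ hu hne two_pos)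

theorem case_order (𝔾 : CompactQuantumGroup H HH HHH) {n : ℕ} {u : Matrix (Fin n) (Fin n) H}
    (hu : IsCorep 𝔾 u) (hne : u ≠ 1) {m : ℕ} (hm : 0 < m) (h : ¬ HasCharacterOfOrder u m) :
    NoEquivariantMap 𝔾 := by
  rintro A AH AHH _ _ _ P Q δ hδ - ⟨α⟩ ⟨Φ, hΦ⟩
  exact h (main_thm hδ α hΦ hu hne hm)

theorem case_line (𝔾 : CompactQuantumGroup H HH HHH) (h : HasInvariantLine 𝔾) :
    NoEquivariantMap 𝔾 := by
  obtain ⟨n, u, v, hu, hline, χ, hχ⟩ := h
  rintro A AH AHH _ _ _ P Q δ hδ - ⟨α⟩ ⟨Φ, hΦ⟩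
  apply hχ
  obtain ⟨f, hf, hfχ⟩ := isState_of_char χ
  set c : StateSp H := ⟨f, hf⟩ with hc
  have hcM : c.IsMul := fun x y => by
    change f (x * y) = f x * f y
    rw [hfχ, hfχ, hfχ, map_mul]
  have hval : u.map χ = val c u := by
    ext i j
    exact (hfχ (u i j)).symm
  rw [hval]
  refine line_case hδ α hΦ hu (fun g hg => ?_) hcM
  obtain ⟨z, hz⟩ := hline ((ofMul g hg : WeakDual.characterSpace ℂ H) : H →⋆ₐ[ℂ] ℂ)
  exact ⟨z, hz⟩

end Pool.Agent.MP_b3a7e3_al
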