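import Mathlib
import Pool.Agent.Lib.MP_b3a7e3_al.Act
import Pool.Agent.Lib.MP_b3a7e3_al.Final

set_option autoImplicit false
set_option maxHeartbeats 4000000

open scoped ComplexOrder Matrix Topology
open ComplexConjugate Filter

namespace Pool.Agent.MP_b3a7e3_al

universe u

variable {A B T H HH HHH AH AHH : Type u} [CStarAlgebra A] [CStarAlgebra B] [CStarAlgebra T]
  [CStarAlgebra H]
  [CStarAlgebra HH] [CStarAlgebra HHH] [CStarAlgebra AH] [CStarAlgebra AHH] {n : ℕ}

/-- The slice map by a multiplicative state is a unital *-homomorphism. -/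
theorem exists_sliceHom [Nontrivial A] (P : MinTensor A B T) {ψ : StateSp B} (hψ : ψ.IsMul) :
    ∃ S : T →⋆ₐ[ℂ] A, ∀ a b, S (P.l a * P.r b) = ψ b • a := by
  obtain ⟨S, hS, hSb⟩ := P.exists_slice' ψ
  have hmul1 : ∀ a b y, S (P.l a * P.r b * y) = S (P.l a * P.r b) * S y := by
    intro a b y
    have h : S.comp (ContinuousLinearMap.mul ℂ T (P.l a * P.r b)) =
        (ContinuousLinearMap.mul ℂ A (S (P.l a * P.r b))).comp S := by
      refine P.ext_clm fun c d => ?_
      change S (P.l a * P.r b * (P.l c * P.r d)) = S (P.l a * P.r b) * S (P.l c * P.r d)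
      have e : P.l a * P.r b * (P.l c * P.r d) = P.l (a * c) * P.r (b * d) := by
        rw [map_mul, map_mul, mul_assoc, ← mul_assoc (P.r b), ← P.commute]
        noncomm_ring
      rw [e, hSb, hSb, hSb, hψ, smul_mul_smul_comm]
    exact congrArg (fun f : T →L[ℂ] A => f y) h
  have hmul : ∀ x y, S (x * y) = S x * S y := by
    intro x y
    have h : S.comp ((ContinuousLinearMap.mul ℂ T).flip y) =
        ((ContinuousLinearMap.mul ℂ A).flip (S y)).comp S := by
      refine P.ext_clm fun c d => ?_
      change S (P.l c * P.r d * y) = S (P.l c * P.r d) * S y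
      exact hmul1 c d y
    exact congrArg (fun f : T →L[ℂ] A => f x) h
  have hsep : ∀ x y : A, (∀ φ : StateSp A, φ x = φ y) → x = y := by
    intro x y h
    rw [← sub_eq_zero]
    refine eq_zero_of_states fun f hf => ?_
    have := h ⟨f, hf⟩
    rw [map_sub, sub_eq_zero]
    exact this
  have hone : S 1 = 1 := by
    have h := hSb 1 1
    rw [map_one, map_one, mul_one, ψ.map_one, one_smul] at h
    exact h
  refine ⟨{ toFun := S
            map_one' := hone
            map_mul' := hmul
            map_zero' := map_zero S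
            map_add' := map_add S
            commutes' := fun r => by
              change S (algebraMap ℂ T r) = _
              rw [Algebra.algebraMap_eq_smul_one, map_smul, hone, Algebra.algebraMap_eq_smul_one]
            map_star' := fun x => hsep _ _ fun φ => by
              rw [← hS, StateSp.map_star, StateSp.map_star, hS] }, hSb⟩

theorem val_unitary {u : Matrix (Fin n) (Fin n) H} (hu : uᴴ * u = 1) {e : StateSp H}
    (he : e.IsMul) : (val e u)ᴴ * val e u = 1 := by
  ext i j
  have h3 := congrArg e (congrFun (congrFun hu i) j)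
  rw [Matrix.mul_apply, map_sum] at h3
  rw [Matrix.mul_apply]
  simp only [Matrix.conjTranspose_apply, val_apply] at h3 ⊢
  have h4 : ∀ k, star (e (u k i)) * e (u k j) = e (star (u k i) * u k j) := fun k => by
    rw [he, e.map_star]; rfl
  simp only [h4]
  rw [h3]
  by_cases hij : i = j
  · subst hij; simp [e.map_one]
  · simp [hij]

/-- Every character has an inverse on all corepresentations. -/
theorem exists_inv_char (𝔾 : CompactQuantumGroup H HH HHH) [Nontrivial H] {c : StateSp H}
    (hc : c.IsMul) :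
    ∃ c' : StateSp H, c'.IsMul ∧ ∀ (n : ℕ) (u : Matrix (Fin n) (Fin n) H), IsCorep 𝔾 u →
      val c u * val c' u = 1 := by
  let mul : WeakDual.characterSpace ℂ H → WeakDual.characterSpace ℂ H →
      WeakDual.characterSpace ℂ H := fun χ η =>
    ofMul (𝔾.conv (charState χ) (charState η))
      (𝔾.conv_isMul (charState_isMul χ) (charState_isMul η))
  have hmul : ∀ χ η, charState (mul χ η) = 𝔾.conv (charState χ) (charState η) :=
    fun χ η => charState_ofMul _ _
  have hinj : ∀ χ η : WeakDual.characterSpace ℂ H, charState χ = charState η → χ = η := by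
    intro χ η h
    apply WeakDual.CharacterSpace.ext
    intro x
    rw [← charState_apply, h, charState_apply]
  let _ : Semigroup (WeakDual.characterSpace ℂ H) :=
    { mul := mul
      mul_assoc := fun a b c => hinj _ _ (by
        change charState (mul (mul a b) c) = charState (mul a (mul b c))
        rw [hmul, hmul, hmul, hmul, 𝔾.conv_assoc]) }
  have hcont : ∀ r : WeakDual.characterSpace ℂ H, Continuous (· * r) := by
    intro r
    obtain ⟨S, hS, -⟩ := 𝔾.t₂.exists_slice' (charState r)
    refine Continuous.subtype_mk (WeakDual.continuous_of_continuous_eval fun x => ?_) _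
    have : (fun χ : WeakDual.characterSpace ℂ H =>
        (StrongDual.toWeakDual (𝔾.conv (charState χ) (charState r)).toCLM : WeakDual ℂ H) x) =
        fun χ => χ.1 (S (𝔾.Δ x)) := by
      funext χ
      change 𝔾.conv (charState χ) (charState r) x = χ (S (𝔾.Δ x))
      rw [𝔾.conv_apply, hS, charState_apply]
    rw [this]
    exact (WeakDual.eval_continuous _).comp continuous_subtype_val
  set r : WeakDual.characterSpace ℂ H := ofMul c hc with hr
  obtain ⟨f, ⟨ψ, hψ⟩, hf⟩ := exists_idempotent_in_compact_subsemigroup hcont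
    (Set.range (· * r)) ⟨r * r, ⟨r, rfl⟩⟩ (isCompact_range (hcont r)) (by
      rintro _ ⟨a, rfl⟩ _ ⟨b, rfl⟩
      exact ⟨a * r * b, by simp only [mul_assoc]⟩)
  refine ⟨charState ψ, charState_isMul ψ, fun n u hu => ?_⟩
  have h1 : charState f = 𝔾.conv (charState ψ) c := by
    rw [← hψ]
    change charState (mul ψ r) = _
    rw [hmul, hr, charState_ofMul]
  have h2 : 𝔾.conv (charState f) (charState f) = charState f := by
    rw [← hmul]
    exact congrArg charState hf
  have h3 : val (charState f) u = 1 := val_counit 𝔾 hu (charState_isMul f) h2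
  rw [h1, val_conv 𝔾 hu] at h3
  exact mul_eq_one_comm.mp h3

/-- An equivariant map from `H` to the join gives a path of unital *-homomorphisms `H → A` which is
trivial on all corepresentations at time `0` and nontrivial on all nontrivial corepresentations at
time `1`. -/
theorem exists_path {𝔾 : CompactQuantumGroup H HH HHH} {P : MinTensor A H AH}
    {Q : MinTensor AH H AHH} {δ : A →⋆ₐ[ℂ] AH} (hδ : IsAction 𝔾 P Q δ) (α : A →⋆ₐ[ℂ] ℂ)
    {Φ : H →⋆ₐ[ℂ] C(unitInterval, AH)} (hΦ : IsEquivariantToJoin 𝔾 P Q δ Φ) :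
    ∃ θ : unitInterval → (H →⋆ₐ[ℂ] A), (∀ h, Continuous fun t => θ t h) ∧
      (∀ (n : ℕ) (u : Matrix (Fin n) (Fin n) H), IsCorep 𝔾 u → u.map (θ 0) = 1) ∧
      ∀ (n : ℕ) (u : Matrix (Fin n) (Fin n) H), IsCorep 𝔾 u → u ≠ 1 → u.map (θ 1) ≠ 1 := by
  obtain ⟨fα, hfα, -⟩ := isState_of_char α
  set φ₀ : StateSp A := ⟨fα, hfα⟩ with hφ₀
  have : Nontrivial A := nontrivial_of_state φ₀
  obtain ⟨χ₀⟩ : Nonempty (WeakDual.characterSpace ℂ H) :=
    exists_character (θ := ev Φ 1) hδ.injective (fun h => hΦ.at_one h) α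
  have : Nontrivial H := nontrivial_of_state (charState χ₀)
  obtain ⟨e, heM, he⟩ := exists_counit 𝔾 ⟨χ₀⟩
  have : Nontrivial AH := nontrivial_of_state (P.prod φ₀ e)
  obtain ⟨S, hSb⟩ := exists_sliceHom P heM
  obtain ⟨S', hS', -⟩ := P.exists_slice' e
  obtain ⟨G, hG, hF⟩ := hΦ.equivariant
  have hlP : Function.Injective P.l := P.l_injective
  have hrP : Function.Injective P.r := P.r_injective
  have hlQ : Function.Injective Q.l := Q.l_injective
  have hSl : ∀ a, S (P.l a) = a := fun a => by
    have h := hSb a 1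
    rw [map_one, mul_one, e.map_one, one_smul] at h
    exact h
  have hSr : ∀ b, S (P.r b) = algebraMap ℂ A (e b) := fun b => by
    have h := hSb 1 b
    rw [map_one, one_mul] at h
    rw [h, Algebra.algebraMap_eq_smul_one]
  -- the value at time zero
  have h0 : ∀ h, ∃ z : ℂ, S (Φ h 0) = algebraMap ℂ A z := by
    intro h
    obtain ⟨h', hh⟩ := hΦ.at_zero h
    exact ⟨e h', by rw [hh, hSr]⟩
  set c : StateSp H := (φ₀.comp S).comp (ev Φ 0) with hcdef
  have hcap : ∀ h, c h = φ₀ (S (Φ h 0)) := fun h => by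
    rw [hcdef, StateSp.comp_apply, StateSp.comp_apply, ev_apply]
  have hc0 : ∀ h, S (Φ h 0) = algebraMap ℂ A (c h) := by
    intro h
    obtain ⟨z, hz⟩ := h0 h
    rw [hcap, hz, Algebra.algebraMap_eq_smul_one, Algebra.algebraMap_eq_smul_one, map_smul,
      φ₀.map_one, smul_eq_mul, mul_one]
  have hcM : c.IsMul := by
    intro x y
    have h1 : S (Φ (x * y) 0) = S (Φ x 0) * S (Φ y 0) := by
      rw [map_mul Φ, ContinuousMap.mul_apply, map_mul]
    rw [hc0, hc0, hc0, ← map_mul] at h1
    exact FaithfulSMul.algebraMap_injective ℂ A h1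
  obtain ⟨c', hc'M, hcc'⟩ := exists_inv_char 𝔾 hcM
  obtain ⟨R, hRb⟩ := exists_sliceHom 𝔾.t₂ hc'M
  set ρ : H →⋆ₐ[ℂ] H := R.comp 𝔾.Δ with hρ
  have hρu : ∀ (n : ℕ) (u : Matrix (Fin n) (Fin n) H), IsCorep 𝔾 u → ∀ i j,
      ρ (u i j) = ∑ k, c' (u k j) • u i k := by
    intro n u hu i j
    rw [hρ, StarAlgHom.comp_apply, hu.comul, map_sum]
    exact Finset.sum_congr rfl fun k _ => hRb _ _
  set θ : unitInterval → (H →⋆ₐ[ℂ] A) := fun t => (S.comp (ev Φ t)).comp ρ with hθ
  have hθap : ∀ t h, θ t h = S (Φ (ρ h) t) := fun t h => rfl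
  have hθu : ∀ (n : ℕ) (u : Matrix (Fin n) (Fin n) H), IsCorep 𝔾 u → ∀ t,
      u.map (θ t) = (Matrix.of fun i j => S (Φ (u i j) t)) * (val c' u).map (algebraMap ℂ A) := by
    intro n u hu t
    ext i j
    rw [Matrix.map_apply, hθap, hρu n u hu, map_sum, ContinuousMap.coe_sum, Finset.sum_apply,
      map_sum, Matrix.mul_apply]
    refine Finset.sum_congr rfl fun k _ => ?_
    rw [map_smul, ContinuousMap.smul_apply, map_smul, Matrix.map_apply, val_apply,
      ← Algebra.commutes, ← Algebra.smul_def]
    rfl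
  refine ⟨θ, ?_, ?_, ?_⟩
  · intro h
    simp only [hθap]
    have hSc : Continuous S := by
      have : LipschitzWith 1 S := by
        refine LipschitzWith.of_dist_le_mul fun x y => ?_
        rw [dist_eq_norm, dist_eq_norm, ← map_sub, NNReal.coe_one, one_mul]
        exact NonUnitalStarAlgHom.norm_apply_le S _
      exact this.continuous
    exact hSc.comp (Φ (ρ h)).continuous
  · intro n u hu
    rw [hθu n u hu]
    have e1 : (Matrix.of fun i j => S (Φ (u i j) 0)) = (val c u).map (algebraMap ℂ A) := by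
      ext i j
      rw [Matrix.of_apply, hc0, Matrix.map_apply, val_apply]
    rw [e1, ← Matrix.map_mul, hcc' n u hu]
    exact Matrix.map_one _ (map_zero _) (map_one _)
  · intro n u hu hne h1
    rw [hθu n u hu] at h1
    apply hne
    have e2 : (Matrix.of fun i j => S (Φ (u i j) 1)) = (val c u).map (algebraMap ℂ A) := by
      have e3 : (val c' u).map (algebraMap ℂ A) * (val c u).map (algebraMap ℂ A) = 1 := by
        rw [← Matrix.map_mul, mul_eq_one_comm.mp (hcc' n u hu)]
        exact Matrix.map_one _ (map_zero _) (map_one _)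
      calc (Matrix.of fun i j => S (Φ (u i j) 1))
          = (Matrix.of fun i j => S (Φ (u i j) 1)) *
            ((val c' u).map (algebraMap ℂ A) * (val c u).map (algebraMap ℂ A)) := by
              rw [e3, mul_one]
        _ = _ := by rw [← mul_assoc, h1, one_mul]
    refine end_one hδ hΦ hu hlQ hrP (val_unitary hu.star_mul hcM) (X := val c u) ?_
    -- `W` at time one
    obtain ⟨F, hFt⟩ := hF 1
    have h2 := W_fixed (u := u) hG hFt hu
    have hW : ∀ i j, W P Φ u 1 i j = P.l (S (W P Φ u 1 i j)) := by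
      intro i j
      have h3 := fixed_point 𝔾 hG he hS' (congrFun (congrFun h2 i) j)
      have h4 : S (W P Φ u 1 i j) = S' (W P Φ u 1 i j) := by
        rw [h3, hSl, ← h3]
      rw [h4]
      exact h3
    have h5 : ∀ i j, S (Φ (u i j) 1) = S (W P Φ u 1 i j) := by
      intro i j
      have e4 : ev Φ 1 (u i j) = ∑ k, W P Φ u 1 i k * P.r (u k j) := by
        have := congrFun (congrFun (W_mul_r (P := P) (Φ := Φ) (t := 1) hu.star_mul) i) j
        rw [Matrix.mul_apply] at this
        exact this.symm
      have e5 : val e u = 1 := val_counit 𝔾 hu heM (he e)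
      rw [← ev_apply, e4, map_sum]
      have e6 : ∀ k, S (W P Φ u 1 i k * P.r (u k j)) =
          S (W P Φ u 1 i k) * algebraMap ℂ A ((1 : Matrix (Fin n) (Fin n) ℂ) k j) := by
        intro k
        rw [map_mul, hSr, ← e5]
        rfl
      simp only [e6, Matrix.one_apply]
      simp
    ext i j
    rw [hW, ← h5]
    have h6 := congrFun (congrFun e2 i) j
    rw [Matrix.of_apply] at h6
    rw [h6, Matrix.map_apply, Matrix.map_apply, AlgHomClass.commutes]

end Pool.Agent.MP_b3a7e3_al
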