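import Mathlib
import Pool.Agent.Lib.MP_b3a7e3_al.PathHom

set_option autoImplicit false
set_option maxHeartbeats 4000000

open scoped ComplexOrder Matrix Topology
open ComplexConjugate Filter

namespace Pool.Agent.MP_b3a7e3_al

universe u

variable {H HH HHH A AH AHH : Type u} [CStarAlgebra H] [CStarAlgebra HH] [CStarAlgebra HHH]
  [CStarAlgebra A] [CStarAlgebra AH] [CStarAlgebra AHH] {n : ℕ}

/-- The algebraic two-sided ideal generated by a family. -/
noncomputable def genIdeal {ι : Type*} (y : ι → H) : Submodule ℂ H :=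
  Submodule.span ℂ {x | ∃ (a b : H) (i : ι), x = a * y i * b}

theorem gen_mem_genIdeal {ι : Type*} (y : ι → H) (i : ι) : y i ∈ genIdeal y :=
  Submodule.subset_span ⟨1, 1, i, by rw [one_mul, mul_one]⟩

theorem mul_mem_genIdeal {ι : Type*} {y : ι → H} (a : H) {x : H} (hx : x ∈ genIdeal y)
    (b : H) : a * x * b ∈ genIdeal y := by
  refine Submodule.span_induction ?_ ?_ ?_ ?_ hx
  · rintro _ ⟨c, d, i, rfl⟩
    exact Submodule.subset_span ⟨a * c, d * b, i, by noncomm_ring⟩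
  · rw [mul_zero, zero_mul]; exact Submodule.zero_mem _
  · intro x y _ _ h1 h2
    rw [mul_add, add_mul]; exact Submodule.add_mem _ h1 h2
  · intro z x _ h1
    rw [mul_smul_comm, smul_mul_assoc]; exact Submodule.smul_mem _ _ h1

/-- one step of the construction -/
theorem exists_approx [Nontrivial A] {ι : Type*} (y : ι → H) (π : H →⋆ₐ[ℂ] A)
    {ε : ℝ} (hε : 0 < ε) (hle : ∀ i, ‖π (y i)‖ ≤ ε) (hge : ∃ i, ‖π (y i)‖ = ε) :
    ∃ (f : H →ₗ[ℂ] ℂ) (m : H → ℝ), (∀ h, ‖f h‖ ≤ m h) ∧ (∀ h, 0 ≤ m h) ∧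
      (∀ a h b, m (a * h * b) ≤ ‖a‖ * m h * ‖b‖) ∧ (∀ h h', m (h + h') ≤ m h + m h') ∧
      (∀ (c : ℂ) h, m (c • h) ≤ ‖c‖ * m h) ∧ (m 0 ≤ 0) ∧
      (∀ x y, m (x * y) ≤ ε * m x * m y) ∧
      (∀ i, m (y i) ≤ 1) ∧ ∃ i, 1 / 2 ≤ ‖f (y i)‖ := by
  obtain ⟨i₀, hi₀⟩ := hge
  obtain ⟨ω, hω, hωle⟩ := exists_state (π (y i₀))
  have hεi : 0 < ε⁻¹ := inv_pos.mpr hε
  have hcn : ‖((ε⁻¹ : ℝ) : ℂ)‖ = ε⁻¹ := by
    rw [Complex.norm_real, Real.norm_of_nonneg hεi.le]
  refine ⟨((ε⁻¹ : ℝ) : ℂ) • (ω.toLinearMap ∘ₗ (π : H →ₗ[ℂ] A)), fun h => ε⁻¹ * ‖π h‖,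
    ?_, ?_, ?_, ?_, ?_, ?_, ?_, ?_, i₀, ?_⟩
  · intro h
    change ‖((ε⁻¹ : ℝ) : ℂ) * ω (π h)‖ ≤ _
    rw [norm_mul, hcn]
    exact mul_le_mul_of_nonneg_left (hω.norm_le _) hεi.le
  · intro h; positivity
  · intro a h b
    simp only [map_mul]
    have h1 : ‖π a * π h * π b‖ ≤ ‖a‖ * ‖π h‖ * ‖b‖ := by
      refine (norm_mul_le _ _).trans ?_
      refine mul_le_mul ((norm_mul_le _ _).trans ?_) (NonUnitalStarAlgHom.norm_apply_le π b)
        (norm_nonneg _) (by positivity)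
      exact mul_le_mul_of_nonneg_right (NonUnitalStarAlgHom.norm_apply_le π a) (norm_nonneg _)
    calc ε⁻¹ * ‖π a * π h * π b‖ ≤ ε⁻¹ * (‖a‖ * ‖π h‖ * ‖b‖) :=
          mul_le_mul_of_nonneg_left h1 hεi.le
      _ = ‖a‖ * (ε⁻¹ * ‖π h‖) * ‖b‖ := by ring
  · intro h h'
    simp only [map_add]
    rw [← mul_add]
    exact mul_le_mul_of_nonneg_left (norm_add_le _ _) hεi.le
  · intro c h
    simp only [map_smul, norm_smul]
    exact le_of_eq (by ring)
  · simp
  · intro x y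
    simp only [map_mul]
    calc ε⁻¹ * ‖π x * π y‖ ≤ ε⁻¹ * (‖π x‖ * ‖π y‖) :=
          mul_le_mul_of_nonneg_left (norm_mul_le _ _) hεi.le
      _ = ε * (ε⁻¹ * ‖π x‖) * (ε⁻¹ * ‖π y‖) := by
          field_simp
  · intro i
    calc ε⁻¹ * ‖π (y i)‖ ≤ ε⁻¹ * ε := mul_le_mul_of_nonneg_left (hle i) hεi.le
      _ = 1 := inv_mul_cancel₀ hε.ne'
  · change 1 / 2 ≤ ‖((ε⁻¹ : ℝ) : ℂ) * ω (π _)‖
    rw [norm_mul, hcn]
    rw [hi₀] at hωle
    calc (1 / 2 : ℝ) = ε⁻¹ * (ε / 2) := by field_simp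
      _ ≤ _ := mul_le_mul_of_nonneg_left (by linarith) hεi.le

/-- If there are *-homomorphisms for which the elements of a finite family are small but not all
zero, then there is a tangent functional. -/
theorem exists_tangent_of_small [Nontrivial A] {ι : Type*} [Fintype ι] (y : ι → H)
    (hsmall : ∀ η : ℝ, 0 < η → ∃ (π : H →⋆ₐ[ℂ] A) (ε : ℝ), 0 < ε ∧ ε < η ∧
      (∀ i, ‖π (y i)‖ ≤ ε) ∧ ∃ i, ‖π (y i)‖ = ε) :
    ∃ φ : H →ₗ[ℂ] ℂ, (∀ x ∈ genIdeal y, ∀ z ∈ genIdeal y, φ (x * z) = 0) ∧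
      (∀ (a b : H) (i : ι), ‖φ (a * y i * b)‖ ≤ ‖a‖ * ‖b‖) ∧ ∃ i, φ (y i) ≠ 0 := by
  have hη : ∀ k : ℕ, (0 : ℝ) < 1 / ((k : ℝ) + 1) := fun k => by positivity
  choose π ε hε hεη hle hge using fun k : ℕ => hsmall (1 / ((k : ℝ) + 1)) (hη k)
  have hε0 : Tendsto ε atTop (𝓝 0) :=
    squeeze_zero (fun k => (hε k).le) (fun k => (hεη k).le) tendsto_one_div_add_atTop_nhds_zero_nat
  choose f m hfm hm0 hmmul hmadd hmsmul hmzero hmprod hmgen hfgen using
    fun k => exists_approx y (π k) (hε k) (hle k) (hge k)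
  -- bounds on the ideal
  have hbd : ∀ x ∈ genIdeal y, ∃ C, ∀ k, m k x ≤ C := by
    intro x hx
    refine Submodule.span_induction ?_ ?_ ?_ ?_ hx
    · rintro _ ⟨a, b, i, rfl⟩
      refine ⟨‖a‖ * ‖b‖, fun k => (hmmul k _ _ _).trans ?_⟩
      refine mul_le_mul_of_nonneg_right ?_ (norm_nonneg _)
      exact mul_le_of_le_one_right (norm_nonneg _) (hmgen k i)
    · exact ⟨0, fun k => hmzero k⟩
    · rintro x y - - ⟨C, hC⟩ ⟨D, hD⟩
      exact ⟨C + D, fun k => (hmadd k x y).trans (add_le_add (hC k) (hD k))⟩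
    · rintro c x - ⟨C, hC⟩
      exact ⟨‖c‖ * C, fun k => (hmsmul k c x).trans (mul_le_mul_of_nonneg_left (hC k)
        (norm_nonneg _))⟩
  set 𝒰 : Ultrafilter ℕ := hyperfilter ℕ with h𝒰
  have h𝒰le : (𝒰 : Filter ℕ) ≤ atTop := by
    rw [h𝒰, ← Nat.cofinite_eq_atTop]
    exact hyperfilter_le_cofinite
  have hlim : ∀ x : genIdeal y, ∃ z : ℂ, Tendsto (fun k => f k (x : H)) 𝒰 (𝓝 z) := by
    intro x
    obtain ⟨C, hC⟩ := hbd x x.2
    obtain ⟨z, -, hz⟩ := (isCompact_closedBall (0 : ℂ) C).ultrafilter_le_nhds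
      (𝒰.map fun k => f k (x : H)) (by
        rw [le_principal_iff]
        refine Filter.mem_map.mpr (Filter.univ_mem' fun k => ?_)
        change f k (x : H) ∈ Metric.closedBall (0 : ℂ) C
        rw [mem_closedBall_zero_iff]
        exact (hfm k _).trans (hC k))
    exact ⟨z, hz⟩
  choose φ₀ hφ₀ using hlim
  let φ₁ : genIdeal y →ₗ[ℂ] ℂ :=
    { toFun := φ₀
      map_add' := fun x y => by
        refine tendsto_nhds_unique (hφ₀ (x + y)) ?_
        have := (hφ₀ x).add (hφ₀ y)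
        refine this.congr fun k => ?_
        rw [Submodule.coe_add, map_add]
      map_smul' := fun c x => by
        refine tendsto_nhds_unique (hφ₀ (c • x)) ?_
        have := (hφ₀ x).const_mul c
        refine this.congr fun k => ?_
        rw [Submodule.coe_smul, map_smul, smul_eq_mul] }
  obtain ⟨φ, hφ⟩ := LinearMap.exists_extend φ₁
  have hφt : ∀ x (hx : x ∈ genIdeal y), Tendsto (fun k => f k x) 𝒰 (𝓝 (φ x)) := by
    intro x hx
    have h1 : φ x = φ₀ ⟨x, hx⟩ := congrArg (fun g : genIdeal y →ₗ[ℂ] ℂ => g ⟨x, hx⟩) hφ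
    rw [h1]
    exact hφ₀ ⟨x, hx⟩
  refine ⟨φ, ?_, ?_, ?_⟩
  · intro x hx z hz
    have hxz : x * z ∈ genIdeal y := by
      have := mul_mem_genIdeal x hz 1
      rwa [mul_one] at this
    obtain ⟨C, hC⟩ := hbd x hx
    obtain ⟨D, hD⟩ := hbd z hz
    have hC0 : 0 ≤ C := (hm0 0 x).trans (hC 0)
    have h1 : Tendsto (fun k => f k (x * z)) 𝒰 (𝓝 0) := by
      rw [tendsto_zero_iff_norm_tendsto_zero]
      refine squeeze_zero (fun k => norm_nonneg _) (g := fun k => ε k * C * D) (fun k => ?_) ?_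
      · refine (hfm k _).trans ((hmprod k x z).trans ?_)
        refine mul_le_mul ?_ (hD k) (hm0 k z) (by have := (hε k).le; positivity)
        exact mul_le_mul_of_nonneg_left (hC k) (hε k).le
      · have := ((hε0.mono_left h𝒰le).mul_const C).mul_const D
        simpa using this
    exact tendsto_nhds_unique (hφt _ hxz) h1
  · intro a b i
    have hmem := mul_mem_genIdeal a (gen_mem_genIdeal y i) b
    have h1 := (hφt _ hmem).norm
    refine le_of_tendsto h1 (Eventually.of_forall fun k => ?_)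
    refine (hfm k _).trans ((hmmul k _ _ _).trans ?_)
    refine mul_le_mul_of_nonneg_right ?_ (norm_nonneg _)
    exact mul_le_of_le_one_right (norm_nonneg _) (hmgen k i)
  · by_contra hcon
    push Not at hcon
    have h1 : Tendsto (fun k => fun p : ι => f k (y p)) 𝒰 (𝓝 (fun _ : ι => (0 : ℂ))) := by
      refine tendsto_pi_nhds.mpr fun p => ?_
      have := hφt _ (gen_mem_genIdeal y p)
      rwa [hcon] at this
    have h2 : (1 / 2 : ℝ) ≤ ‖(fun _ : ι => (0 : ℂ))‖ := by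
      refine ge_of_tendsto h1.norm (Eventually.of_forall fun k => ?_)
      obtain ⟨i, hi⟩ := hfgen k
      exact hi.trans (norm_le_pi_norm (fun p : ι => f k (y p)) i)
    have h3 : ‖(fun _ : ι => (0 : ℂ))‖ = 0 := by
      have : (fun _ : ι => (0 : ℂ)) = 0 := rfl
      rw [this, norm_zero]
    rw [h3] at h2
    norm_num at h2

/-- tangent functionals from an equivariant map to the join -/
theorem exists_tangent [Nontrivial A] {ι : Type*} [Fintype ι] (y : ι → H)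
    {θ : unitInterval → (H →⋆ₐ[ℂ] A)} (hθc : ∀ h, Continuous fun t => θ t h)
    (h0 : ∀ i, θ 0 (y i) = 0) (h1 : ∃ i, θ 1 (y i) ≠ 0) :
    ∃ φ : H →ₗ[ℂ] ℂ, (∀ x ∈ genIdeal y, ∀ z ∈ genIdeal y, φ (x * z) = 0) ∧
      (∀ (a b : H) (i : ι), ‖φ (a * y i * b)‖ ≤ ‖a‖ * ‖b‖) ∧ ∃ i, φ (y i) ≠ 0 := by
  set c : unitInterval → (ι → A) := fun t p => θ t (y p) with hc
  have hcc : Continuous c := continuous_pi fun p => hθc _
  have hc0 : c 0 = 0 := by
    funext p; exact h0 p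
  have hc1 : c 1 ≠ 0 := by
    intro hz
    obtain ⟨i, hi⟩ := h1
    exact hi (congrFun hz i)
  have hpos : 0 < ‖c 1‖ := norm_pos_iff.mpr hc1
  refine exists_tangent_of_small (A := A) y fun η hη => ?_
  set ε : ℝ := min ‖c 1‖ (η / 2) with hεdef
  have hε : 0 < ε := lt_min hpos (by positivity)
  have hεη : ε < η := (min_le_right _ _).trans_lt (by linarith)
  obtain ⟨t, ht⟩ := mem_range_of_exists_le_of_exists_ge (f := fun t => ‖c t‖) (c := ε) hcc.norm
      ⟨0, by simp only [hc0, norm_zero]; exact hε.le⟩ ⟨1, min_le_left _ _⟩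
  have ht' : ‖c t‖ = ε := ht
  refine ⟨θ t, ε, hε, hεη, fun i => ?_, ?_⟩
  · rw [← ht']
    exact norm_le_pi_norm (c t) i
  · by_contra hcon
    push Not at hcon
    have h2 : ‖c t‖ < ε := by
      rw [pi_norm_lt_iff hε]
      intro p
      refine lt_of_le_of_ne ?_ (hcon p)
      rw [← ht']
      exact norm_le_pi_norm (c t) p
    exact absurd ht' h2.ne

theorem norm_entry_le_one [Nontrivial H] (w : unitary (Matrix (Fin n) (Fin n) H)) (i j : Fin n) :
    ‖(w : Matrix (Fin n) (Fin n) H) i j‖ ≤ 1 := by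
  obtain ⟨f, hf, -⟩ := exists_state (1 : H)
  let _ := CStarAlgebra.spectralOrder H
  have _ := CStarAlgebra.spectralOrderedRing H
  have h1 : ∑ k, (w : Matrix (Fin n) (Fin n) H) i k * star ((w : Matrix (Fin n) (Fin n) H) i k)
      = 1 := by
    have h := congrFun (congrFun (Unitary.coe_mul_star_self w) i) i
    rw [Matrix.mul_apply, Matrix.one_apply_eq] at h
    exact h
  have h2 : (w : Matrix (Fin n) (Fin n) H) i j * star ((w : Matrix (Fin n) (Fin n) H) i j) ≤ 1 := by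
    rw [← h1]
    exact Finset.single_le_sum
      (f := fun k => (w : Matrix (Fin n) (Fin n) H) i k *
        star ((w : Matrix (Fin n) (Fin n) H) i k))
      (fun k _ => mul_star_self_nonneg _) (Finset.mem_univ j)
  have h3 : ‖(w : Matrix (Fin n) (Fin n) H) i j * star ((w : Matrix (Fin n) (Fin n) H) i j)‖ ≤
      ‖(1 : H)‖ := CStarAlgebra.norm_le_norm_of_nonneg_of_le (mul_star_self_nonneg _) h2
  rw [CStarRing.norm_self_mul_star, CStarRing.norm_one] at h3
  nlinarith [norm_nonneg ((w : Matrix (Fin n) (Fin n) H) i j)]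

theorem matrix_group_case (𝔾 : CompactQuantumGroup H HH HHH)
    (G : Subgroup (unitary (Matrix (Fin n) (Fin n) H))) (X : Set G)
    (hfin : X.Finite)
    (hgl : ∀ x ∈ X, IsCorep 𝔾 ((x : unitary (Matrix (Fin n) (Fin n) H)) : Matrix (Fin n) (Fin n) H))
    (hne : ∃ x ∈ X, x ≠ 1)
    (hom : ∀ ψ : G → ℝ, (∀ a ∈ Subgroup.normalClosure X, ∀ b ∈ Subgroup.normalClosure X,
      ψ (a * b) = ψ a + ψ b) → (∀ x ∈ X, ∃ C, ∀ g : G, |ψ (g * x * g⁻¹)| ≤ C) →
      ∀ x ∈ X, ψ x = 0) : NoEquivariantMap 𝔾 := by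
  rintro A AH AHH _ _ _ P Q δ hδ - ⟨α⟩ ⟨Φ, hΦ⟩
  obtain ⟨fα, hfα, -⟩ := isState_of_char α
  have : Nontrivial A := nontrivial_of_state ⟨fα, hfα⟩
  obtain ⟨θ, hθc, hθ0, hθ1⟩ := exists_path hδ α hΦ
  have hXf := hfin.fintype
  let mt : G → Matrix (Fin n) (Fin n) H := fun g =>
    ((g : unitary (Matrix (Fin n) (Fin n) H)) : Matrix (Fin n) (Fin n) H)
  let d : G → Matrix (Fin n) (Fin n) H := fun g => mt g - 1
  let y : X × Fin n × Fin n → H := fun p => d (p.1 : G) p.2.1 p.2.2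
  have hone : ∀ t i j, θ t ((1 : Matrix (Fin n) (Fin n) H) i j) =
      (1 : Matrix (Fin n) (Fin n) A) i j := by
    intro t i j
    by_cases hij : i = j
    · subst hij; simp
    · simp [hij]
  have hmt1 : mt 1 = 1 := rfl
  have hmtinj : ∀ g : G, mt g = 1 → g = 1 := by
    intro g hg
    exact Subtype.ext (Subtype.ext hg)
  obtain ⟨φ, hφ0, hφb, ⟨⟨⟨x₀, hx₀⟩, i₀, j₀⟩, hφne⟩⟩ := exists_tangent y hθc (by
      rintro ⟨⟨x, hx⟩, i, j⟩
      have h1 := congrFun (congrFun (hθ0 n _ (hgl x hx)) i) j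
      rw [Matrix.map_apply] at h1
      change θ 0 (mt x i j - (1 : Matrix (Fin n) (Fin n) H) i j) = 0
      rw [map_sub, hone]
      exact sub_eq_zero.mpr h1) (by
      obtain ⟨x, hx, hx1⟩ := hne
      by_contra hcon
      push Not at hcon
      refine hθ1 n _ (hgl x hx) (fun h => hx1 (hmtinj x h)) ?_
      ext i j
      have h2 := hcon ⟨⟨x, hx⟩, i, j⟩
      change θ 1 (mt x i j - (1 : Matrix (Fin n) (Fin n) H) i j) = 0 at h2
      rw [map_sub, hone, sub_eq_zero] at h2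
      exact h2)
  have hnt : Nontrivial H := by
    refine nontrivial_of_ne (y ⟨⟨x₀, hx₀⟩, i₀, j₀⟩) 0 fun h0 => hφne ?_
    rw [h0, map_zero]
  have hmul : ∀ a b : G, mt (a * b) = mt a * mt b := fun a b => rfl
  have hinv : ∀ g : G, mt g * mt g⁻¹ = 1 := fun g => by
    rw [← hmul, mul_inv_cancel]; rfl
  have hinv' : ∀ g : G, mt g⁻¹ * mt g = 1 := fun g => by
    rw [← hmul, inv_mul_cancel]; rfl
  have hconj : ∀ g x : G, d (g * x * g⁻¹) = mt g * d x * mt g⁻¹ := by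
    intro g x
    change mt (g * x * g⁻¹) - 1 = mt g * (mt x - 1) * mt g⁻¹
    rw [hmul, hmul, mul_sub, sub_mul, mul_one, hinv]
  have hsummem : ∀ (M N K : Matrix (Fin n) (Fin n) H), (∀ k l, N k l ∈ genIdeal y) →
      ∀ i j, (M * N * K) i j ∈ genIdeal y := by
    intro M N K hN i j
    rw [Matrix.mul_apply]
    refine Submodule.sum_mem _ fun l _ => ?_
    rw [Matrix.mul_apply, Finset.sum_mul]
    refine Submodule.sum_mem _ fun k _ => ?_
    exact mul_mem_genIdeal _ (hN k l) _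
  have hmem : ∀ g ∈ Subgroup.normalClosure X, ∀ i j, d g i j ∈ genIdeal y := by
    intro g hg
    unfold Subgroup.normalClosure at hg
    refine Subgroup.closure_induction ?_ ?_ ?_ ?_ hg
    · intro z hz
      obtain ⟨x, hx, hxz⟩ := Group.mem_conjugatesOfSet_iff.mp hz
      obtain ⟨c, rfl⟩ := isConj_iff.mp hxz
      rw [hconj]
      exact hsummem _ _ _ fun k l => gen_mem_genIdeal y ⟨⟨x, hx⟩, k, l⟩
    · intro i j
      have : d 1 = 0 := by
        change mt 1 - 1 = 0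
        rw [hmt1, sub_self]
      rw [this]; exact Submodule.zero_mem _
    · intro a b _ _ ha hb i j
      have : d (a * b) = d a + mt a * d b * 1 := by
        change mt (a * b) - 1 = (mt a - 1) + mt a * (mt b - 1) * 1
        rw [hmul]; noncomm_ring
      rw [this]
      exact Submodule.add_mem _ (ha i j) (hsummem _ _ _ hb i j)
    · intro a _ ha i j
      have : d a⁻¹ = (-mt a⁻¹) * d a * 1 := by
        change mt a⁻¹ - 1 = (-mt a⁻¹) * (mt a - 1) * 1
        rw [mul_one, neg_mul, mul_sub, hinv', mul_one, neg_sub]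
      rw [this]
      exact hsummem _ _ _ ha i j
  have hadd : ∀ a ∈ Subgroup.normalClosure X, ∀ b ∈ Subgroup.normalClosure X,
      φ (d (a * b) i₀ j₀) = φ (d a i₀ j₀) + φ (d b i₀ j₀) := by
    intro a ha b hb
    have : d (a * b) = d a + d b + d a * d b := by
      change mt (a * b) - 1 = (mt a - 1) + (mt b - 1) + (mt a - 1) * (mt b - 1)
      rw [hmul]; noncomm_ring
    rw [this, Matrix.add_apply, Matrix.add_apply, Matrix.mul_apply, map_add, map_add, map_sum,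
      Finset.sum_eq_zero fun k _ => hφ0 _ (hmem a ha i₀ k) _ (hmem b hb k j₀), add_zero]
  have hbound : ∀ x ∈ X, ∀ g : G, ‖φ (d (g * x * g⁻¹) i₀ j₀)‖ ≤ (n : ℝ) * n := by
    intro x hx g
    rw [hconj, Matrix.mul_apply, map_sum]
    refine (norm_sum_le _ _).trans ?_
    have h1 : ∀ l : Fin n, ‖φ ((mt g * d x) i₀ l * mt g⁻¹ l j₀)‖ ≤ n := by
      intro l
      rw [Matrix.mul_apply, Finset.sum_mul, map_sum]
      refine (norm_sum_le _ _).trans ?_
      calc ∑ k, ‖φ (mt g i₀ k * d x k l * mt g⁻¹ l j₀)‖ ≤ ∑ _k : Fin n, (1 : ℝ) := by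
            refine Finset.sum_le_sum fun k _ => ?_
            refine (hφb _ _ ⟨⟨x, hx⟩, k, l⟩).trans ?_
            calc _ ≤ (1 : ℝ) * 1 := mul_le_mul (norm_entry_le_one _ _ _)
                  (norm_entry_le_one _ _ _) (norm_nonneg _) zero_le_one
              _ = 1 := one_mul 1
        _ = n := by simp
    calc ∑ l, ‖φ ((mt g * d x) i₀ l * mt g⁻¹ l j₀)‖ ≤ ∑ _l : Fin n, (n : ℝ) :=
          Finset.sum_le_sum fun l _ => h1 l
      _ = n * n := by simp
  have hre : (φ (d x₀ i₀ j₀)).re = 0 :=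
    hom (fun g => (φ (d g i₀ j₀)).re)
      (fun a ha b hb => by simp only [hadd a ha b hb, Complex.add_re])
      (fun x hx => ⟨_, fun g => (Complex.abs_re_le_norm _).trans (hbound x hx g)⟩) x₀ hx₀
  have him : (φ (d x₀ i₀ j₀)).im = 0 :=
    hom (fun g => (φ (d g i₀ j₀)).im)
      (fun a ha b hb => by simp only [hadd a ha b hb, Complex.add_im])
      (fun x hx => ⟨_, fun g => (Complex.abs_im_le_norm _).trans (hbound x hx g)⟩) x₀ hx₀
  exact hφne (Complex.ext hre him)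

end Pool.Agent.MP_b3a7e3_al
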