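import Mathlib
import Pool.Agent.Lib.MP_b3a7e3_al.Defs

set_option autoImplicit false

namespace Pool.Agent.MP_b3a7e3_al

universe u

variable {A H HH HHH AH AHH : Type u} [CStarAlgebra A] [CStarAlgebra H] [CStarAlgebra HH]
  [CStarAlgebra HHH] [CStarAlgebra AH] [CStarAlgebra AHH]

/-- `(H, Δ)` is non-trivial: `H ≠ ℂ1`. -/
def CompactQuantumGroup.NonTrivial (_ : CompactQuantumGroup H HH HHH) : Prop :=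
  ∃ h : H, ∀ z : ℂ, h ≠ algebraMap ℂ H z

/-- `Φ` is an equivariant *-homomorphism from `(A, δ)` to the join
`{f ∈ C([0,1], A ⊗ H) : f(0) ∈ ℂ ⊗ H, f(1) ∈ δ(A)}`, on which `(H, Δ)` acts by `id ⊗ Δ`, applied
pointwise in `t ∈ [0,1]`. Equivariance is `(id ⊗ Δ) Φ = (Φ ⊗ id) δ`; here
`G = id ⊗ Δ : A ⊗ H → A ⊗ H ⊗ H` and `F = Φ ⊗ id : A ⊗ H → C([0,1], A ⊗ H ⊗ H)`. -/
structure IsTypeOneMap (𝔾 : CompactQuantumGroup H HH HHH) (P : MinTensor A H AH)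
    (Q : MinTensor AH H AHH) (δ : A →⋆ₐ[ℂ] AH) (Φ : A →⋆ₐ[ℂ] C(unitInterval, AH)) : Prop where
  at_zero : ∀ a, ∃ h, Φ a 0 = P.r h
  at_one : ∀ a, ∃ a', Φ a 1 = δ a'
  equivariant : ∃ (G : AH →⋆ₐ[ℂ] AHH) (F : AH →⋆ₐ[ℂ] C(unitInterval, AHH)),
    IsIdTensorMap P 𝔾.t₂ Q 𝔾.Δ G ∧
    (∀ a t, F (P.l a) t = Q.l (Φ a t)) ∧ (∀ h t, F (P.r h) t = Q.r h) ∧
    ∀ a t, G (Φ a t) = F (δ a) t

end Pool.Agent.MP_b3a7e3_al
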