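import Mathlib
import Pool.Agent.Lib.MP_b3a7e3_al.TypeOneDefs

set_option autoImplicit false

open scoped ComplexOrder

namespace Pool.Agent.MP_b3a7e3_al.TypeOne

universe u

section SW

variable {Z Y₁ Y₂ : Type*} [TopologicalSpace Z] [CompactSpace Z]
  [TopologicalSpace Y₁] [CompactSpace Y₁] [T2Space Y₁]
  [TopologicalSpace Y₂] [CompactSpace Y₂] [T2Space Y₂]

/-- continuous complex functions separate the points of a compact Hausdorff space -/
lemma exists_separating {Y : Type*} [TopologicalSpace Y] [CompactSpace Y] [T2Space Y] {y y' : Y}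
    (h : y ≠ y') : ∃ a : C(Y, ℂ), a y ≠ a y' := by
  obtain ⟨f, hf0, hf1, -⟩ := exists_continuous_zero_one_of_isClosed
    (isClosed_singleton (x := y)) (isClosed_singleton (x := y'))
    (by simpa using h)
  refine ⟨⟨fun x => (f x : ℂ), by fun_prop⟩, ?_⟩
  have h0 : f y = 0 := hf0 (Set.mem_singleton y)
  have h1 : f y' = 1 := hf1 (Set.mem_singleton y')
  simp [h0, h1]

/-- The products of functions pulled back along `p` and `q`. -/
def prodSub (p : C(Z, Y₁)) (q : C(Z, Y₂)) : Submonoid C(Z, ℂ) where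
  carrier := {t | ∃ (a : C(Y₁, ℂ)) (b : C(Y₂, ℂ)), t = a.comp p * b.comp q}
  one_mem' := ⟨1, 1, by ext; simp⟩
  mul_mem' := by
    rintro _ _ ⟨a, b, rfl⟩ ⟨a', b', rfl⟩
    exact ⟨a * a', b * b', by ext; simp; ring⟩

theorem dense_span_pair (p : C(Z, Y₁)) (q : C(Z, Y₂))
    (hinj : ∀ z z', p z = p z' → q z = q z' → z = z') :
    Dense (Submodule.span ℂ {t : C(Z, ℂ) | ∃ (a : C(Y₁, ℂ)) (b : C(Y₂, ℂ)),
      t = a.comp p * b.comp q} : Set C(Z, ℂ)) := by
  classical
  set S := prodSub p q with hS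
  have hspan : Subalgebra.toSubmodule (Algebra.adjoin ℂ (S : Set C(Z, ℂ)))
      = Submodule.span ℂ (S : Set C(Z, ℂ)) := by
    rw [Algebra.adjoin_eq_span, Submonoid.closure_eq]
  have hmem : ∀ t, t ∈ Algebra.adjoin ℂ (S : Set C(Z, ℂ)) ↔
      t ∈ Submodule.span ℂ (S : Set C(Z, ℂ)) := by
    intro t
    rw [← hspan]; rfl
  have hstar : ∀ t ∈ Algebra.adjoin ℂ (S : Set C(Z, ℂ)),
      star t ∈ Algebra.adjoin ℂ (S : Set C(Z, ℂ)) := by
    intro t ht
    rw [hmem] at ht ⊢
    induction ht using Submodule.span_induction with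
    | mem x hx =>
      obtain ⟨a, b, rfl⟩ := hx
      exact Submodule.subset_span ⟨star a, star b, by ext; simp⟩
    | zero => simp
    | add x y _ _ hx hy => rw [star_add]; exact Submodule.add_mem _ hx hy
    | smul c x _ hx => rw [star_smul]; exact Submodule.smul_mem _ _ hx
  let A : StarSubalgebra ℂ C(Z, ℂ) :=
    { Algebra.adjoin ℂ (S : Set C(Z, ℂ)) with star_mem' := fun {t} ht => hstar t ht }
  have hA : A.SeparatesPoints := by
    intro z z' hzz
    by_cases h1 : p z = p z'
    · have h2 : q z ≠ q z' := fun h2 => hzz (hinj z z' h1 h2)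
      obtain ⟨b, hb⟩ := exists_separating h2
      refine ⟨_, ⟨b.comp q, ?_, rfl⟩, hb⟩
      exact Algebra.subset_adjoin ⟨1, b, by ext; simp⟩
    · obtain ⟨a, ha⟩ := exists_separating h1
      refine ⟨_, ⟨a.comp p, ?_, rfl⟩, ha⟩
      exact Algebra.subset_adjoin ⟨a, 1, by ext; simp⟩
  have htop := ContinuousMap.starSubalgebra_topologicalClosure_eq_top_of_separatesPoints A hA
  intro f
  have hf : f ∈ A.topologicalClosure := by rw [htop]; trivial
  have hcl : f ∈ closure (A : Set C(Z, ℂ)) := hf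
  have hset : (A : Set C(Z, ℂ)) = (Submodule.span ℂ (S : Set C(Z, ℂ)) : Set C(Z, ℂ)) := by
    ext t; exact hmem t
  rw [hset] at hcl
  exact hcl

end SW

section Tensor

variable (X Y : Type u) [TopologicalSpace X] [CompactSpace X] [T2Space X]
  [TopologicalSpace Y] [CompactSpace Y] [T2Space Y]

/-- evaluation at a point, as a continuous linear functional -/
noncomputable def evalCLM' (x : X) : C(X, ℂ) →L[ℂ] ℂ := ContinuousMap.evalCLM ℂ x

variable {X} in
lemma isState_eval (x : X) : IsState (evalCLM' X x) where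
  map_one := by simp [evalCLM']
  nonneg b := by
    simp only [evalCLM', ContinuousMap.evalCLM_apply, ContinuousMap.mul_apply,
      ContinuousMap.star_apply]
    exact star_mul_self_nonneg (b x)

variable {X} in
/-- states are nonnegative on pointwise nonnegative functions -/
lemma isState_nonneg_of_pointwise {φ : C(X, ℂ) →L[ℂ] ℂ} (hφ : IsState φ) (f : C(X, ℂ))
    (hf : ∀ x, 0 ≤ f x) : 0 ≤ φ f := by
  let s : C(X, ℂ) := ⟨fun x => ((Real.sqrt (f x).re : ℝ) : ℂ), by fun_prop⟩
  have hs : f = star s * s := by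
    ext x
    have h := hf x
    rw [Complex.nonneg_iff] at h
    have h2 : ((Real.sqrt (f x).re : ℝ) : ℂ) * ((Real.sqrt (f x).re : ℝ) : ℂ) = f x := by
      rw [← Complex.ofReal_mul, Real.mul_self_sqrt h.1]
      apply Complex.ext
      · simp
      · simp [← h.2]
    simp only [ContinuousMap.mul_apply, ContinuousMap.star_apply, s, ContinuousMap.coe_mk,
      Complex.star_def, Complex.conj_ofReal]
    exact h2.symm
  rw [hs]
  exact hφ.nonneg s

variable {X Y} in
/-- the product functional -/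
noncomputable def prodState (φ : C(X, ℂ) →L[ℂ] ℂ) (ψ : C(Y, ℂ) →L[ℂ] ℂ) :
    C(X × Y, ℂ) →L[ℂ] ℂ where
  toFun f := φ ⟨fun x => ψ (f.curry x), by fun_prop⟩
  map_add' f g := by
    rw [← map_add]; congr 1; ext x
    simp only [ContinuousMap.add_apply, ContinuousMap.coe_mk]
    rw [← map_add]; rfl
  map_smul' c f := by
    rw [← map_smul]; congr 1; ext x
    simp only [ContinuousMap.smul_apply, ContinuousMap.coe_mk, RingHom.id_apply]
    rw [← map_smul]; rfl
  cont := by
    refine φ.continuous.comp ?_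
    have h1 : Continuous (fun f : C(X × Y, ℂ) => f.curry) := ContinuousMap.continuous_curry
    have h2 : Continuous (fun g : C(X, C(Y, ℂ)) => (⟨fun y => ψ y, ψ.continuous⟩ : C(C(Y, ℂ), ℂ)).comp g) :=
      ContinuousMap.continuous_postcomp _
    exact h2.comp h1

/-- `C(X × Y)` is the minimal tensor product of `C(X)` and `C(Y)`. -/
noncomputable def commTensor : MinTensor C(X, ℂ) C(Y, ℂ) C(X × Y, ℂ) where
  l := ContinuousMap.compStarAlgHom' ℂ ℂ ⟨Prod.fst, continuous_fst⟩
  r := ContinuousMap.compStarAlgHom' ℂ ℂ ⟨Prod.snd, continuous_snd⟩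
  commute a b := mul_comm _ _
  dense := by
    refine dense_span_pair (⟨Prod.fst, continuous_fst⟩ : C(X × Y, X))
      (⟨Prod.snd, continuous_snd⟩ : C(X × Y, Y)) ?_
    rintro ⟨x, y⟩ ⟨x', y'⟩ h1 h2
    exact Prod.ext h1 h2
  product φ ψ hφ hψ := by
    refine ⟨prodState φ ψ, hφ, hψ, ⟨?_, ?_⟩, ?_⟩
    · show φ _ = 1
      rw [← hφ.map_one]; congr 1; ext x
      exact hψ.map_one
    · intro b
      refine isState_nonneg_of_pointwise hφ _ ?_
      intro x
      show 0 ≤ ψ ((star b * b).curry x)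
      have : (star b * b).curry x = star (b.curry x) * (b.curry x) := by ext y; rfl
      rw [this]
      exact hψ.nonneg _
    · intro a b
      show φ _ = φ a * ψ b
      have : (⟨fun x => ψ ((ContinuousMap.compStarAlgHom' ℂ ℂ ⟨Prod.fst, continuous_fst⟩ a *
          ContinuousMap.compStarAlgHom' ℂ ℂ ⟨Prod.snd, continuous_snd⟩ b : C(X × Y, ℂ)).curry x),
          by fun_prop⟩ : C(X, ℂ)) = ψ b • a := by
        ext x
        show ψ _ = ψ b * a x
        have h : (ContinuousMap.compStarAlgHom' ℂ ℂ ⟨Prod.fst, continuous_fst⟩ a *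
          ContinuousMap.compStarAlgHom' ℂ ℂ ⟨Prod.snd, continuous_snd⟩ b : C(X × Y, ℂ)).curry x
          = a x • b := by ext y; rfl
        rw [h, map_smul, smul_eq_mul, mul_comm]
      refine (congrArg φ this).trans ?_
      rw [map_smul, smul_eq_mul, mul_comm]
  separate t ht := by
    ext ⟨x, y⟩
    have := ht (evalCLM' X x) (evalCLM' Y y) (evalCLM' (X × Y) (x, y))
      ⟨isState_eval x, isState_eval y, isState_eval (x, y), fun a b => rfl⟩
    exact this

variable {X Y}

@[simp] lemma commTensor_l (a : C(X, ℂ)) (x : X) (y : Y) : (commTensor X Y).l a (x, y) = a x := rfl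

@[simp] lemma commTensor_r (b : C(Y, ℂ)) (x : X) (y : Y) : (commTensor X Y).r b (x, y) = b y := rfl

end Tensor

end Pool.Agent.MP_b3a7e3_al.TypeOne
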