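import Mathlib
import Pool.Agent.Lib.MP_b3a7e3_al.TypeOneComm

set_option autoImplicit false

open scoped ComplexOrder

namespace Pool.Agent.MP_b3a7e3_al.TypeOne

universe u

section

variable (G : Type u) [CommGroup G] [TopologicalSpace G] [IsTopologicalGroup G] [CompactSpace G]
  [T2Space G]
variable (X : Type u) [TopologicalSpace X] [CompactSpace X] [T2Space X] [MulAction G X]
  [ContinuousSMul G X]

/-- the coproduct `Δh(c,d) = h(cd)` -/
noncomputable def comul : C(G, ℂ) →⋆ₐ[ℂ] C(G × G, ℂ) :=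
  ContinuousMap.compStarAlgHom' ℂ ℂ ⟨fun p => p.1 * p.2, by fun_prop⟩

/-- the coaction `(δa)(x,c) = a(c • x)` -/
noncomputable def coact : C(X, ℂ) →⋆ₐ[ℂ] C(X × G, ℂ) :=
  ContinuousMap.compStarAlgHom' ℂ ℂ ⟨fun p => p.2 • p.1, by fun_prop⟩

@[simp] lemma comul_apply (h : C(G, ℂ)) (c d : G) : comul G h (c, d) = h (c * d) := rfl

@[simp] lemma coact_apply (a : C(X, ℂ)) (x : X) (c : G) : coact G X a (x, c) = a (c • x) := rfl

/-- `(id ⊗ Δ)(f)(x,c,d) = f(x,cd)` -/
noncomputable def idΔ : C(X × G, ℂ) →⋆ₐ[ℂ] C((X × G) × G, ℂ) :=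
  ContinuousMap.compStarAlgHom' ℂ ℂ ⟨fun p => (p.1.1, p.1.2 * p.2), by fun_prop⟩

lemma isIdTensorMap_idΔ : IsIdTensorMap (commTensor X G) (commTensor G G) (commTensor (X × G) G)
    (comul G) (idΔ G X) :=
  ⟨ContinuousMap.compStarAlgHom' ℂ ℂ ⟨fun p => (p.1.2, p.2), by fun_prop⟩,
    fun _ => rfl, fun _ => rfl, fun _ => rfl, fun _ => rfl⟩

lemma coactionIdentity_coact : CoactionIdentity (commTensor X G) (commTensor G G)
    (commTensor (X × G) G) (comul G) (coact G X) := by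
  refine ⟨ContinuousMap.compStarAlgHom' ℂ ℂ ⟨fun p => (p.1.2 • p.1.1, p.2), by fun_prop⟩,
    idΔ G X, ⟨fun _ => rfl, fun _ => rfl⟩, isIdTensorMap_idΔ G X, ?_⟩
  intro a
  ext ⟨⟨x, c⟩, d⟩
  show a (d • c • x) = a ((c * d) • x)
  rw [mul_comm, mul_smul]

/-- The compact group `G` as a compact quantum group. -/
noncomputable def classicalQG : CompactQuantumGroup C(G, ℂ) C(G × G, ℂ) C((G × G) × G, ℂ) where
  t₂ := commTensor G G
  t₃ := commTensor (G × G) G
  Δ := comul G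
  coassoc := by
    refine ⟨ContinuousMap.compStarAlgHom' ℂ ℂ ⟨fun p => (p.1.1 * p.1.2, p.2), by fun_prop⟩,
      idΔ G G, ⟨fun _ => rfl, fun _ => rfl⟩, isIdTensorMap_idΔ G G, ?_⟩
    intro a
    ext ⟨⟨x, c⟩, d⟩
    show a (x * c * d) = a (x * (c * d))
    rw [mul_assoc]
  dense_r := by
    refine dense_span_pair (⟨fun p => p.1 * p.2, by fun_prop⟩ : C(G × G, G))
      (⟨Prod.snd, continuous_snd⟩ : C(G × G, G)) ?_
    rintro ⟨x, y⟩ ⟨x', y'⟩ h1 h2
    simp only [ContinuousMap.coe_mk] at h1 h2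
    subst h2
    exact Prod.ext (mul_right_cancel h1) rfl
  dense_l := by
    refine dense_span_pair (⟨fun p => p.1 * p.2, by fun_prop⟩ : C(G × G, G))
      (⟨Prod.fst, continuous_fst⟩ : C(G × G, G)) ?_
    rintro ⟨x, y⟩ ⟨x', y'⟩ h1 h2
    simp only [ContinuousMap.coe_mk] at h1 h2
    subst h2
    exact Prod.ext rfl (mul_left_cancel h1)

lemma isAction_coact : IsAction (classicalQG G) (commTensor X G) (commTensor (X × G) G)
    (coact G X) where
  injective a b h := by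
    ext x
    have := congrArg (fun f : C(X × G, ℂ) => f (x, 1)) h
    simpa using this
  coaction := coactionIdentity_coact G X
  dense := by
    refine dense_span_pair (⟨fun p => p.2 • p.1, by fun_prop⟩ : C(X × G, X))
      (⟨Prod.snd, continuous_snd⟩ : C(X × G, G)) ?_
    rintro ⟨x, y⟩ ⟨x', y'⟩ h1 h2
    simp only [ContinuousMap.coe_mk] at h1 h2
    subst h2
    exact Prod.ext (smul_left_cancel _ h1) rfl

/-- a free action of a compact group gives a free coaction -/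
lemma isFree_coact (hfree : ∀ (c : G) (x : X), c • x = x → c = 1) :
    IsFree (commTensor X G) (coact G X) := by
  refine dense_span_pair (⟨Prod.fst, continuous_fst⟩ : C(X × G, X))
    (⟨fun p => p.2 • p.1, by fun_prop⟩ : C(X × G, X)) ?_
  rintro ⟨x, y⟩ ⟨x', y'⟩ h1 h2
  simp only [ContinuousMap.coe_mk] at h1 h2
  subst h1
  refine Prod.ext rfl ?_
  have h3 : (y'⁻¹ * y) • x = x := by rw [mul_smul, h2, inv_smul_smul]
  have h4 := hfree _ _ h3
  exact (inv_mul_eq_one.mp h4).symm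

lemma nonTrivial_classicalQG [Nontrivial G] : (classicalQG G).NonTrivial := by
  obtain ⟨c, d, hcd⟩ := exists_pair_ne G
  obtain ⟨a, ha⟩ := exists_separating hcd
  refine ⟨a, fun z hz => ha ?_⟩
  rw [hz]
  rfl

/-- The *-homomorphism `C(X) → C([0,1], C(X × G))` given by a homotopy `K : [0,1] × X → X`:
`a ↦ (t ↦ ((x,c) ↦ a(c • K(t,x))))` -/
noncomputable def joinHom (K : C(unitInterval × X, X)) :
    C(X, ℂ) →⋆ₐ[ℂ] C(unitInterval, C(X × G, ℂ)) where
  toFun a := ContinuousMap.curry (a.comp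
    (⟨fun p => p.2.2 • K (p.1, p.2.1), by fun_prop⟩ : C(unitInterval × (X × G), X)))
  map_one' := rfl
  map_mul' _ _ := rfl
  map_zero' := rfl
  map_add' _ _ := rfl
  commutes' _ := rfl
  map_star' _ := rfl

@[simp] lemma joinHom_apply (K : C(unitInterval × X, X)) (a : C(X, ℂ)) (t : unitInterval) (x : X)
    (c : G) : joinHom G X K a t (x, c) = a (c • K (t, x)) := rfl

/-- If `K(0,·)` is equivariant then `joinHom K a 0 ∈ δ(A)`. -/
lemma joinHom_equivariant_end (K : C(unitInterval × X, X)) (t : unitInterval)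
    (hK : ∀ (c : G) (x : X), K (t, c • x) = c • K (t, x)) (a : C(X, ℂ)) :
    ∃ a' : C(X, ℂ), joinHom G X K a t = coact G X a' := by
  refine ⟨a.comp ⟨fun x => K (t, x), by fun_prop⟩, ?_⟩
  ext ⟨x, c⟩
  show a (c • K (t, x)) = a (K (t, c • x))
  rw [hK]

/-- If `K(1,·)` is constant then `joinHom K a 1 ∈ 1 ⊗ C(G)`. -/
lemma joinHom_constant_end (K : C(unitInterval × X, X)) (t : unitInterval) (x₀ : X)
    (hK : ∀ x : X, K (t, x) = x₀) (a : C(X, ℂ)) :
    ∃ h : C(G, ℂ), joinHom G X K a t = (commTensor X G).r h := by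
  refine ⟨a.comp ⟨fun c => c • x₀, by fun_prop⟩, ?_⟩
  ext ⟨x, c⟩
  show a (c • K (t, x)) = a (c • x₀)
  rw [hK]

theorem isTypeOneMap_joinHom (K : C(unitInterval × X, X)) (x₀ : X)
    (h1 : ∀ (c : G) (x : X), K (1, c • x) = c • K (1, x)) (h0 : ∀ x : X, K (0, x) = x₀) :
    IsTypeOneMap (classicalQG G) (commTensor X G) (commTensor (X × G) G) (coact G X)
      (joinHom G X K) where
  at_zero := joinHom_constant_end G X K 0 x₀ h0
  at_one := joinHom_equivariant_end G X K 1 h1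
  equivariant := by
    refine ⟨idΔ G X, ⟨⟨⟨⟨⟨fun f => ContinuousMap.curry (f.comp
      (⟨fun p => (p.2.1.2 • K (p.1, p.2.1.1), p.2.2), by fun_prop⟩ :
        C(unitInterval × ((X × G) × G), X × G))), rfl⟩, fun _ _ => rfl⟩, rfl, fun _ _ => rfl⟩,
        fun _ => rfl⟩, fun _ => rfl⟩, isIdTensorMap_idΔ G X, fun _ _ => rfl, fun _ _ => rfl, ?_⟩
    intro a t
    ext ⟨⟨x, c⟩, d⟩
    show a ((c * d) • K (t, x)) = a (d • c • K (t, x))
    rw [mul_comm, mul_smul]

end

end Pool.Agent.MP_b3a7e3_al.TypeOne
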