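import Mathlib
import Pool.Agent.Lib.MP_b3a7e3_al.TypeOneClassical

set_option autoImplicit false

open scoped ComplexOrder ComplexConjugate

namespace Pool.Agent.MP_b3a7e3_al.TypeOne

/-- the explicit homotopy on `ℂ² ∖ 0` from `g(z,w) = (z w^(N-1), z^N + conj(w)^(N(N-1)))` to the
constant `(-1,0)` -/
noncomputable def hmap (N : ℕ) (t : ℝ) (p : ℂ × ℂ) : ℂ × ℂ :=
  ((1 - t) * (p.1 * p.2 ^ (N - 1)) - t, (1 - t) * (p.1 ^ N + (conj p.2) ^ (N * (N - 1))))

lemma hmap_ne_zero {N : ℕ} (hN : 2 ≤ N) {t : ℝ} (ht0 : 0 ≤ t) (ht1 : t ≤ 1) {p : ℂ × ℂ}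
    (hp : p ≠ 0) : hmap N t p ≠ 0 := by
  obtain ⟨z, w⟩ := p
  intro h
  simp only [hmap, Prod.mk_eq_zero] at h
  obtain ⟨h1, h2⟩ := h
  rcases eq_or_lt_of_le ht1 with rfl | ht1
  · simp at h1
  have h1t : ((1 : ℂ) - t) ≠ 0 := by
    intro h
    have : ((1 - t : ℝ) : ℂ) = 0 := by push_cast; exact h
    rw [Complex.ofReal_eq_zero] at this
    linarith
  have hQ : z ^ N + (conj w) ^ (N * (N - 1)) = 0 := by
    rcases mul_eq_zero.mp h2 with h | h
    · exact absurd h h1t
    · exact h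
  -- the first coordinate is a nonnegative real `s`
  have hP : z * w ^ (N - 1) = ((t / (1 - t) : ℝ) : ℂ) := by
    have h3 : ((1 : ℂ) - t) * (z * w ^ (N - 1)) = t := by linear_combination h1
    push_cast
    rw [eq_div_iff h1t, mul_comm]
    exact h3
  set s : ℝ := t / (1 - t) with hs
  have hs0 : 0 ≤ s := div_nonneg ht0 (by linarith)
  -- `P^N = -|w|^(2N(N-1))`
  have hPN : ((s ^ N : ℝ) : ℂ) = ((-(Complex.normSq w) ^ (N * (N - 1)) : ℝ) : ℂ) := by
    have hz : z ^ N = - (conj w) ^ (N * (N - 1)) := by linear_combination hQ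
    have : (z * w ^ (N - 1)) ^ N = -(w * conj w) ^ (N * (N - 1)) := by
      rw [mul_pow, ← pow_mul, mul_comm (N - 1) N, hz, mul_pow]
      ring
    rw [hP, Complex.mul_conj] at this
    push_cast
    exact this
  have hPN' : s ^ N = -(Complex.normSq w) ^ (N * (N - 1)) := Complex.ofReal_injective hPN
  have hw0 : (Complex.normSq w) ^ (N * (N - 1)) = 0 := by
    have ha : 0 ≤ s ^ N := pow_nonneg hs0 _
    have hb : 0 ≤ (Complex.normSq w) ^ (N * (N - 1)) := pow_nonneg (Complex.normSq_nonneg _) _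
    linarith
  have hw : w = 0 := by
    have := pow_eq_zero_iff (n := N * (N - 1)) (Nat.mul_pos (by omega) (by omega)).ne' |>.mp hw0
    exact Complex.normSq_eq_zero.mp this
  have hz : z = 0 := by
    subst hw
    have hne : N * (N - 1) ≠ 0 := (Nat.mul_pos (by omega) (by omega)).ne'
    simp only [map_zero, zero_pow hne, add_zero] at hQ
    exact pow_eq_zero_iff (by omega) |>.mp hQ
  exact hp (by rw [hz, hw]; rfl)

lemma hmap_zero_smul {N : ℕ} (hN : 2 ≤ N) (ζ : ℂ) (hζ : conj ζ * ζ = 1) (hζN : ζ ^ (N * N) = 1)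
    (p : ℂ × ℂ) : hmap N 0 (ζ * p.1, ζ * p.2) = (ζ ^ N * (hmap N 0 p).1, ζ ^ N * (hmap N 0 p).2) := by
  obtain ⟨z, w⟩ := p
  obtain ⟨m, rfl⟩ : ∃ m, N = m + 1 := ⟨N - 1, by omega⟩
  have hc : (conj ζ) ^ ((m + 1) * m) = ζ ^ (m + 1) := by
    have h1 : (conj ζ) ^ ((m + 1) * m) * ζ ^ ((m + 1) * m) = 1 := by
      rw [← mul_pow, hζ, one_pow]
    have h2 : ζ ^ (m + 1) * ζ ^ ((m + 1) * m) = 1 := by
      rw [← pow_add, ← hζN]; congr 1; ring
    have hne : ζ ^ ((m + 1) * m) ≠ 0 := by
      intro h; rw [h, mul_zero] at h1; exact zero_ne_one h1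
    exact mul_right_cancel₀ hne (h1.trans h2.symm)
  simp only [hmap, Complex.ofReal_zero, sub_zero, one_mul, Nat.add_sub_cancel, map_mul,
    mul_pow, Prod.mk.injEq, hc]
  constructor <;> ring

lemma continuous_hmap (N : ℕ) : Continuous (fun q : ℝ × (ℂ × ℂ) => hmap N q.1 q.2) := by
  unfold hmap
  fun_prop

/-- the 3-sphere (the unit sphere of `ℂ²` for the maximum norm) -/
abbrev S3 : Type := Metric.sphere (0 : ℂ × ℂ) 1

/-- `N_k = 2^(2^k)` -/
def NN (k : ℕ) : ℕ := 2 ^ 2 ^ k

lemma two_le_NN (k : ℕ) : 2 ≤ NN k := by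
  unfold NN
  calc 2 = 2 ^ 1 := by norm_num
    _ ≤ 2 ^ 2 ^ k := Nat.pow_le_pow_right (by norm_num) Nat.one_le_two_pow

lemma NN_succ (k : ℕ) : NN (k + 1) = NN k * NN k := by
  unfold NN
  rw [← pow_add, pow_succ]; congr 1; ring

/-- the group `G = {(c_k) : c_k^(N_k) = 1, c_(k+1)^(N_k) = c_k}` -/
def grp : Subgroup (ℕ → Circle) where
  carrier := {c | ∀ k, c k ^ NN k = 1 ∧ c (k + 1) ^ NN k = c k}
  one_mem' k := by simp
  mul_mem' {c d} hc hd k := by
    simp only [Pi.mul_apply, mul_pow]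
    exact ⟨by rw [(hc k).1, (hd k).1, one_mul], by rw [(hc k).2, (hd k).2]⟩
  inv_mem' {c} hc k := by
    simp only [Pi.inv_apply, inv_pow]
    exact ⟨by rw [(hc k).1, inv_one], by rw [(hc k).2]⟩

lemma isClosed_grp : IsClosed (grp : Set (ℕ → Circle)) := by
  have : (grp : Set (ℕ → Circle)) = ⋂ k, ({c | c k ^ NN k = 1} ∩ {c | c (k + 1) ^ NN k = c k}) := by
    ext c
    simp only [Set.mem_iInter, Set.mem_inter_iff, Set.mem_ofPred_eq]
    rfl
  rw [this]
  refine isClosed_iInter fun k => IsClosed.inter ?_ ?_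
  · exact isClosed_eq (by fun_prop) (by fun_prop)
  · exact isClosed_eq (by fun_prop) (by fun_prop)

instance : CompactSpace grp := isCompact_iff_compactSpace.mp isClosed_grp.isCompact

/-- the element `c_k = exp(2πi/N_k)` of `G` -/
noncomputable def gen : grp := ⟨fun k => Circle.exp (2 * Real.pi / NN k), by
  intro k
  have hN : (NN k : ℝ) ≠ 0 := by have := two_le_NN k; positivity
  have hpow : ∀ (x : ℝ) (n : ℕ), Circle.exp x ^ n = Circle.exp (n * x) := by
    intro x n
    induction n with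
    | zero => simp
    | succ n ih => rw [pow_succ, ih, ← Circle.exp_add]; congr 1; push_cast; ring
  constructor
  · rw [hpow]
    have : (NN k : ℝ) * (2 * Real.pi / NN k) = 2 * Real.pi := by field_simp
    rw [this, Circle.exp_two_pi]
  · rw [hpow, NN_succ]
    congr 1
    push_cast
    field_simp⟩

instance : Nontrivial grp := by
  refine ⟨1, gen, ?_⟩
  intro h
  have h1 : Circle.exp (2 * Real.pi / NN 0) = 1 := by
    have := congrArg (fun c : grp => c.1 0) h
    exact this.symm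
  have h2 : (NN 0 : ℝ) = 2 := by norm_num [NN]
  rw [h2] at h1
  have h3 : (2 * Real.pi / 2 : ℝ) = Real.pi := by ring
  rw [h3] at h1
  have h4 := congrArg (fun c : Circle => (c : ℂ)) h1
  simp at h4
  norm_num at h4

instance : CompactSpace S3 := isCompact_iff_compactSpace.mp (isCompact_sphere _ _)

lemma norm_rot (c : Circle) (p : ℂ × ℂ) : ‖((c : ℂ) * p.1, (c : ℂ) * p.2)‖ = ‖p‖ := by
  have : ((c : ℂ) * p.1, (c : ℂ) * p.2) = (c : ℂ) • p := rfl
  rw [this, norm_smul, Circle.norm_coe, one_mul]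

/-- `X`: the product of countably many copies of the 3-sphere -/
abbrev XX : Type := ℕ → S3

/-- `G` acts on `X` by `(c • x)_k = c_k x_k` -/
noncomputable instance : MulAction grp XX where
  smul c x := fun k => ⟨((c.1 k : ℂ) * (x k).1.1, (c.1 k : ℂ) * (x k).1.2), by
    rw [mem_sphere_zero_iff_norm, norm_rot]; exact mem_sphere_zero_iff_norm.mp (x k).2⟩
  one_smul x := by
    funext k
    apply Subtype.ext
    show (((1 : Circle) : ℂ) * (x k).1.1, ((1 : Circle) : ℂ) * (x k).1.2) = _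
    simp
  mul_smul c d x := by
    funext k
    apply Subtype.ext
    show (((c.1 k * d.1 k : Circle) : ℂ) * (x k).1.1, ((c.1 k * d.1 k : Circle) : ℂ) * (x k).1.2) =
      ((c.1 k : ℂ) * ((d.1 k : ℂ) * (x k).1.1), (c.1 k : ℂ) * ((d.1 k : ℂ) * (x k).1.2))
    simp [mul_assoc]

lemma smul_val (c : grp) (x : XX) (k : ℕ) :
    ((c • x) k).1 = ((c.1 k : ℂ) * (x k).1.1, (c.1 k : ℂ) * (x k).1.2) := rfl

instance : ContinuousSMul grp XX where
  continuous_smul := by
    refine continuous_pi fun k => ?_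
    rw [continuous_induced_rng]
    show Continuous (fun p : grp × XX => (((p.1.1 k : Circle) : ℂ) * (p.2 k).1.1,
      ((p.1.1 k : Circle) : ℂ) * (p.2 k).1.2))
    have h1 : Continuous (fun p : grp × XX => ((p.1.1 k : Circle) : ℂ)) :=
      continuous_subtype_val.comp ((continuous_apply k).comp (continuous_subtype_val.comp continuous_fst))
    have h2 : Continuous (fun p : grp × XX => (p.2 k).1) :=
      continuous_subtype_val.comp ((continuous_apply k).comp continuous_snd)
    exact (h1.mul (continuous_fst.comp h2)).prodMk (h1.mul (continuous_snd.comp h2))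

/-- the action is free -/
lemma free_XX (c : grp) (x : XX) (h : c • x = x) : c = 1 := by
  apply Subtype.ext
  funext k
  have h1 := congrArg (fun y : XX => (y k).1) h
  simp only [smul_val] at h1
  have hz : (c.1 k : ℂ) * (x k).1.1 = (x k).1.1 := congrArg Prod.fst h1
  have hw : (c.1 k : ℂ) * (x k).1.2 = (x k).1.2 := congrArg Prod.snd h1
  have hne : (x k).1 ≠ 0 := by
    intro h0
    have := mem_sphere_zero_iff_norm.mp (x k).2
    rw [h0, norm_zero] at this
    exact zero_ne_one this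
  have hc : (c.1 k : ℂ) = 1 := by
    by_cases hz0 : (x k).1.1 = 0
    · have hw0 : (x k).1.2 ≠ 0 := fun h0 => hne (Prod.ext hz0 h0)
      exact mul_right_cancel₀ hw0 (by rw [hw, one_mul])
    · exact mul_right_cancel₀ hz0 (by rw [hz, one_mul])
  show c.1 k = 1
  exact Circle.ext hc

/-- normalised vectors -/
noncomputable def nrm (v : ℂ × ℂ) : ℂ × ℂ := ‖v‖⁻¹ • v

lemma norm_nrm {v : ℂ × ℂ} (hv : v ≠ 0) : ‖nrm v‖ = 1 := by
  unfold nrm
  rw [norm_smul, norm_inv, norm_norm, inv_mul_cancel₀ (norm_ne_zero_iff.mpr hv)]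

lemma S3_ne_zero (x : S3) : (x : ℂ × ℂ) ≠ 0 := by
  intro h0
  have := mem_sphere_zero_iff_norm.mp x.2
  rw [h0, norm_zero] at this
  exact zero_ne_one this

/-- the homotopy `K : [0,1] × X → X`, `K(1-t,x)_k = h_t(x_(k+1))/‖h_t(x_(k+1))‖` with `N = N_k` -/
noncomputable def KK : C(unitInterval × XX, XX) where
  toFun q k := ⟨nrm (hmap (NN k) (unitInterval.symm q.1 : ℝ) (q.2 (k + 1)).1), by
    rw [mem_sphere_zero_iff_norm]
    exact norm_nrm (hmap_ne_zero (two_le_NN k) (unitInterval.symm q.1).2.1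
      (unitInterval.symm q.1).2.2 (S3_ne_zero _))⟩
  continuous_toFun := by
    refine continuous_pi fun k => ?_
    rw [continuous_induced_rng]
    show Continuous (fun q : unitInterval × XX =>
      nrm (hmap (NN k) (unitInterval.symm q.1 : ℝ) (q.2 (k + 1)).1))
    have h1 : Continuous (fun q : unitInterval × XX =>
        hmap (NN k) (unitInterval.symm q.1 : ℝ) (q.2 (k + 1)).1) := by
      refine (continuous_hmap (NN k)).comp (?_ : Continuous (fun q : unitInterval × XX =>
        ((unitInterval.symm q.1 : ℝ), (q.2 (k + 1)).1)))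
      exact (continuous_subtype_val.comp (unitInterval.continuous_symm.comp continuous_fst)).prodMk
        (continuous_subtype_val.comp ((continuous_apply (k + 1)).comp continuous_snd))
    unfold nrm
    refine Continuous.smul (Continuous.inv₀ h1.norm ?_) h1
    intro q
    exact norm_ne_zero_iff.mpr (hmap_ne_zero (two_le_NN k) (unitInterval.symm q.1).2.1
      (unitInterval.symm q.1).2.2 (S3_ne_zero _))

lemma KK_val (t : unitInterval) (x : XX) (k : ℕ) :
    (KK (t, x) k).1 = nrm (hmap (NN k) (unitInterval.symm t : ℝ) (x (k + 1)).1) := rfl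

lemma KK_const (x : XX) : KK (0, x) = fun _ => ⟨(-1, 0), by
    rw [mem_sphere_zero_iff_norm, Prod.norm_mk]; simp⟩ := by
  funext k
  apply Subtype.ext
  rw [KK_val]
  have h : hmap (NN k) (unitInterval.symm 0 : ℝ) (x (k + 1)).1 = (-1, 0) := by
    simp [hmap]
  rw [h]
  simp [nrm, Prod.norm_mk]

lemma KK_equivariant (c : grp) (x : XX) : KK (1, c • x) = c • KK (1, x) := by
  funext k
  apply Subtype.ext
  rw [KK_val, smul_val, smul_val, KK_val]
  have h0 : (unitInterval.symm 1 : ℝ) = 0 := by simp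
  rw [h0]
  set ζ : ℂ := (c.1 (k + 1) : ℂ) with hζ
  have hconj : conj ζ * ζ = 1 := by
    rw [← Complex.normSq_eq_conj_mul_self]
    simp [hζ]
  have hpow : ζ ^ (NN k * NN k) = 1 := by
    have := (c.2 (k + 1)).1
    rw [NN_succ] at this
    have h2 := congrArg (fun u : Circle => (u : ℂ)) this
    simpa using h2
  have hck : ζ ^ NN k = (c.1 k : ℂ) := by
    have := (c.2 k).2
    have h2 := congrArg (fun u : Circle => (u : ℂ)) this
    simpa using h2
  rw [hmap_zero_smul (two_le_NN k) ζ hconj hpow, hck]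
  unfold nrm
  rw [norm_rot]
  simp only [Prod.smul_mk, Prod.smul_fst, Prod.smul_snd]
  ext <;> simp [mul_left_comm]

end Pool.Agent.MP_b3a7e3_al.TypeOne
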